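import Mathlib
import Pool.Agent.R528.RM.Basic

set_option autoImplicit false
set_option linter.unusedSectionVars false

/-!
# Adapted random sets: empty windows

Bounds, from above and from below, for the probability that a window contains no element of an adapted
random set, when the conditional densities are bounded by functions of the position (project RMG).
-/

open MeasureTheory Filter Set
open scoped ENNReal Topology

namespace Pool.Agent.D0H60.RMG

open Pool.Agent.R528.RM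

variable {Ω : Type} {m0 : MeasurableSpace Ω} {μ : Measure Ω} [IsProbabilityMeasure μ]
  {ℱ : Filtration ℕ m0} {A : ℕ → Set Ω}

/-- the window `(t, t + y]` contains no element -/
def Em (A : ℕ → Set Ω) (t y : ℕ) : Set Ω := {ω | ∀ j < y, ω ∉ A (t + j + 1)}

/-- a violation occurs at one of the times `t, ..., t + y - 1` -/
def VV (V : ℕ → Set Ω) (t y : ℕ) : Set Ω := {ω | ∃ j < y, ω ∈ V (t + j)}

lemma Em_meas (hA : ∀ n, MeasurableSet[ℱ n] (A n)) (t y : ℕ) : MeasurableSet[ℱ (t + y)] (Em A t y) := by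
  have h1 : Em A t y = ⋂ j ∈ Finset.range y, (A (t + j + 1))ᶜ := by
    ext ω
    simp only [Em, mem_ofPred_eq, mem_iInter, Finset.mem_range, mem_compl_iff]
  rw [h1]
  refine Finset.measurableSet_biInter _ fun j hj => ?_
  have hj := Finset.mem_range.1 hj
  exact (ℱ.mono (by omega) _ (hA (t + j + 1))).compl

lemma VV_meas {V : ℕ → Set Ω} (hV : ∀ n, MeasurableSet[ℱ n] (V n)) (t y : ℕ) :
    MeasurableSet[ℱ (t + y)] (VV V t y) := by
  have h1 : VV V t y = ⋃ j ∈ Finset.range y, V (t + j) := by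
    ext ω
    simp [VV]
  rw [h1]
  refine Finset.measurableSet_biUnion _ fun j hj => ?_
  have hj := Finset.mem_range.1 hj
  exact ℱ.mono (by omega) _ (hV (t + j))

/-! ## Upper bound -/

/-- the part of `B` where the first `j` steps after `t` see no element and no violation -/
def UU (A V : ℕ → Set Ω) (B : Set Ω) (t : ℕ) : ℕ → Set Ω
  | 0 => B
  | j + 1 => (UU A V B t j \ V (t + j)) \ A (t + j + 1)

lemma UU_meas (hA : ∀ n, MeasurableSet[ℱ n] (A n)) {V : ℕ → Set Ω}
    (hV : ∀ n, MeasurableSet[ℱ n] (V n)) {B : Set Ω} {t : ℕ} (hB : MeasurableSet[ℱ t] B) (j : ℕ) :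
    MeasurableSet[ℱ (t + j)] (UU A V B t j) := by
  induction j with
  | zero => exact hB
  | succ j ih =>
    have h1 := ℱ.mono (Nat.le_succ (t + j)) _ (ih.diff (hV (t + j)))
    exact MeasurableSet.diff h1 (hA (t + j + 1))

theorem UU_le (hA : ∀ n, MeasurableSet[ℱ n] (A n)) {V : ℕ → Set Ω}
    (hV : ∀ n, MeasurableSet[ℱ n] (V n)) {B : Set Ω} {t : ℕ} (hB : MeasurableSet[ℱ t] B)
    {l : ℕ → ℝ} (y : ℕ)
    (hl : ∀ n, t ≤ n → n < t + y → ∀ ω, ω ∉ V n → l (n + 1) ≤ dens μ ℱ A n ω) :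
    ∀ j ≤ y, μ.real (UU A V B t j) ≤ Real.exp (-∑ i ∈ Finset.range j, l (t + i + 1)) * μ.real B := by
  intro j
  induction j with
  | zero => intro _; simp [UU]
  | succ j ih =>
    intro hj
    have ih := ih (by omega)
    have hB' : MeasurableSet[ℱ (t + j)] (UU A V B t j \ V (t + j)) :=
      (UU_meas hA hV hB j).diff (hV _)
    have hlow := lower_meas (μ := μ) hA (t + j) hB' (l := l (t + j + 1))
      (fun ω hω => hl (t + j) (by omega) (by omega) ω hω.2)
    have hA' : MeasurableSet (A (t + j + 1)) := ℱ.le _ _ (hA _)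
    have h1 : μ.real (UU A V B t (j + 1)) =
        μ.real (UU A V B t j \ V (t + j)) - μ.real ((UU A V B t j \ V (t + j)) ∩ A (t + j + 1)) := by
      have := measureReal_inter_add_sdiff (μ := μ) (s := UU A V B t j \ V (t + j)) hA'
      have h2 : UU A V B t (j + 1) = (UU A V B t j \ V (t + j)) \ A (t + j + 1) := rfl
      rw [h2]
      linarith
    have h3 : μ.real (UU A V B t j \ V (t + j)) ≤ μ.real (UU A V B t j) :=
      measureReal_mono sdiff_subset
    have h4 : 0 ≤ μ.real (UU A V B t j \ V (t + j)) := measureReal_nonneg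
    have h5 : 1 - l (t + j + 1) ≤ Real.exp (-l (t + j + 1)) := by
      have := Real.add_one_le_exp (-l (t + j + 1))
      linarith
    have h6 : μ.real (UU A V B t (j + 1)) ≤
        Real.exp (-l (t + j + 1)) * μ.real (UU A V B t j \ V (t + j)) := by
      rw [h1]
      have := mul_le_mul_of_nonneg_right h5 h4
      linarith
    refine h6.trans ?_
    rw [Finset.sum_range_succ, neg_add, Real.exp_add]
    calc Real.exp (-l (t + j + 1)) * μ.real (UU A V B t j \ V (t + j))
        ≤ Real.exp (-l (t + j + 1)) *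
          (Real.exp (-∑ i ∈ Finset.range j, l (t + i + 1)) * μ.real B) :=
          mul_le_mul_of_nonneg_left (h3.trans ih) (Real.exp_pos _).le
      _ = _ := by ring

lemma mem_UU {V : ℕ → Set Ω} {B : Set Ω} {t y : ℕ} {ω : Ω} (hB : ω ∈ B) (h1 : ω ∈ Em A t y)
    (h2 : ω ∉ VV V t y) : ω ∈ UU A V B t y := by
  have key : ∀ j ≤ y, ω ∈ UU A V B t j := by
    intro j
    induction j with
    | zero => intro _; exact hB
    | succ j ih =>
      intro hj
      exact ⟨⟨ih (by omega), fun h3 => h2 ⟨j, by omega, h3⟩⟩, h1 j (by omega)⟩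
  exact key y le_rfl

/-- only finitely many empty windows, almost surely on the event that there is no violation -/
theorem fin_win (hA : ∀ n, MeasurableSet[ℱ n] (A n)) {V : ℕ → Set Ω}
    (hV : ∀ n, MeasurableSet[ℱ n] (V n)) (l : ℕ → ℝ) (y : ℕ → ℕ) (n₀ i₀ : ℕ) (hn₀ : n₀ ≤ 2 ^ i₀)
    (hl : ∀ n, n₀ ≤ n → ∀ ω, ω ∉ V n → l (n + 1) ≤ dens μ ℱ A n ω)
    (κ : ℝ) (hκ : 0 < κ)
    (hsum : ∀ i, i₀ ≤ i → ∀ t, 2 ^ i ≤ t → t < 2 ^ (i + 1) →
      (1 + κ) * (i * Real.log 2) ≤ ∑ j ∈ Finset.range (y i), l (t + j + 1)) :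
    ∀ᵐ ω ∂μ, (∀ n, n₀ ≤ n → ω ∉ V n) → ∀ᶠ i in atTop, ∀ t, 2 ^ i ≤ t → t < 2 ^ (i + 1) →
      ω ∉ Em A t (y i) := by
  classical
  set E : ℕ → Set Ω := fun i => ⋃ a ∈ Finset.Ico (2 ^ (i₀ + i)) (2 ^ (i₀ + i + 1)),
    UU A V univ a (y (i₀ + i)) with hE
  have h1 : ∀ i, μ.real (E i) ≤ Real.exp (-(κ * Real.log 2)) ^ (i₀ + i) := by
    intro i
    refine le_trans (measureReal_biUnion_finset_le _ _) ?_
    have h2 : ∀ a ∈ Finset.Ico (2 ^ (i₀ + i)) (2 ^ (i₀ + i + 1)), μ.real (UU A V univ a (y (i₀ + i))) ≤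
        Real.exp (-((1 + κ) * (((i₀ + i : ℕ) : ℝ) * Real.log 2))) := by
      intro a ha
      obtain ⟨ha1, ha2⟩ := Finset.mem_Ico.1 ha
      have h3 : 2 ^ i₀ ≤ 2 ^ (i₀ + i) := Nat.pow_le_pow_right (by norm_num) (by omega)
      have h4 := UU_le (μ := μ) hA hV (B := univ) (t := a) MeasurableSet.univ (l := l) (y (i₀ + i))
        (fun n hn1 hn2 => hl n (by omega)) (y (i₀ + i)) le_rfl
      refine h4.trans ?_
      rw [probReal_univ, mul_one]
      apply Real.exp_le_exp.2
      have := hsum (i₀ + i) (by omega) a ha1 ha2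
      linarith
    refine (Finset.sum_le_sum h2).trans ?_
    rw [Finset.sum_const, Nat.card_Ico, nsmul_eq_mul]
    have e : 2 ^ (i₀ + i + 1) - 2 ^ (i₀ + i) = 2 ^ (i₀ + i) := by rw [pow_succ]; omega
    rw [e]
    have e2 : ((2 ^ (i₀ + i) : ℕ) : ℝ) = Real.exp (((i₀ + i : ℕ) : ℝ) * Real.log 2) := by
      rw [mul_comm, Real.exp_mul, Real.exp_log (by norm_num), Real.rpow_natCast]
      push_cast
      rfl
    rw [e2, ← Real.exp_add, ← Real.exp_nat_mul]
    apply le_of_eq
    congr 1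
    ring
  have h2 : ∑' i, μ (E i) ≠ ∞ := by
    have h3 : Summable (fun i => μ.real (E i)) := by
      refine Summable.of_nonneg_of_le (fun _ => measureReal_nonneg) h1 ?_
      have hr : Real.exp (-(κ * Real.log 2)) < 1 := by
        rw [Real.exp_lt_one_iff]
        have := Real.log_pos (by norm_num : (1 : ℝ) < 2)
        have : 0 < κ * Real.log 2 := by positivity
        linarith
      have h4 := summable_geometric_of_lt_one (Real.exp_pos (-(κ * Real.log 2))).le hr
      have h5 := h4.mul_left (Real.exp (-(κ * Real.log 2)) ^ i₀)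
      refine h5.congr fun i => ?_
      rw [pow_add]
    have h4 : ∑' i, μ (E i) = ENNReal.ofReal (∑' i, μ.real (E i)) := by
      rw [ENNReal.ofReal_tsum_of_nonneg (fun _ => measureReal_nonneg) h3]
      congr 1
      funext i
      exact (ofReal_measureReal (measure_ne_top _ _)).symm
    rw [h4]
    exact ENNReal.ofReal_ne_top
  filter_upwards [ae_eventually_notMem h2] with ω hω hnV
  obtain ⟨i₁, hi₁⟩ := eventually_atTop.1 hω
  filter_upwards [eventually_ge_atTop (i₀ + i₁)] with i hi t ht1 ht2 hem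
  obtain ⟨i', rfl⟩ : ∃ i', i = i₀ + i' := ⟨i - i₀, by omega⟩
  apply hi₁ i' (by omega)
  have h3 : 2 ^ i₀ ≤ 2 ^ (i₀ + i') := Nat.pow_le_pow_right (by norm_num) (by omega)
  rw [hE]
  simp only [mem_iUnion, Finset.mem_Ico, exists_prop]
  refine ⟨t, ⟨ht1, ht2⟩, mem_UU (mem_univ _) hem ?_⟩
  rintro ⟨j, hj, h4⟩
  exact hnV (t + j) (by omega) h4

/-! ## Lower bound -/

/-- the part of `B` where no element occurs before the first violation, in the first `j` steps -/
def WL (A V : ℕ → Set Ω) (B : Set Ω) (t : ℕ) : ℕ → Set Ω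
  | 0 => B
  | j + 1 => WL A V B t j \ (NV V t j ∩ A (t + j + 1))

lemma WL_meas (hA : ∀ n, MeasurableSet[ℱ n] (A n)) {V : ℕ → Set Ω}
    (hV : ∀ n, MeasurableSet[ℱ n] (V n)) {B : Set Ω} {t : ℕ} (hB : MeasurableSet[ℱ t] B) (j : ℕ) :
    MeasurableSet[ℱ (t + j)] (WL A V B t j) := by
  induction j with
  | zero => exact hB
  | succ j ih =>
    have h1 := ℱ.mono (Nat.le_succ (t + j)) _ ih
    have h2 := ℱ.mono (Nat.le_succ (t + j)) _ (NV_meas hV t j)
    exact MeasurableSet.diff h1 (h2.inter (hA (t + j + 1)))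

lemma WL_anti (A V : ℕ → Set Ω) (B : Set Ω) (t : ℕ) {j j' : ℕ} (h : j ≤ j') :
    WL A V B t j' ⊆ WL A V B t j := by
  induction j', h using Nat.le_induction with
  | base => exact subset_rfl
  | succ n _ ih => exact sdiff_subset.trans ih

lemma WL_sub (A V : ℕ → Set Ω) (B : Set Ω) (t y : ℕ) :
    WL A V B t y ⊆ B ∩ (Em A t y ∪ VV V t y) := by
  intro ω hω
  refine ⟨WL_anti A V B t (Nat.zero_le y) hω, ?_⟩
  by_cases h : ω ∈ VV V t y
  · exact Or.inr h
  · left
    intro j hj h1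
    have h2 : ω ∈ WL A V B t (j + 1) := WL_anti A V B t hj hω
    refine h2.2 ⟨?_, h1⟩
    intro n hn1 hn2 hn3
    refine h ⟨n - t, by omega, ?_⟩
    rwa [show t + (n - t) = n by omega]

theorem WL_ge (hA : ∀ n, MeasurableSet[ℱ n] (A n)) {V : ℕ → Set Ω}
    (hV : ∀ n, MeasurableSet[ℱ n] (V n)) {B : Set Ω} {t : ℕ} (hB : MeasurableSet[ℱ t] B)
    {u : ℕ → ℝ} (y : ℕ) (hu0 : ∀ m, 0 ≤ u m) {η : ℝ} (hη : 0 < η)
    (hu1 : ∀ n, t ≤ n → n < t + y → u (n + 1) ≤ η / (1 + η))
    (hu : ∀ n, t ≤ n → n < t + y → ∀ ω, ω ∉ V n → dens μ ℱ A n ω ≤ u (n + 1)) :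
    ∀ j ≤ y, Real.exp (-((1 + η) * ∑ i ∈ Finset.range j, u (t + i + 1))) * μ.real B ≤
      μ.real (WL A V B t j) := by
  intro j
  induction j with
  | zero => intro _; simp [WL]
  | succ j ih =>
    intro hj
    have ih := ih (by omega)
    have hC : MeasurableSet[ℱ (t + j)] (WL A V B t j ∩ NV V t j) :=
      (WL_meas hA hV hB j).inter (NV_meas hV t j)
    have hup := upper_meas (μ := μ) hA (t + j) hC (u := u (t + j + 1))
      (fun ω hω => hu (t + j) (by omega) (by omega) ω (hω.2 _ (by omega) le_rfl))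
    have hA' : MeasurableSet (A (t + j + 1)) := ℱ.le _ _ (hA _)
    have hNV : MeasurableSet (NV V t j) := ℱ.le _ _ (NV_meas hV t j)
    have h1 : μ.real (WL A V B t (j + 1)) =
        μ.real (WL A V B t j) - μ.real ((WL A V B t j ∩ NV V t j) ∩ A (t + j + 1)) := by
      have := measureReal_inter_add_sdiff (μ := μ) (s := WL A V B t j) (hNV.inter hA')
      have h2 : WL A V B t (j + 1) = WL A V B t j \ (NV V t j ∩ A (t + j + 1)) := rfl
      rw [h2, inter_assoc]
      linarith
    have h3 : μ.real (WL A V B t j ∩ NV V t j) ≤ μ.real (WL A V B t j) :=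
      measureReal_mono inter_subset_left
    have h7 : 0 ≤ μ.real (WL A V B t j) := measureReal_nonneg
    have hu0' := hu0 (t + j + 1)
    have hu1' := hu1 (t + j) (by omega) (by omega)
    have h5 : (1 - u (t + j + 1)) * μ.real (WL A V B t j) ≤ μ.real (WL A V B t (j + 1)) := by
      rw [h1]
      have := mul_le_mul_of_nonneg_left h3 hu0'
      linarith
    have hη1 : 0 < 1 + η := by linarith
    have h8 : u (t + j + 1) < 1 := by
      refine lt_of_le_of_lt hu1' ?_
      rw [div_lt_one hη1]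
      linarith
    have h6 : Real.exp (-((1 + η) * u (t + j + 1))) ≤ 1 - u (t + j + 1) := by
      have h9 : 0 < 1 - u (t + j + 1) := by linarith
      have h10 := Real.one_sub_inv_le_log_of_pos h9
      rw [← Real.exp_log h9]
      apply Real.exp_le_exp.2
      refine le_trans ?_ h10
      have h11 : (1 - u (t + j + 1))⁻¹ ≤ 1 + η := by
        rw [inv_le_comm₀ h9 hη1]
        rw [le_div_iff₀ hη1] at hu1'
        have : (1 + η)⁻¹ * (1 + η) = 1 := inv_mul_cancel₀ hη1.ne'
        have h12 : (1 + η)⁻¹ * (1 + η) ≤ (1 - u (t + j + 1)) * (1 + η) := by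
          rw [this]; linarith
        exact le_of_mul_le_mul_right h12 hη1
      have h12 : (1 - u (t + j + 1))⁻¹ = 1 + u (t + j + 1) * (1 - u (t + j + 1))⁻¹ := by
        field_simp
        ring
      have h13 : u (t + j + 1) * (1 - u (t + j + 1))⁻¹ ≤ u (t + j + 1) * (1 + η) :=
        mul_le_mul_of_nonneg_left h11 hu0'
      linarith
    refine le_trans ?_ h5
    rw [Finset.sum_range_succ, mul_add, neg_add, Real.exp_add]
    calc Real.exp (-((1 + η) * ∑ i ∈ Finset.range j, u (t + i + 1))) *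
          Real.exp (-((1 + η) * u (t + j + 1))) * μ.real B
        = Real.exp (-((1 + η) * u (t + j + 1))) *
          (Real.exp (-((1 + η) * ∑ i ∈ Finset.range j, u (t + i + 1))) * μ.real B) := by ring
      _ ≤ Real.exp (-((1 + η) * u (t + j + 1))) * μ.real (WL A V B t j) :=
          mul_le_mul_of_nonneg_left ih (Real.exp_pos _).le
      _ ≤ (1 - u (t + j + 1)) * μ.real (WL A V B t j) := mul_le_mul_of_nonneg_right h6 h7

/-- one window -/
theorem one_win (hA : ∀ n, MeasurableSet[ℱ n] (A n)) {V : ℕ → Set Ω}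
    (hV : ∀ n, MeasurableSet[ℱ n] (V n)) {B : Set Ω} {t : ℕ} (hB : MeasurableSet[ℱ t] B)
    {u : ℕ → ℝ} (y : ℕ) (hu0 : ∀ m, 0 ≤ u m) {η : ℝ} (hη : 0 < η)
    (hu1 : ∀ n, t ≤ n → n < t + y → u (n + 1) ≤ η / (1 + η))
    (hu : ∀ n, t ≤ n → n < t + y → ∀ ω, ω ∉ V n → dens μ ℱ A n ω ≤ u (n + 1))
    {lam : ℝ} (hlam : ∑ i ∈ Finset.range y, u (t + i + 1) ≤ lam) :
    μ.real (B \ (Em A t y ∪ VV V t y)) ≤ Real.exp (-Real.exp (-((1 + η) * lam))) * μ.real B := by
  have hB' : MeasurableSet B := ℱ.le t _ hB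
  have hE' : MeasurableSet (Em A t y) := ℱ.le _ _ (Em_meas hA t y)
  have hW' : MeasurableSet (VV V t y) := ℱ.le _ _ (VV_meas hV t y)
  have h1 := WL_ge (μ := μ) hA hV hB y hu0 hη hu1 hu y le_rfl
  have h2 : μ.real (WL A V B t y) ≤ μ.real (B ∩ (Em A t y ∪ VV V t y)) :=
    measureReal_mono (WL_sub A V B t y)
  have h3 := measureReal_inter_add_sdiff (μ := μ) (s := B) (hE'.union hW')
  have h4 : 0 ≤ μ.real B := measureReal_nonneg
  have h5 : Real.exp (-((1 + η) * lam)) ≤
      Real.exp (-((1 + η) * ∑ i ∈ Finset.range y, u (t + i + 1))) := by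
    apply Real.exp_le_exp.2
    have : (1 + η) * ∑ i ∈ Finset.range y, u (t + i + 1) ≤ (1 + η) * lam :=
      mul_le_mul_of_nonneg_left hlam (by linarith)
    linarith
  have h6 := Real.add_one_le_exp (-Real.exp (-((1 + η) * lam)))
  have h7 := mul_le_mul_of_nonneg_right h6 h4
  have h8 := mul_le_mul_of_nonneg_right h5 h4
  linarith

/-- no good window among the first `M` is empty, and no violation in the good windows -/
def RR (A V : ℕ → Set Ω) (N D y : ℕ) (Gd : Finset ℕ) (M : ℕ) : Set Ω :=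
  {ω | ∀ j ∈ Gd, j < M → ω ∉ Em A (N + j * D) y ∪ VV V (N + j * D) y}

lemma RR_succ (A V : ℕ → Set Ω) (N D y : ℕ) (Gd : Finset ℕ) (M : ℕ) :
    RR A V N D y Gd (M + 1) = if M ∈ Gd then
      RR A V N D y Gd M \ (Em A (N + M * D) y ∪ VV V (N + M * D) y) else RR A V N D y Gd M := by
  ext ω
  split_ifs with h
  · constructor
    · intro h1
      exact ⟨fun j hj hjM => h1 j hj (by omega), h1 M h (by omega)⟩
    · rintro ⟨h1, h2⟩ j hj hjM
      rcases Nat.lt_succ_iff_lt_or_eq.1 hjM with h3 | h3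
      · exact h1 j hj h3
      · subst h3; exact h2
  · constructor
    · intro h1 j hj hjM
      exact h1 j hj (by omega)
    · intro h1 j hj hjM
      rcases Nat.lt_succ_iff_lt_or_eq.1 hjM with h3 | h3
      · exact h1 j hj h3
      · subst h3; exact absurd hj h

lemma RR_meas (hA : ∀ n, MeasurableSet[ℱ n] (A n)) {V : ℕ → Set Ω}
    (hV : ∀ n, MeasurableSet[ℱ n] (V n)) (N D y : ℕ) (hy : y ≤ D) (Gd : Finset ℕ) (M : ℕ) :
    MeasurableSet[ℱ (N + M * D)] (RR A V N D y Gd M) := by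
  induction M with
  | zero =>
    have : RR A V N D y Gd 0 = univ := by
      ext ω
      simp [RR]
    rw [this]
    exact MeasurableSet.univ
  | succ M ih =>
    rw [RR_succ]
    have e : N + (M + 1) * D = N + M * D + D := by ring
    rw [e]
    split_ifs with h
    · refine (ℱ.mono (Nat.le_add_right _ _) _ ih).diff ?_
      exact (ℱ.mono (by omega) _ (Em_meas hA (N + M * D) y)).union
        (ℱ.mono (by omega) _ (VV_meas hV (N + M * D) y))
    · exact ℱ.mono (Nat.le_add_right _ _) _ ih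

theorem RR_le (hA : ∀ n, MeasurableSet[ℱ n] (A n)) {V : ℕ → Set Ω}
    (hV : ∀ n, MeasurableSet[ℱ n] (V n)) (N D y : ℕ) (hy : y ≤ D) (Gd : Finset ℕ)
    {u : ℕ → ℝ} (hu0 : ∀ m, 0 ≤ u m) {η : ℝ} (hη : 0 < η)
    (hu1 : ∀ n, N ≤ n → u (n + 1) ≤ η / (1 + η))
    (hu : ∀ n, N ≤ n → ∀ ω, ω ∉ V n → dens μ ℱ A n ω ≤ u (n + 1))
    {lam : ℝ} (hlam : ∀ j ∈ Gd, ∑ i ∈ Finset.range y, u (N + j * D + i + 1) ≤ lam) (M : ℕ) :
    μ.real (RR A V N D y Gd M) ≤
      Real.exp (-((Gd.filter (fun j => j < M)).card * Real.exp (-((1 + η) * lam)))) := by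
  induction M with
  | zero =>
    have : Gd.filter (fun j => j < 0) = ∅ := by ext j; simp
    rw [this]
    simp only [Finset.card_empty, Nat.cast_zero, zero_mul, neg_zero, Real.exp_zero]
    exact measureReal_le_one
  | succ M ih =>
    rw [RR_succ]
    split_ifs with h
    · have h1 := one_win (μ := μ) hA hV (RR_meas hA hV N D y hy Gd M) y hu0 hη
        (fun n hn1 hn2 => hu1 n (by
          have : 0 ≤ M * D := Nat.zero_le _
          omega)) (fun n hn1 hn2 => hu n (by
          have : 0 ≤ M * D := Nat.zero_le _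
          omega)) (hlam M h)
      refine h1.trans ?_
      have e : Gd.filter (fun j => j < M + 1) = insert M (Gd.filter (fun j => j < M)) := by
        ext j
        simp only [Finset.mem_filter, Finset.mem_insert]
        constructor
        · rintro ⟨h2, h3⟩
          rcases Nat.lt_succ_iff_lt_or_eq.1 h3 with h4 | h4
          · exact Or.inr ⟨h2, h4⟩
          · exact Or.inl h4
        · rintro (h2 | ⟨h2, h3⟩)
          · subst h2; exact ⟨h, by omega⟩
          · exact ⟨h2, by omega⟩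
      rw [e, Finset.card_insert_of_notMem (by simp)]
      calc Real.exp (-Real.exp (-((1 + η) * lam))) * μ.real (RR A V N D y Gd M)
          ≤ Real.exp (-Real.exp (-((1 + η) * lam))) *
            Real.exp (-((Gd.filter (fun j => j < M)).card * Real.exp (-((1 + η) * lam)))) :=
            mul_le_mul_of_nonneg_left ih (Real.exp_pos _).le
        _ = _ := by
          rw [← Real.exp_add]
          congr 1
          push_cast
          ring
    · refine ih.trans ?_
      apply Real.exp_le_exp.2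
      have e : Gd.filter (fun j => j < M + 1) = Gd.filter (fun j => j < M) := by
        ext j
        simp only [Finset.mem_filter]
        constructor
        · rintro ⟨h2, h3⟩
          refine ⟨h2, ?_⟩
          rcases Nat.lt_succ_iff_lt_or_eq.1 h3 with h4 | h4
          · exact h4
          · subst h4; exact absurd h2 h
        · rintro ⟨h2, h3⟩
          exact ⟨h2, by omega⟩
      rw [e]

/-- an empty window at every large good stage, almost surely on the event that there is no violation -/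
theorem io_win (hA : ∀ n, MeasurableSet[ℱ n] (A n)) {V : ℕ → Set Ω}
    (hV : ∀ n, MeasurableSet[ℱ n] (V n)) (I : Set ℕ) (N D y M : ℕ → ℕ) (Gd : ℕ → Finset ℕ)
    {u : ℕ → ℝ} (hu0 : ∀ m, 0 ≤ u m) {η : ℝ} (hη : 0 < η) (n₀ : ℕ)
    (hu1 : ∀ n, n₀ ≤ n → u (n + 1) ≤ η / (1 + η))
    (hu : ∀ n, n₀ ≤ n → ∀ ω, ω ∉ V n → dens μ ℱ A n ω ≤ u (n + 1)) (lam : ℕ → ℝ)
    (hst : ∀ᶠ i in atTop, i ∈ I → n₀ ≤ N i ∧ y i ≤ D i ∧ (∀ j ∈ Gd i, j < M i) ∧
      (∀ j ∈ Gd i, ∑ a ∈ Finset.range (y i), u (N i + j * D i + a + 1) ≤ lam i) ∧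
      (i : ℝ) ≤ (Gd i).card * Real.exp (-((1 + η) * lam i))) :
    ∀ᵐ ω ∂μ, (∀ n, n₀ ≤ n → ω ∉ V n) → ∀ᶠ i in atTop, i ∈ I →
      ∃ j ∈ Gd i, ω ∈ Em A (N i + j * D i) (y i) := by
  classical
  obtain ⟨i₀, hi₀⟩ := eventually_atTop.1 hst
  set E : ℕ → Set Ω := fun i => if i₀ ≤ i ∧ i ∈ I then RR A V (N i) (D i) (y i) (Gd i) (M i) else ∅
    with hE
  have h1 : ∀ i, μ.real (E i) ≤ Real.exp (-1) ^ i := by
    intro i
    simp only [hE]
    split_ifs with h
    · obtain ⟨g1, g2, g3, g4, g5⟩ := hi₀ i h.1 h.2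
      refine (RR_le (μ := μ) hA hV (N i) (D i) (y i) g2 (Gd i) hu0 hη
        (fun n hn => hu1 n (by omega)) (fun n hn => hu n (by omega)) g4 (M i)).trans ?_
      have e : (Gd i).filter (fun j => j < M i) = Gd i := by
        apply Finset.filter_true_of_mem
        exact g3
      rw [e, ← Real.exp_nat_mul]
      apply Real.exp_le_exp.2
      linarith
    · rw [measureReal_empty]
      positivity
  have h2 : ∑' i, μ (E i) ≠ ∞ := by
    have h3 : Summable (fun i => μ.real (E i)) := by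
      refine Summable.of_nonneg_of_le (fun _ => measureReal_nonneg) h1 ?_
      exact summable_geometric_of_lt_one (Real.exp_pos _).le (by rw [Real.exp_lt_one_iff]; norm_num)
    have h4 : ∑' i, μ (E i) = ENNReal.ofReal (∑' i, μ.real (E i)) := by
      rw [ENNReal.ofReal_tsum_of_nonneg (fun _ => measureReal_nonneg) h3]
      congr 1
      funext i
      exact (ofReal_measureReal (measure_ne_top _ _)).symm
    rw [h4]
    exact ENNReal.ofReal_ne_top
  filter_upwards [ae_eventually_notMem h2] with ω hω hnV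
  filter_upwards [hω, eventually_ge_atTop i₀] with i h3 h4 h5
  by_contra hcon
  push Not at hcon
  apply h3
  simp only [hE]
  rw [if_pos ⟨h4, h5⟩]
  obtain ⟨g1, -, -, -, -⟩ := hi₀ i h4 h5
  intro j hj _ h6
  rcases h6 with h6 | h6
  · exact hcon j hj h6
  · obtain ⟨a, ha, h7⟩ := h6
    exact hnV _ (by omega) h7

end Pool.Agent.D0H60.RMG
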