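import Mathlib
import Pool.Agent.H305R2.MertensE
import Pool.Agent.D0H60.RMG.Prob

set_option autoImplicit false
set_option linter.unusedSectionVars false

/-!
# Sequential random models of the primes with a sieve

The densities, and the two transfer theorems: windows with a large expected number of elements are not
empty, and among many windows with a small expected number of elements one is empty (project RMG).
-/

open MeasureTheory Filter Set
open scoped ENNReal Topology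

namespace Pool.Agent.D0H60.RMG

open Pool.Agent.R528.RM

/-- `m` has no prime factor at most `z m` -/
def Rough (z : ℕ → ℕ) (m : ℕ) : Prop := ∀ q, q.Prime → q ≤ z m → ¬ q ∣ m

/-- `∏_{q ≤ x} (1 - 1 / q)⁻¹` -/
noncomputable def W (x : ℕ) : ℝ := ∏ q ∈ (Finset.Icc 1 x).filter Nat.Prime, (1 - (q : ℝ)⁻¹)⁻¹

open Classical in
/-- the density `W (z m) / log m` at the rough numbers -/
noncomputable def dn (z : ℕ → ℕ) (m : ℕ) : ℝ := if Rough z m then W (z m) / Real.log m else 0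

lemma fac_ge (q : ℕ) (hq : q.Prime) : 1 ≤ (1 - (q : ℝ)⁻¹)⁻¹ := by
  have hq2 : (1 : ℝ) < q := by exact_mod_cast hq.one_lt
  have h1 : (q : ℝ)⁻¹ < 1 := inv_lt_one_of_one_lt₀ hq2
  have h2 : 0 < (q : ℝ)⁻¹ := by positivity
  rw [one_le_inv₀ (by linarith)]
  linarith

lemma W_ge (x : ℕ) : 1 ≤ W x := by
  unfold W
  have : ∀ q ∈ (Finset.Icc 1 x).filter Nat.Prime, 1 ≤ (1 - (q : ℝ)⁻¹)⁻¹ :=
    fun q hq => fac_ge q (Finset.mem_filter.1 hq).2
  calc (1 : ℝ) = ∏ q ∈ (Finset.Icc 1 x).filter Nat.Prime, (1 : ℝ) := by simp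
    _ ≤ _ := Finset.prod_le_prod (fun _ _ => zero_le_one) this

lemma W_pos (x : ℕ) : 0 < W x := zero_lt_one.trans_le (W_ge x)

lemma W_mono {x y : ℕ} (h : x ≤ y) : W x ≤ W y := by
  unfold W
  have hsub : (Finset.Icc 1 x).filter Nat.Prime ⊆ (Finset.Icc 1 y).filter Nat.Prime :=
    Finset.filter_subset_filter _ (Finset.Icc_subset_Icc_right h)
  rw [← Finset.prod_sdiff hsub]
  have h1 : (1 : ℝ) ≤ ∏ q ∈ (Finset.Icc 1 y).filter Nat.Prime \ (Finset.Icc 1 x).filter Nat.Prime, (1 - (q : ℝ)⁻¹)⁻¹ := by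
    calc (1 : ℝ) = ∏ q ∈ (Finset.Icc 1 y).filter Nat.Prime \ (Finset.Icc 1 x).filter Nat.Prime, (1 : ℝ) := by simp
      _ ≤ _ := Finset.prod_le_prod (fun _ _ => zero_le_one)
        fun q hq => fac_ge q (Finset.mem_filter.1 (Finset.mem_sdiff.1 hq).1).2
  have h2 : (0 : ℝ) ≤ ∏ q ∈ (Finset.Icc 1 x).filter Nat.Prime, (1 - (q : ℝ)⁻¹)⁻¹ :=
    Finset.prod_nonneg fun q hq => le_trans zero_le_one (fac_ge q (Finset.mem_filter.1 hq).2)
  nlinarith

lemma W_bound : ∃ C₁ C₂ : ℝ, 0 < C₁ ∧ 0 < C₂ ∧ ∀ x : ℕ, W x ≤ C₁ + C₂ * Real.log x := by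
  have h := Pool.Agent.H305R2.mertens_three
  have h1 : ∀ᶠ N : ℕ in atTop, W N / Real.log N < Real.exp Real.eulerMascheroniConstant + 1 :=
    h.eventually (gt_mem_nhds (by linarith))
  obtain ⟨N0, hN0⟩ := eventually_atTop.1 (h1.and
    ((Real.tendsto_log_atTop.comp tendsto_natCast_atTop_atTop).eventually_gt_atTop 0))
  refine ⟨W N0, Real.exp Real.eulerMascheroniConstant + 1, W_pos _, by positivity, ?_⟩
  intro x
  have hx0 : 0 ≤ Real.log (x : ℝ) := Real.log_natCast_nonneg x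
  rcases le_total x N0 with h2 | h2
  · have := W_mono h2
    have : 0 ≤ (Real.exp Real.eulerMascheroniConstant + 1) * Real.log x := by positivity
    linarith
  · obtain ⟨g1, g2⟩ := hN0 x h2
    simp only [Function.comp] at g2
    rw [div_lt_iff₀ g2] at g1
    have := W_pos N0
    linarith

lemma dn_nonneg (z : ℕ → ℕ) (m : ℕ) : 0 ≤ dn z m := by
  unfold dn
  have h1 := (W_pos (z m)).le
  have h2 := Real.log_natCast_nonneg m
  split_ifs
  · positivity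
  · exact le_rfl

lemma dn_le (z : ℕ → ℕ) (m : ℕ) : dn z m ≤ W (z m) / Real.log m := by
  unfold dn
  have h1 := (W_pos (z m)).le
  have h2 := Real.log_natCast_nonneg m
  split_ifs
  · exact le_rfl
  · positivity

lemma log_ratio : Tendsto (fun n : ℕ => Real.log ((n + 1 : ℕ) : ℝ) / Real.log n) atTop (𝓝 1) := by
  have h1 : Tendsto (fun n : ℕ => Real.log (1 + 1 / (n : ℝ)) / Real.log n) atTop (𝓝 0) := by
    have h2 : Tendsto (fun n : ℕ => 1 + 1 / (n : ℝ)) atTop (𝓝 (1 + 0)) :=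
      tendsto_const_nhds.add tendsto_one_div_atTop_nhds_zero_nat
    rw [add_zero] at h2
    have h3 := (Real.continuousAt_log one_ne_zero).tendsto.comp h2
    rw [Real.log_one] at h3
    exact h3.div_atTop (Real.tendsto_log_atTop.comp tendsto_natCast_atTop_atTop)
  have h2 := h1.const_add 1
  rw [add_zero] at h2
  refine h2.congr' ?_
  filter_upwards [eventually_gt_atTop 1] with n hn
  have hn' : (1 : ℝ) < n := by exact_mod_cast hn
  have hl : 0 < Real.log (n : ℝ) := Real.log_pos hn'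
  have e : ((n + 1 : ℕ) : ℝ) = (1 + 1 / (n : ℝ)) * n := by
    push_cast
    field_simp
  rw [e, Real.log_mul (by positivity) (by positivity)]
  field_simp
  ring

section

variable {Ω : Type} {m0 : MeasurableSpace Ω} {μ : Measure Ω} [IsProbabilityMeasure μ]
  {ℱ : Filtration ℕ m0} {A : ℕ → Set Ω}

/-- the densities follow the profile -/
lemma profile (z : ℕ → ℕ) (hcop : ∀ n, ¬ Rough z n → A n = ∅)
    (hd : ∀ᵐ ω ∂μ, Tendsto (fun n : ℕ => dens μ ℱ A n ω * Real.log n / W (z (n + 1)))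
      (atTop ⊓ 𝓟 {n : ℕ | Rough z (n + 1)}) (𝓝 1)) :
    ∀ᵐ ω ∂μ, ∀ ε : ℝ, 0 < ε → ∀ᶠ n : ℕ in atTop,
      |dens μ ℱ A n ω - dn z (n + 1)| ≤ ε * dn z (n + 1) := by
  have hz' : ∀ᵐ ω ∂μ, ∀ n, ¬ Rough z (n + 1) → dens μ ℱ A n ω = 0 := by
    rw [ae_all_iff]
    intro n
    by_cases h : Rough z (n + 1)
    · exact Eventually.of_forall fun ω h2 => absurd h h2
    · have h1 : dens μ ℱ A n =ᵐ[μ] 0 := by
        unfold dens
        rw [hcop _ h, Set.indicator_empty]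
        rw [show (fun _ : Ω => (0 : ℝ)) = 0 from rfl, condExp_zero]
      filter_upwards [h1] with ω hω _
      exact hω
  filter_upwards [hz', hd] with ω hω1 hω2 ε hε
  have h1 : Tendsto (fun n : ℕ => dens μ ℱ A n ω * Real.log ((n + 1 : ℕ) : ℝ) / W (z (n + 1)))
      (atTop ⊓ 𝓟 {n : ℕ | Rough z (n + 1)}) (𝓝 1) := by
    have h2 := hω2.mul (log_ratio.mono_left (inf_le_left : atTop ⊓ 𝓟 {n : ℕ | Rough z (n + 1)} ≤ atTop))
    rw [mul_one] at h2
    refine h2.congr' ?_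
    apply Filter.Eventually.filter_mono inf_le_left
    filter_upwards [eventually_gt_atTop 1] with n hn
    have hn' : (1 : ℝ) < n := by exact_mod_cast hn
    have hl : 0 < Real.log (n : ℝ) := Real.log_pos hn'
    field_simp
  have h2 := (Metric.tendsto_nhds.1 h1) ε hε
  rw [eventually_inf_principal] at h2
  filter_upwards [h2, eventually_gt_atTop 2] with n hn hn3
  by_cases hcp : Rough z (n + 1)
  · have h4 := hn hcp
    have hl : 0 < Real.log ((n + 1 : ℕ) : ℝ) := Real.log_pos (by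
      push_cast
      have : (2 : ℝ) < n := by exact_mod_cast hn3
      linarith)
    have hV : 0 < W (z (n + 1)) := W_pos _
    have e1 : dn z (n + 1) = W (z (n + 1)) / Real.log ((n + 1 : ℕ) : ℝ) := by
      unfold dn
      rw [if_pos hcp]
    rw [e1]
    rw [Real.dist_eq] at h4
    have e2 : dens μ ℱ A n ω - W (z (n + 1)) / Real.log ((n + 1 : ℕ) : ℝ) =
        (dens μ ℱ A n ω * Real.log ((n + 1 : ℕ) : ℝ) / W (z (n + 1)) - 1) * (W (z (n + 1)) / Real.log ((n + 1 : ℕ) : ℝ)) := by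
      field_simp
    have h5 : 0 < W (z (n + 1)) / Real.log ((n + 1 : ℕ) : ℝ) := by positivity
    rw [e2, abs_mul, abs_of_pos h5]
    exact mul_le_mul_of_nonneg_right h4.le h5.le
  · rw [hω1 n hcp]
    have e1 : dn z (n + 1) = 0 := by
      unfold dn
      rw [if_neg hcp]
    rw [e1]
    simp

/-- the violation events -/
def Vi (μ : Measure Ω) (ℱ : Filtration ℕ m0) (A : ℕ → Set Ω) (ρ : ℕ → ℝ) (ε : ℝ) (n : ℕ) : Set Ω :=
  {ω | ε * ρ (n + 1) < |dens μ ℱ A n ω - ρ (n + 1)|}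

lemma Vi_meas (ρ : ℕ → ℝ) (ε : ℝ) (n : ℕ) : MeasurableSet[ℱ n] (Vi μ ℱ A ρ ε n) := by
  have h1 : StronglyMeasurable[ℱ n] (fun ω => |dens μ ℱ A n ω - ρ (n + 1)|) :=
    ((dens_meas (μ := μ) (ℱ := ℱ) (A := A) n).sub stronglyMeasurable_const).norm
  exact measurableSet_lt stronglyMeasurable_const.measurable h1.measurable

lemma of_Vi {ρ : ℕ → ℝ} {P : Ω → Prop} {ε : ℝ} (hε : 0 < ε)
    (hprof : ∀ᵐ ω ∂μ, ∀ ε : ℝ, 0 < ε → ∀ᶠ n : ℕ in atTop,
      |dens μ ℱ A n ω - ρ (n + 1)| ≤ ε * ρ (n + 1))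
    (h : ∀ n₀ : ℕ, ∀ᵐ ω ∂μ, (∀ n, n₀ ≤ n → ω ∉ Vi μ ℱ A ρ ε n) → P ω) : ∀ᵐ ω ∂μ, P ω := by
  filter_upwards [hprof, ae_all_iff.2 h] with ω h1 h2
  obtain ⟨n₀, hn₀⟩ := eventually_atTop.1 (h1 ε hε)
  exact h2 n₀ fun n hn hv => absurd hv (not_lt.2 (hn₀ n hn))

/-- windows with a large expected number of elements are not empty -/
theorem win_fin (hA : ∀ n, MeasurableSet[ℱ n] (A n)) (ρ : ℕ → ℝ)
    (hprof : ∀ᵐ ω ∂μ, ∀ ε : ℝ, 0 < ε → ∀ᶠ n : ℕ in atTop,
      |dens μ ℱ A n ω - ρ (n + 1)| ≤ ε * ρ (n + 1)) (y : ℕ → ℕ) (κ : ℝ) (hκ : 0 < κ)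
    (hsum : ∀ᶠ i : ℕ in atTop, ∀ t, 2 ^ i ≤ t → t < 2 ^ (i + 1) →
      (1 + κ) * (i * Real.log 2) ≤ ∑ j ∈ Finset.range (y i), ρ (t + j + 1)) :
    ∀ᵐ ω ∂μ, ∀ᶠ i in atTop, ∀ t, 2 ^ i ≤ t → t < 2 ^ (i + 1) → ω ∉ Em A t (y i) := by
  obtain ⟨ε, hε, hε1, hεκ⟩ : ∃ ε : ℝ, 0 < ε ∧ ε < 1 ∧ 1 + κ / 2 ≤ (1 - ε) * (1 + κ) := by
    refine ⟨κ / 2 / (1 + κ), by positivity, ?_, ?_⟩
    · rw [div_lt_one (by positivity)]; linarith
    · have : κ / 2 / (1 + κ) * (1 + κ) = κ / 2 := by field_simp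
      nlinarith
  refine of_Vi hε hprof fun n₀ => ?_
  obtain ⟨i₁, hi₁⟩ := eventually_atTop.1 hsum
  have hn₀ : n₀ ≤ 2 ^ (max i₁ n₀) :=
    (le_max_right i₁ n₀).trans Nat.lt_two_pow_self.le
  refine fin_win (μ := μ) hA (Vi_meas ρ ε) (fun m => (1 - ε) * ρ m) y n₀ (max i₁ n₀) hn₀ ?_ (κ / 2)
    (by positivity) ?_
  · intro n _ ω hω
    have h1 : |dens μ ℱ A n ω - ρ (n + 1)| ≤ ε * ρ (n + 1) := not_lt.1 fun h => hω h
    have h2 := (abs_le.1 h1).1
    linarith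
  · intro i hi t ht1 ht2
    have h1 := hi₁ i (le_trans (le_max_left _ _) hi) t ht1 ht2
    rw [← Finset.mul_sum]
    have h2 : 0 ≤ (i : ℝ) * Real.log 2 := by
      have := Real.log_nonneg (by norm_num : (1 : ℝ) ≤ 2)
      positivity
    have h3 := mul_le_mul_of_nonneg_left h1 (by linarith : 0 ≤ 1 - ε)
    have h4 := mul_le_mul_of_nonneg_right hεκ h2
    linarith

/-- among many windows with a small expected number of elements one is empty -/
theorem win_io (hA : ∀ n, MeasurableSet[ℱ n] (A n)) (ρ : ℕ → ℝ) (hρ : ∀ m, 0 ≤ ρ m)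
    (hρ0 : Tendsto ρ atTop (𝓝 0))
    (hprof : ∀ᵐ ω ∂μ, ∀ ε : ℝ, 0 < ε → ∀ᶠ n : ℕ in atTop,
      |dens μ ℱ A n ω - ρ (n + 1)| ≤ ε * ρ (n + 1))
    (I : Set ℕ) (N D y M : ℕ → ℕ) (Gd : ℕ → Finset ℕ) (lam : ℕ → ℝ) (κ : ℝ) (hκ : 0 < κ)
    (hst : ∀ᶠ i in atTop, i ∈ I → i ≤ N i ∧ y i ≤ D i ∧ (∀ j ∈ Gd i, j < M i) ∧
      (∀ j ∈ Gd i, ∑ a ∈ Finset.range (y i), ρ (N i + j * D i + a + 1) ≤ lam i) ∧ 0 ≤ lam i ∧
      (i : ℝ) ≤ (Gd i).card * Real.exp (-((1 + κ) * lam i))) :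
    ∀ᵐ ω ∂μ, ∀ᶠ i in atTop, i ∈ I → ∃ j ∈ Gd i, ω ∈ Em A (N i + j * D i) (y i) := by
  obtain ⟨η, hη, hηκ⟩ : ∃ η : ℝ, 0 < η ∧ (1 + η) * (1 + η) ≤ 1 + κ := by
    refine ⟨min 1 (κ / 3), by positivity, ?_⟩
    have h1 : min 1 (κ / 3) ≤ 1 := min_le_left _ _
    have h2 : min 1 (κ / 3) ≤ κ / 3 := min_le_right _ _
    have h3 : 0 < min 1 (κ / 3) := by positivity
    nlinarith
  refine of_Vi hη hprof fun n₀ => ?_
  have h0 : ∀ᶠ m in atTop, ρ m < η / (1 + η) / (1 + η) :=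
    hρ0.eventually (gt_mem_nhds (by positivity))
  obtain ⟨n₁, hn₁⟩ := eventually_atTop.1 h0
  have h1 := io_win (μ := μ) hA (Vi_meas ρ η) I N D y M Gd (u := fun m => (1 + η) * ρ m)
    (fun m => mul_nonneg (by linarith) (hρ m)) hη (max n₀ n₁) (by
      intro n hn
      have h2 := hn₁ (n + 1) (by omega)
      have h3 : 0 < 1 + η := by linarith
      rw [lt_div_iff₀ h3] at h2
      linarith) (by
      intro n _ ω hω
      have h1 : |dens μ ℱ A n ω - ρ (n + 1)| ≤ η * ρ (n + 1) := not_lt.1 fun h => hω h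
      have h2 := (abs_le.1 h1).2
      linarith) (fun i => (1 + η) * lam i) (by
      filter_upwards [hst, eventually_ge_atTop (max n₀ n₁)] with i g1 g2 g3
      obtain ⟨k1, k2, k3, k4, k5, k6⟩ := g1 g3
      refine ⟨by omega, k2, k3, ?_, ?_⟩
      · intro j hj
        rw [← Finset.mul_sum]
        exact mul_le_mul_of_nonneg_left (k4 j hj) (by linarith)
      · refine k6.trans ?_
        apply mul_le_mul_of_nonneg_left _ (Nat.cast_nonneg _)
        apply Real.exp_le_exp.2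
        have := mul_le_mul_of_nonneg_right hηκ k5
        linarith)
  filter_upwards [h1] with ω h2 h3
  exact h2 fun n hn => h3 n (le_trans (le_max_left _ _) hn)

end

end Pool.Agent.D0H60.RMG
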