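import Mathlib
import Pool.Agent.Y835.SB.Lin2
import Pool.Agent.D0H60.RMG.Model

set_option autoImplicit false
set_option linter.unusedSectionVars false

/-!
# Sums of the densities over windows, crude bounds (project RMG)
-/

open Filter Set
open scoped Topology

namespace Pool.Agent.D0H60.RMG

lemma sum_shift (f : ℕ → ℝ) (t y : ℕ) :
    ∑ j ∈ Finset.range y, f (t + j + 1) = ∑ h ∈ Finset.Icc 1 y, f (t + h) := by
  induction y with
  | zero => simp
  | succ y ih =>
    rw [Finset.sum_range_succ, Finset.sum_Icc_succ_top (by omega), ih]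
    rfl

/-- the lower bound by the linear sieve -/
lemma sum_low (ζ : ℝ) (hζ1 : 1 / 4 ≤ ζ) (hζ2 : ζ < 1 / 2) : ∃ c : ℝ, 0 < c ∧ ∃ Y0 : ℕ,
    ∀ (z : ℕ → ℕ) (Y : ℕ), Y0 ≤ Y → ∀ t : ℕ, ∀ Λ : ℝ, 0 < Λ →
      (∀ m, t < m → m ≤ t + Y → (z m : ℝ) < (Y : ℝ) ^ ζ) →
      (∀ m, t < m → m ≤ t + Y → Real.log m ≤ Λ) → 1 ≤ t →
      c * (Y / Real.log Y) / Λ ≤ ∑ j ∈ Finset.range Y, dn z (t + j + 1) := by
  classical
  obtain ⟨c, hc, Y0, H⟩ := Pool.Agent.Y835.SB.lin_low ζ hζ1 hζ2
  refine ⟨c, hc, Y0, fun z Y hY t Λ hΛ hz hlog ht => ?_⟩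
  have h1 := H Y hY t
  rw [sum_shift]
  set F := (Finset.Icc 1 Y).filter (fun h => ∀ p : ℕ, p.Prime → (p : ℝ) < (Y : ℝ) ^ ζ → ¬ p ∣ t + h)
    with hF
  have h2 : ∑ h ∈ F, (1 / Λ) ≤ ∑ h ∈ Finset.Icc 1 Y, dn z (t + h) := by
    refine (Finset.sum_le_sum ?_).trans
      (Finset.sum_le_sum_of_subset_of_nonneg (Finset.filter_subset _ _) fun h _ _ => dn_nonneg z _)
    intro h hh
    obtain ⟨g1, g2⟩ := Finset.mem_filter.1 hh
    obtain ⟨g3, g4⟩ := Finset.mem_Icc.1 g1
    have hr : Rough z (t + h) := by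
      intro q hq hqz
      refine g2 q hq ?_
      have := hz (t + h) (by omega) (by omega)
      have h5 : (q : ℝ) ≤ z (t + h) := by exact_mod_cast hqz
      linarith
    unfold dn
    rw [if_pos hr]
    have h6 := hlog (t + h) (by omega) (by omega)
    have h7 : 0 < Real.log ((t + h : ℕ) : ℝ) := Real.log_pos (by exact_mod_cast (by omega : 1 < t + h))
    exact div_le_div₀ (W_pos _).le (W_ge _) h7 h6
  rw [Finset.sum_const, nsmul_eq_mul] at h2
  refine le_trans ?_ h2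
  rw [mul_one_div]
  exact div_le_div_of_nonneg_right h1 hΛ.le

/-- the densities tend to zero -/
lemma dn_tendsto (z : ℕ → ℕ) (hz : Tendsto (fun n : ℕ => Real.log (z n) / Real.log n) atTop (𝓝 0)) :
    Tendsto (dn z) atTop (𝓝 0) := by
  obtain ⟨C₁, C₂, hC₁, hC₂, hW⟩ := W_bound
  have h1 : Tendsto (fun n : ℕ => C₁ / Real.log n + C₂ * (Real.log (z n) / Real.log n)) atTop (𝓝 0) := by
    have h2 : Tendsto (fun n : ℕ => C₁ / Real.log (n : ℝ)) atTop (𝓝 0) :=
      (Real.tendsto_log_atTop.comp tendsto_natCast_atTop_atTop).const_div_atTop C₁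
    have h3 := h2.add (hz.const_mul C₂)
    simpa using h3
  refine squeeze_zero' (Eventually.of_forall fun n => dn_nonneg z n) ?_ h1
  filter_upwards [eventually_gt_atTop 1] with n hn
  have hn' : (1 : ℝ) < n := by exact_mod_cast hn
  have hl : 0 < Real.log (n : ℝ) := Real.log_pos hn'
  refine (dn_le z n).trans ?_
  rw [div_add' _ _ _ hl.ne', ]
  apply div_le_div_of_nonneg_right _ hl.le
  have := hW (z n)
  have e : C₂ * (Real.log (z n) / Real.log n) * Real.log n = C₂ * Real.log (z n) := by field_simp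
  linarith

/-- `z` is at most a power of the logarithm -/
lemma ratio_of_log {z : ℕ → ℕ} {K : ℝ} (hz : ∀ᶠ n : ℕ in atTop, (z n : ℝ) ≤ Real.log n ^ K) :
    Tendsto (fun n : ℕ => Real.log (z n) / Real.log n) atTop (𝓝 0) := by
  have hL : Tendsto (fun n : ℕ => Real.log (n : ℝ)) atTop atTop :=
    Real.tendsto_log_atTop.comp tendsto_natCast_atTop_atTop
  have h1 : Tendsto (fun x : ℝ => Real.log x / x) atTop (𝓝 0) := by
    have := Real.isLittleO_log_id_atTop.tendsto_div_nhds_zero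
    simpa using this
  have h2 : Tendsto (fun n : ℕ => |K| * (Real.log (Real.log n) / Real.log n)) atTop (𝓝 0) := by
    have := (h1.comp hL).const_mul |K|
    simpa using this
  refine squeeze_zero' ?_ ?_ h2
  · filter_upwards [eventually_gt_atTop 1] with n hn
    have hn' : (1 : ℝ) < n := by exact_mod_cast hn
    exact div_nonneg (Real.log_natCast_nonneg _) (Real.log_pos hn').le
  · filter_upwards [hz, hL.eventually_ge_atTop 1] with n h3 h4
    have hl : 0 < Real.log (n : ℝ) := by linarith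
    have h5 : 0 ≤ Real.log (Real.log n) := Real.log_nonneg h4
    rw [← mul_div_assoc]
    apply div_le_div_of_nonneg_right _ hl.le
    rcases Nat.eq_zero_or_pos (z n) with h6 | h6
    · rw [h6, Nat.cast_zero, Real.log_zero]
      positivity
    · have h7 : (0 : ℝ) < z n := by exact_mod_cast h6
      have h8 := Real.log_le_log h7 h3
      rw [Real.log_rpow hl] at h8
      refine h8.trans ?_
      exact mul_le_mul_of_nonneg_right (le_abs_self K) h5

/-- comparison of the logarithm with powers, along the naturals -/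
lemma log_small (a c : ℝ) (ha : 0 < a) (hc : 0 < c) : ∀ᶠ i : ℕ in atTop,
    Real.log i ≤ c * (i : ℝ) ^ a := by
  have h := (isLittleO_log_rpow_atTop ha).bound hc
  have h2 := tendsto_natCast_atTop_atTop.eventually h
  filter_upwards [h2, eventually_ge_atTop 1] with i h3 h4
  have h5 : 0 ≤ Real.log (i : ℝ) := Real.log_natCast_nonneg i
  rw [Real.norm_of_nonneg h5, Real.norm_of_nonneg (by positivity)] at h3
  exact h3

lemma pow_large (a K : ℝ) (ha : 0 < a) : ∀ᶠ i : ℕ in atTop, K ≤ (i : ℝ) ^ a :=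
  ((tendsto_rpow_atTop ha).comp tendsto_natCast_atTop_atTop).eventually_ge_atTop K

/-- windows of length `i ^ (2 a + ε)` have large expected numbers -/
theorem low_exp (z : ℕ → ℕ) (a : ℝ) (ha : 1 ≤ a)
    (hz : ∀ ε : ℝ, 0 < ε → ∀ᶠ n : ℕ in atTop, (z n : ℝ) ≤ Real.log n ^ (a + ε))
    (ε : ℝ) (hε : 0 < ε) (hε1 : ε ≤ 1) : ∀ᶠ i : ℕ in atTop, ∀ t, 2 ^ i ≤ t → t < 2 ^ (i + 1) →
      (1 + 1) * (i * Real.log 2) ≤ ∑ j ∈ Finset.range ⌊(i : ℝ) ^ (2 * a + ε)⌋₊, dn z (t + j + 1) := by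
  set ζ : ℝ := (a + ε / 4) / (2 * a + ε) with hζ
  have hζ1 : 1 / 4 ≤ ζ := by
    rw [hζ, le_div_iff₀ (by linarith)]
    linarith
  have hζ2 : ζ < 1 / 2 := by
    rw [hζ, div_lt_iff₀ (by linarith)]
    linarith
  have hζ0 : 0 < ζ := by linarith
  obtain ⟨c, hc, Y0, H⟩ := sum_low ζ hζ1 hζ2
  obtain ⟨n0, hn0⟩ := eventually_atTop.1 (hz (ε / 8) (by positivity))
  have hlog2 : Real.log 2 < 7 / 10 := by
    have := Real.log_two_lt_d9
    linarith
  have hlog20 : 0 < Real.log 2 := Real.log_pos (by norm_num)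
  -- eventual facts
  have e1 := pow_large (2 * a + ε) (2 * Y0 + 4) (by linarith)
  have e2 := pow_large (ε / 8) 4 (by positivity)
  have e3 := log_small ε (c / (6 * (2 * a + 1))) hε (by positivity)
  have e4 := pow_large 1 (n0 + 10) one_pos
  have e5 : ∀ᶠ i : ℕ in atTop, (i : ℝ) ^ (2 * a + ε) ≤ 2 ^ i := by
    have h1 : Tendsto (fun x : ℝ => x ^ (2 * a + ε) * Real.exp (-Real.log 2 * x)) atTop (𝓝 0) :=
      tendsto_rpow_mul_exp_neg_mul_atTop_nhds_zero _ _ hlog20
    have h2 := (h1.comp tendsto_natCast_atTop_atTop).eventually (ge_mem_nhds one_pos)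
    filter_upwards [h2] with i h3
    simp only [Function.comp] at h3
    have e : Real.exp (-Real.log 2 * i) = (2 ^ i : ℝ)⁻¹ := by
      rw [neg_mul, Real.exp_neg, Real.exp_mul, Real.exp_log (by norm_num), Real.rpow_natCast]
    rw [e, ← div_eq_mul_inv, div_le_one (by positivity)] at h3
    exact h3
  filter_upwards [e1, e2, e3, e4, e5, eventually_ge_atTop 2] with i h1 h2 h3 h4 h5 h6 t ht1 ht2
  rw [Real.rpow_one] at h4
  have hi : (0 : ℝ) < i := by
    have : (2 : ℝ) ≤ i := by exact_mod_cast h6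
    linarith
  have hi2 : (2 : ℝ) ≤ i := by exact_mod_cast h6
  have hn0' : (0 : ℝ) ≤ n0 := Nat.cast_nonneg _
  have hi10 : (10 : ℝ) ≤ i := by linarith
  set X : ℝ := (i : ℝ) ^ (2 * a + ε) with hX
  set Y : ℕ := ⌊X⌋₊ with hY
  have hX0 : 0 < X := by rw [hX]; positivity
  have hYX : (Y : ℝ) ≤ X := Nat.floor_le hX0.le
  have hYX2 : X / 2 ≤ Y := by
    have := Nat.lt_floor_add_one X
    have hY0 : (0 : ℝ) ≤ Y0 := Nat.cast_nonneg _
    rw [← hY] at this
    linarith
  have hYY0 : Y0 ≤ Y := by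
    have : (Y0 : ℝ) ≤ Y := by linarith
    exact_mod_cast this
  have hY2 : 2 ≤ Y := by
    have hY0 : (0 : ℝ) ≤ Y0 := Nat.cast_nonneg _
    have : (2 : ℝ) ≤ Y := by linarith
    exact_mod_cast this
  have hY1 : (1 : ℝ) < Y := by exact_mod_cast (by omega : 1 < Y)
  have hYi : Y ≤ 2 ^ i := by
    have : (Y : ℝ) ≤ ((2 ^ i : ℕ) : ℝ) := by push_cast; linarith
    exact_mod_cast this
  have hlogm : ∀ m, t < m → m ≤ t + Y → Real.log m ≤ i := by
    intro m hm1 hm2
    have hm3 : m ≤ 2 ^ (i + 2) := by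
      have e : 2 ^ (i + 2) = 2 ^ (i + 1) + 2 ^ (i + 1) := by ring
      have e' : 2 ^ (i + 1) = 2 ^ i + 2 ^ i := by ring
      omega
    have hm0 : (0 : ℝ) < m := by exact_mod_cast (by omega : 0 < m)
    have h7 : Real.log m ≤ Real.log ((2 : ℝ) ^ (i + 2)) := by
      apply Real.log_le_log hm0
      exact_mod_cast hm3
    rw [Real.log_pow] at h7
    push_cast at h7
    nlinarith
  have hzm : ∀ m, t < m → m ≤ t + Y → (z m : ℝ) < (Y : ℝ) ^ ζ := by
    intro m hm1 hm2
    have hp : i < 2 ^ i := Nat.lt_two_pow_self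
    have hni : n0 ≤ i := by
      have : (n0 : ℝ) ≤ i := by linarith
      exact_mod_cast this
    have h7 := hn0 m (by omega)
    have h8 := hlogm m hm1 hm2
    have hm0 : (0 : ℝ) ≤ Real.log m := Real.log_natCast_nonneg m
    have h9 : Real.log m ^ (a + ε / 8) ≤ (i : ℝ) ^ (a + ε / 8) :=
      Real.rpow_le_rpow hm0 h8 (by positivity)
    have h10 : (X / 2) ^ ζ ≤ (Y : ℝ) ^ ζ := Real.rpow_le_rpow (by positivity) hYX2 hζ0.le
    have h11 : (X / 2) ^ ζ = (i : ℝ) ^ (a + ε / 4) / 2 ^ ζ := by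
      rw [Real.div_rpow hX0.le (by norm_num), hX, ← Real.rpow_mul hi.le]
      congr 2
      rw [hζ]
      field_simp
    have h12 : (2 : ℝ) ^ ζ ≤ 2 := by
      calc (2 : ℝ) ^ ζ ≤ 2 ^ (1 : ℝ) := Real.rpow_le_rpow_of_exponent_le (by norm_num) (by linarith)
        _ = 2 := by norm_num
    have h13 : (i : ℝ) ^ (a + ε / 4) = (i : ℝ) ^ (a + ε / 8) * (i : ℝ) ^ (ε / 8) := by
      rw [← Real.rpow_add hi]
      congr 1
      ring
    have h14 : 0 < (i : ℝ) ^ (a + ε / 8) := by positivity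
    have h15 : (i : ℝ) ^ (a + ε / 8) < (i : ℝ) ^ (a + ε / 4) / 2 ^ ζ := by
      rw [lt_div_iff₀ (by positivity), h13]
      nlinarith
    linarith
  have h7 := H z Y hYY0 t i hi hzm hlogm (le_trans Nat.one_le_two_pow ht1)
  refine le_trans ?_ h7
  have hlY : 0 < Real.log Y := Real.log_pos hY1
  have hli : 0 < Real.log i := Real.log_pos (by linarith)
  have h8 : Real.log Y ≤ (2 * a + 1) * Real.log i := by
    have h9 : Real.log Y ≤ Real.log X := Real.log_le_log (by linarith) hYX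
    rw [hX, Real.log_rpow hi] at h9
    exact h9.trans (mul_le_mul_of_nonneg_right (by linarith) hli.le)
  have h9 : i * i * (i : ℝ) ^ ε ≤ X := by
    have h9' : i * i * (i : ℝ) ^ ε = (i : ℝ) ^ (2 + ε) := by
      rw [Real.rpow_add hi, Real.rpow_two, pow_two]
    rw [h9', hX]
    exact Real.rpow_le_rpow_of_exponent_le (by linarith) (by linarith)
  have h10 : (i * i * (i : ℝ) ^ ε / 2) / ((2 * a + 1) * Real.log i) ≤ Y / Real.log Y :=
    div_le_div₀ (by positivity) (by linarith) hlY h8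
  have h11 : c * ((i * i * (i : ℝ) ^ ε / 2) / ((2 * a + 1) * Real.log i)) / i ≤ c * (Y / Real.log Y) / i := by
    gcongr
  refine le_trans ?_ h11
  have h12 : c * ((i * i * (i : ℝ) ^ ε / 2) / ((2 * a + 1) * Real.log i)) / i =
      (i : ℝ) * (c * (i : ℝ) ^ ε / (2 * (2 * a + 1) * Real.log i)) := by
    field_simp
  rw [h12]
  have h13 : 3 ≤ c * (i : ℝ) ^ ε / (2 * (2 * a + 1) * Real.log i) := by
    rw [le_div_iff₀ (by positivity)]
    have h14 : c / (6 * (2 * a + 1)) * (i : ℝ) ^ ε * (6 * (2 * a + 1)) = c * (i : ℝ) ^ ε := by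
      field_simp
    have h15 := mul_le_mul_of_nonneg_right h3 (by positivity : 0 ≤ 6 * (2 * a + 1))
    linarith
  have h14 := mul_le_mul_of_nonneg_left h13 hi.le
  have h15 : (i : ℝ) * Real.log 2 ≤ i * 1 := mul_le_mul_of_nonneg_left (by linarith) hi.le
  linarith

/-- windows of length `i ^ (2 - ε)` have small expected numbers -/
theorem up_exp (z : ℕ → ℕ) (K : ℝ) (hK : 0 < K) (hz : ∀ᶠ n : ℕ in atTop, (z n : ℝ) ≤ Real.log n ^ K)
    (ε : ℝ) (hε : 0 < ε) : ∀ᶠ i : ℕ in atTop, ∀ t, 2 ^ i ≤ t →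
      ∀ y : ℕ, t + y ≤ 2 ^ (i + 1) → (y : ℝ) ≤ (i : ℝ) ^ (2 - ε) →
      ∑ j ∈ Finset.range y, dn z (t + j + 1) ≤ (i : ℝ) ^ (1 - ε / 2) := by
  obtain ⟨C₁, C₂, hC₁, hC₂, hW⟩ := W_bound
  obtain ⟨n0, hn0⟩ := eventually_atTop.1 hz
  have hlog2 : Real.log 2 < 7 / 10 := by
    have := Real.log_two_lt_d9
    linarith
  have hlog20 : 1 / 2 < Real.log 2 := by
    have := Real.log_two_gt_d9
    linarith
  have e1 := pow_large (ε / 2) (4 * C₁) (by positivity)
  have e2 := log_small (ε / 2) (1 / (4 * K * C₂)) (by positivity) (by positivity)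
  filter_upwards [e1, e2, eventually_ge_atTop (n0 + 10)] with i h1 h2 h3 t ht1 y hy1 hy2
  have hi10 : (10 : ℝ) ≤ i := by exact_mod_cast (by omega : 10 ≤ i)
  have hi : (0 : ℝ) < i := by linarith
  have hli : 0 < Real.log i := Real.log_pos (by linarith)
  have hd : ∀ j ∈ Finset.range y, dn z (t + j + 1) ≤ (C₁ + K * C₂ * Real.log i) / (i / 2) := by
    intro j hj
    have hj := Finset.mem_range.1 hj
    have hp : i < 2 ^ i := Nat.lt_two_pow_self
    set m := t + j + 1 with hm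
    have hm0 : (0 : ℝ) < m := by exact_mod_cast (by omega : 0 < m)
    have hlm1 : (i : ℝ) / 2 ≤ Real.log m := by
      have h7 : Real.log ((2 : ℝ) ^ i) ≤ Real.log m := by
        apply Real.log_le_log (by positivity)
        exact_mod_cast (by omega : 2 ^ i ≤ m)
      rw [Real.log_pow] at h7
      nlinarith
    have hlm2 : Real.log m ≤ i := by
      have h7 : Real.log m ≤ Real.log ((2 : ℝ) ^ (i + 1)) := by
        apply Real.log_le_log hm0
        exact_mod_cast (by omega : m ≤ 2 ^ (i + 1))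
      rw [Real.log_pow] at h7
      push_cast at h7
      nlinarith
    have hlm0 : 0 < Real.log m := by linarith
    refine (dn_le z m).trans (div_le_div₀ ?_ ?_ (by positivity) hlm1)
    · positivity
    · refine (hW (z m)).trans ?_
      have h8 : Real.log (z m) ≤ K * Real.log i := by
        rcases Nat.eq_zero_or_pos (z m) with h6 | h6
        · rw [h6, Nat.cast_zero, Real.log_zero]
          positivity
        · have h9 : (0 : ℝ) < z m := by exact_mod_cast h6
          have h10 := Real.log_le_log h9 (hn0 m (by omega))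
          rw [Real.log_rpow hlm0] at h10
          have h11 := Real.log_le_log hlm0 hlm2
          exact h10.trans (mul_le_mul_of_nonneg_left h11 hK.le)
      have h9 := mul_le_mul_of_nonneg_left h8 hC₂.le
      linarith
  refine (Finset.sum_le_sum hd).trans ?_
  rw [Finset.sum_const, Finset.card_range, nsmul_eq_mul]
  have h4 : 0 ≤ (C₁ + K * C₂ * Real.log i) / (i / 2) := by positivity
  refine (mul_le_mul_of_nonneg_right hy2 h4).trans ?_
  have h5 : (i : ℝ) ^ (2 - ε) = i * ((i : ℝ) ^ (1 - ε / 2) / (i : ℝ) ^ (ε / 2)) := by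
    rw [← Real.rpow_sub hi]
    nth_rewrite 2 [← Real.rpow_one (i : ℝ)]
    rw [← Real.rpow_add hi]
    congr 1
    ring
  have h6 : 0 < (i : ℝ) ^ (ε / 2) := by positivity
  have h7 : (2 * C₁ + 2 * K * C₂ * Real.log i) ≤ (i : ℝ) ^ (ε / 2) := by
    have h8 : 2 * K * C₂ * Real.log i ≤ 2 * K * C₂ * (1 / (4 * K * C₂) * (i : ℝ) ^ (ε / 2)) := by gcongr
    have h9 : 2 * K * C₂ * (1 / (4 * K * C₂) * (i : ℝ) ^ (ε / 2)) = (i : ℝ) ^ (ε / 2) / 2 := by
      field_simp
      norm_num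
    linarith
  have h8 : 0 < (i : ℝ) ^ (1 - ε / 2) := by positivity
  rw [h5]
  have e : i * ((i : ℝ) ^ (1 - ε / 2) / (i : ℝ) ^ (ε / 2)) * ((C₁ + K * C₂ * Real.log i) / (i / 2)) =
      (i : ℝ) ^ (1 - ε / 2) * ((2 * C₁ + 2 * K * C₂ * Real.log i) / (i : ℝ) ^ (ε / 2)) := by
    field_simp
  rw [e]
  have h9 : (2 * C₁ + 2 * K * C₂ * Real.log i) / (i : ℝ) ^ (ε / 2) ≤ 1 := by
    rw [div_le_one h6]
    exact h7
  nlinarith

end Pool.Agent.D0H60.RMG
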