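import Mathlib
import Pool.Agent.D0H60.RMG.Det1

set_option autoImplicit false
set_option linter.unusedSectionVars false

/-!
# Sums of the densities over windows, sharp lower bound for a slowly growing sieve (project RMG)
-/

open Filter Finset
open scoped Topology

namespace Pool.Agent.D0H60.RMG

theorem class_prog {p : ℕ} (hp : p.Prime) {Q : ℕ} (hQ : ¬ p ∣ Q) (m : ℕ)
    (inst : DecidablePred (fun a => p ∣ m + a * Q)) :
    (@Finset.filter ℕ (fun a => p ∣ m + a * Q) inst (range p)).card = 1 := by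
  have := Fact.mk hp
  rw [card_eq_one]
  have hQ0 : (Q : ZMod p) ≠ 0 := fun h => hQ ((ZMod.natCast_eq_zero_iff _ _).1 h)
  refine ⟨(-(m : ZMod p) * (Q : ZMod p)⁻¹).val, ?_⟩
  ext a
  simp only [mem_filter, mem_range, mem_singleton]
  constructor
  · rintro ⟨h1, h2⟩
    have h3 : ((m + a * Q : ℕ) : ZMod p) = 0 := (ZMod.natCast_eq_zero_iff _ _).2 h2
    push_cast at h3
    have h4 : (a : ZMod p) = -(m : ZMod p) * (Q : ZMod p)⁻¹ := by
      field_simp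
      linear_combination h3
    rw [← h4, ZMod.val_natCast_of_lt h1]
  · rintro rfl
    refine ⟨ZMod.val_lt _, ?_⟩
    rw [← ZMod.natCast_eq_zero_iff]
    push_cast
    rw [ZMod.natCast_zmod_val]
    field_simp
    ring

open Classical in
/-- the fundamental lemma on a progression -/
theorem fl_prog : ∃ C0 K0 : ℕ, 1 ≤ C0 ∧ 1 ≤ K0 ∧ ∀ b : ℕ, C0 ≤ b → ∀ z : ℕ, 3 ≤ z →
    ∀ P : Finset ℕ, (∀ p ∈ P, p.Prime ∧ p ≤ z) → ∀ Q : ℕ, (∀ p ∈ P, ¬ p ∣ Q) → ∀ m L : ℕ,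
    |(((Icc 1 L).filter (fun k => ∀ p ∈ P, ¬ p ∣ m + k * Q)).card : ℝ) -
        L * ∏ p ∈ P, (1 - 1 / (p : ℝ))| ≤
      (1 / 2 : ℝ) ^ b * (L * ∏ p ∈ P, (1 - 1 / (p : ℝ))) + 2 * K0 * (z : ℝ) ^ (4 * C0 * b + 1) := by
  obtain ⟨C0, K0, hC0, hK0, H⟩ := Pool.Agent.TH892.SW.fl_set 1
  refine ⟨C0, K0, hC0, hK0, fun b hb z hz P hP Q hQ m L => ?_⟩
  have h := H b hb z (by omega) L P (fun p a => p ∣ m + a * Q) (fun p hp => by
    refine ⟨(hP p hp).1, (hP p hp).2, ?_⟩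
    rw [class_prog (hP p hp).1 (hQ p hp) m])
  have e1 : ∀ inst : ∀ p, DecidablePred (fun a => p ∣ m + a * Q),
      ∏ p ∈ P, (1 - ((@Finset.filter ℕ (fun a => p ∣ m + a * Q) (inst p) (range p)).card : ℝ) / p) =
      ∏ p ∈ P, (1 - 1 / (p : ℝ)) := by
    intro inst
    refine prod_congr rfl fun p hp => ?_
    rw [class_prog (hP p hp).1 (hQ p hp) m, Nat.cast_one]
  have e2 : ∀ inst : DecidablePred (fun n => ∀ p ∈ P, ¬ p ∣ m + n % p * Q),
      (@Finset.filter ℕ (fun n => ∀ p ∈ P, ¬ p ∣ m + n % p * Q) inst (Icc 1 L)).card =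
      ((Icc 1 L).filter (fun k => ∀ p ∈ P, ¬ p ∣ m + k * Q)).card := by
    intro inst
    congr 1
    refine (filter_congr fun n _ => ?_)
    refine forall₂_congr fun p _ => not_congr ?_
    have h1 : m + n % p * Q ≡ m + n * Q [MOD p] :=
      Nat.ModEq.add_left m ((Nat.mod_modEq n p).mul_right Q)
    exact h1.dvd_iff dvd_rfl
  rw [e1 fun p a => Classical.propDecidable (p ∣ m + a * Q), e2] at h
  refine h.trans ?_
  have h1 : (Pool.Agent.W41.JJ z : ℝ) + 2 ≤ 2 * z := by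
    exact_mod_cast Pool.Agent.W41.JJ_small z hz
  have h2 : ((Pool.Agent.W41.JJ z : ℝ) + 2) *
      ((z : ℝ) ^ (2 * (C0 * b)) * (K0 * (z : ℝ) ^ (2 * (C0 * b)))) ≤
      2 * K0 * (z : ℝ) ^ (4 * C0 * b + 1) := by
    have e : 2 * K0 * (z : ℝ) ^ (4 * C0 * b + 1) = (2 * z) *
        ((z : ℝ) ^ (2 * (C0 * b)) * (K0 * (z : ℝ) ^ (2 * (C0 * b)))) := by
      have : 4 * C0 * b + 1 = 2 * (C0 * b) + 2 * (C0 * b) + 1 := by ring
      rw [this, pow_add, pow_add, pow_one]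
      ring
    rw [e]
    exact mul_le_mul_of_nonneg_right h1 (by positivity)
  linarith

/-- the primes up to `x` -/
def pm (x : ℕ) : Finset ℕ := (Icc 1 x).filter Nat.Prime

lemma mem_pm {x p : ℕ} : p ∈ pm x ↔ p.Prime ∧ p ≤ x := by
  unfold pm
  rw [mem_filter, mem_Icc]
  exact ⟨fun h => ⟨h.2, h.1.2⟩, fun h => ⟨⟨h.1.one_lt.le, h.2⟩, h.1⟩⟩

lemma W_prod (x : ℕ) : W x * ∏ p ∈ pm x, (1 - 1 / (p : ℝ)) = 1 := by
  unfold W pm
  rw [← prod_mul_distrib]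
  refine prod_eq_one fun p hp => ?_
  have hp1 : (1 : ℝ) < p := by exact_mod_cast (mem_filter.1 hp).2.one_lt
  have h1 : (p : ℝ)⁻¹ < 1 := inv_lt_one_of_one_lt₀ hp1
  rw [one_div]
  exact inv_mul_cancel₀ (by linarith)

/-- the error term of the fundamental lemma -/
lemma err_bound (C0 K0 b : ℕ) : ∃ K : ℝ, 0 < K ∧ ∀ x : ℕ,
    W x * (2 * K0 * ((max x 3 : ℕ) : ℝ) ^ (4 * C0 * b + 1)) ≤
      K * ((max x 3 : ℕ) : ℝ) ^ (4 * C0 * b + 2) := by
  obtain ⟨C₁, C₂, hC₁, hC₂, hW⟩ := W_bound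
  refine ⟨(C₁ + C₂) * (2 * K0 + 1), by positivity, fun x => ?_⟩
  have hx3 : (3 : ℝ) ≤ ((max x 3 : ℕ) : ℝ) := by exact_mod_cast le_max_right x 3
  have h1 : W x ≤ (C₁ + C₂) * ((max x 3 : ℕ) : ℝ) := by
    have h2 := hW x
    have h3 : Real.log x ≤ ((max x 3 : ℕ) : ℝ) := by
      have h4 : Real.log x ≤ x := by
        rcases Nat.eq_zero_or_pos x with h5 | h5
        · rw [h5]; simp
        · have : (0 : ℝ) < x := by exact_mod_cast h5
          have := Real.log_le_sub_one_of_pos this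
          linarith
      have h5 : (x : ℝ) ≤ ((max x 3 : ℕ) : ℝ) := by exact_mod_cast le_max_left x 3
      linarith
    nlinarith
  have h2 : (0 : ℝ) ≤ 2 * K0 * ((max x 3 : ℕ) : ℝ) ^ (4 * C0 * b + 1) := by positivity
  refine (mul_le_mul_of_nonneg_right h1 h2).trans ?_
  have h3 : (0 : ℝ) ≤ ((max x 3 : ℕ) : ℝ) ^ (4 * C0 * b + 2) := by positivity
  have e : (C₁ + C₂) * ((max x 3 : ℕ) : ℝ) * (2 * K0 * ((max x 3 : ℕ) : ℝ) ^ (4 * C0 * b + 1)) =
      (C₁ + C₂) * (2 * K0) * ((max x 3 : ℕ) : ℝ) ^ (4 * C0 * b + 2) := by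
    rw [show 4 * C0 * b + 2 = (4 * C0 * b + 1) + 1 by ring, pow_succ]
    ring
  rw [e]
  have h4 : 0 ≤ (C₁ + C₂) * ((max x 3 : ℕ) : ℝ) ^ (4 * C0 * b + 2) := by positivity
  nlinarith

/-- lower bound for the sum over a block where the sieve is constant -/
theorem blk : ∃ C0 : ℕ, ∀ b : ℕ, C0 ≤ b → ∃ K : ℝ, 0 < K ∧ ∃ e : ℕ, ∀ (z : ℕ → ℕ) (t L z₀ : ℕ),
    (∀ m, t < m → m ≤ t + L → z m = z₀) → ∀ Λ : ℝ, 0 < Λ →
    (∀ m, t < m → m ≤ t + L → Real.log m ≤ Λ) → 1 ≤ t →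
    (L * (1 - (1 / 2 : ℝ) ^ b) - K * ((max z₀ 3 : ℕ) : ℝ) ^ e) / Λ ≤
      ∑ j ∈ range L, dn z (t + j + 1) := by
  classical
  obtain ⟨C0, K0, hC0, hK0, H⟩ := fl_prog
  refine ⟨C0, fun b hb => ?_⟩
  obtain ⟨K, hK, hE⟩ := err_bound C0 K0 b
  refine ⟨K, hK, 4 * C0 * b + 2, fun z t L z₀ hz Λ hΛ hlog ht => ?_⟩
  have h1 := H b hb (max z₀ 3) (le_max_right _ _) (pm z₀) (fun p hp => by
    rw [mem_pm] at hp
    exact ⟨hp.1, hp.2.trans (le_max_left _ _)⟩) 1 (fun p hp h => by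
    rw [mem_pm] at hp
    exact hp.1.one_lt.ne' (Nat.dvd_one.1 h)) t L
  rw [sum_shift]
  set F := (Icc 1 L).filter (fun k => ∀ p ∈ pm z₀, ¬ p ∣ t + k * 1) with hF
  have h2 : ∑ h ∈ F, (W z₀ / Λ) ≤ ∑ h ∈ Icc 1 L, dn z (t + h) := by
    refine (sum_le_sum ?_).trans
      (sum_le_sum_of_subset_of_nonneg (filter_subset _ _) fun h _ _ => dn_nonneg z _)
    intro h hh
    obtain ⟨g1, g2⟩ := mem_filter.1 hh
    obtain ⟨g3, g4⟩ := mem_Icc.1 g1
    have hzh : z (t + h) = z₀ := hz (t + h) (by omega) (by omega)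
    have hr : Rough z (t + h) := by
      intro q hq hqz hd
      rw [hzh] at hqz
      refine g2 q (mem_pm.2 ⟨hq, hqz⟩) ?_
      rwa [mul_one]
    unfold dn
    rw [if_pos hr, hzh]
    have h6 := hlog (t + h) (by omega) (by omega)
    have h7 : 0 < Real.log ((t + h : ℕ) : ℝ) := Real.log_pos (by exact_mod_cast (by omega : 1 < t + h))
    exact div_le_div_of_nonneg_left (W_pos _).le h7 h6
  rw [sum_const, nsmul_eq_mul] at h2
  refine le_trans ?_ h2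
  rw [← mul_div_assoc]
  apply div_le_div_of_nonneg_right _ hΛ.le
  have h3 := (abs_le.1 h1).1
  have h4 := hE z₀
  have h5 := W_prod z₀
  have hW := W_pos z₀
  set V := ∏ p ∈ pm z₀, (1 - 1 / (p : ℝ)) with hV
  have h6 : (L : ℝ) * V - ((1 / 2 : ℝ) ^ b * (L * V) +
      2 * K0 * ((max z₀ 3 : ℕ) : ℝ) ^ (4 * C0 * b + 1)) ≤ (F.card : ℝ) := by linarith
  have h7 := mul_le_mul_of_nonneg_left h6 hW.le
  have e1 : W z₀ * ((L : ℝ) * V - ((1 / 2 : ℝ) ^ b * (L * V) +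
      2 * K0 * ((max z₀ 3 : ℕ) : ℝ) ^ (4 * C0 * b + 1))) =
      (W z₀ * V) * L * (1 - (1 / 2 : ℝ) ^ b) -
        W z₀ * (2 * K0 * ((max z₀ 3 : ℕ) : ℝ) ^ (4 * C0 * b + 1)) := by ring
  rw [e1, h5] at h7
  linarith

/-- all windows of length `(1 + κ) (log x) ^ 2` have expected numbers larger than `log x`, if the sieve
is at most `(log n) ^ o(1)` and monotone -/
theorem low_sharp (z : ℕ → ℕ) (hmono : Monotone z)
    (hz : ∀ ε : ℝ, 0 < ε → ∀ᶠ n : ℕ in atTop, (z n : ℝ) ≤ Real.log n ^ ε)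
    (κ : ℝ) (hκ : 0 < κ) (hκ1 : κ ≤ 1) : ∀ᶠ i : ℕ in atTop, ∀ t, 2 ^ i ≤ t → t < 2 ^ (i + 1) →
      (1 + κ / 4) * (i * Real.log 2) ≤
        ∑ j ∈ range ⌊(1 + κ) * (i * Real.log 2) ^ 2⌋₊, dn z (t + j + 1) := by
  obtain ⟨C0, HB⟩ := blk
  set δ : ℝ := κ / 32 with hδ
  have hδ0 : 0 < δ := by positivity
  obtain ⟨b0, hb0⟩ := exists_pow_lt_of_lt_one hδ0 (show (1 / 2 : ℝ) < 1 by norm_num)
  set b : ℕ := max C0 b0 with hb
  have hbδ : (1 / 2 : ℝ) ^ b ≤ δ :=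
    (pow_le_pow_of_le_one (by norm_num) (by norm_num) (le_max_right _ _)).trans hb0.le
  obtain ⟨K, hK, e, H⟩ := HB b (le_max_left _ _)
  set ε' : ℝ := 1 / (2 * ((e : ℝ) + 1)) with hε'
  have hε'0 : 0 < ε' := by positivity
  obtain ⟨n0, hn0⟩ := eventually_atTop.1 (hz ε' hε'0)
  have hl1 : 69 / 100 < Real.log 2 := by
    have := Real.log_two_gt_d9
    linarith
  have hl2 : Real.log 2 < 7 / 10 := by
    have := Real.log_two_lt_d9
    linarith
  set ℓ : ℝ := Real.log 2 with hℓ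
  have e1 := pow_large ε' 3 hε'0
  have e2 := pow_large (1 / 2) (K / δ) (by norm_num)
  have e3 := pow_large (1 / 2) (1 / δ) (by norm_num)
  have e4 := pow_large 1 (200 / κ + n0 + 10) one_pos
  have e5 : ∀ᶠ i : ℕ in atTop, (i : ℝ) ^ (3 : ℝ) ≤ 2 ^ i := by
    have h1 : Tendsto (fun x : ℝ => x ^ (3 : ℝ) * Real.exp (-ℓ * x)) atTop (𝓝 0) :=
      tendsto_rpow_mul_exp_neg_mul_atTop_nhds_zero _ _ (by linarith)
    have h2 := (h1.comp tendsto_natCast_atTop_atTop).eventually (ge_mem_nhds one_pos)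
    filter_upwards [h2] with i h3
    simp only [Function.comp] at h3
    have e : Real.exp (-ℓ * i) = (2 ^ i : ℝ)⁻¹ := by
      rw [neg_mul, Real.exp_neg, Real.exp_mul, hℓ, Real.exp_log (by norm_num), Real.rpow_natCast]
    rw [e, ← div_eq_mul_inv, div_le_one (by positivity)] at h3
    exact h3
  filter_upwards [e1, e2, e3, e4, e5] with i h1 h2 h3 h4 h5 t ht1 ht2
  rw [Real.rpow_one] at h4
  have hκ200 : 200 ≤ 200 / κ := by
    rw [le_div_iff₀ hκ]; linarith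
  have hn0' : (0 : ℝ) ≤ n0 := Nat.cast_nonneg _
  have hi200 : (200 : ℝ) ≤ i := by linarith
  have hi : (0 : ℝ) < i := by linarith
  have hiκ : 200 ≤ κ * i := by
    have : 200 / κ ≤ i := by linarith
    rw [div_le_iff₀ hκ] at this
    linarith
  have hni : n0 ≤ i := by
    have : (n0 : ℝ) ≤ i := by
      have : 0 < 200 / κ := by positivity
      linarith
    exact_mod_cast this
  have hi1 : 1 ≤ i := by
    have : (1 : ℝ) ≤ i := by linarith
    exact_mod_cast this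
  have hp : i < 2 ^ i := Nat.lt_two_pow_self
  set Yr : ℝ := (1 + κ) * (i * ℓ) ^ 2 with hYr
  set y : ℕ := ⌊Yr⌋₊ with hy
  have hYr0 : 0 ≤ Yr := by positivity
  have hyle : (y : ℝ) ≤ Yr := Nat.floor_le hYr0
  have hylt : Yr < y + 1 := Nat.lt_floor_add_one Yr
  have hYi : Yr ≤ (i : ℝ) ^ (3 : ℝ) := by
    have e : (i : ℝ) ^ (3 : ℝ) = (i : ℝ) ^ 2 * i := by
      rw [show (3 : ℝ) = ((3 : ℕ) : ℝ) by norm_num, Real.rpow_natCast]; ring
    rw [e, hYr, mul_pow]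
    have : ℓ ^ 2 ≤ 1 := pow_le_one₀ (by linarith) (by linarith)
    have h7 : (i : ℝ) ^ 2 * ℓ ^ 2 ≤ (i : ℝ) ^ 2 * 1 := mul_le_mul_of_nonneg_left this (by positivity)
    have h9 : 0 ≤ (i : ℝ) ^ 2 * ℓ ^ 2 := by positivity
    calc (1 + κ) * ((i : ℝ) ^ 2 * ℓ ^ 2) ≤ i * ((i : ℝ) ^ 2 * 1) := mul_le_mul (by linarith) h7 h9 hi.le
      _ = (i : ℝ) ^ 2 * i := by ring
  have hyi : y ≤ 2 ^ i := by
    have : (y : ℝ) ≤ ((2 ^ i : ℕ) : ℝ) := by push_cast; linarith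
    exact_mod_cast this
  have e2i : 2 ^ (i + 2) = 4 * 2 ^ i := by ring
  have e1i : 2 ^ (i + 1) = 2 * 2 ^ i := by ring
  -- all positions are at most 2 ^ (i + 2)
  have hz2 : ∀ m, 2 ^ i ≤ m → m ≤ 2 ^ (i + 2) → (z m : ℝ) ≤ (i : ℝ) ^ ε' := by
    intro m hm1 hm2
    have h7 := hn0 m (by omega)
    have hm0 : (0 : ℝ) ≤ Real.log m := Real.log_natCast_nonneg m
    refine h7.trans (Real.rpow_le_rpow hm0 ?_ hε'0.le)
    have hm3 : (0 : ℝ) < m := by exact_mod_cast (by omega : 0 < m)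
    have h8 : Real.log m ≤ Real.log ((2 : ℝ) ^ (i + 2)) := by
      apply Real.log_le_log hm3
      exact_mod_cast hm2
    rw [Real.log_pow] at h8
    push_cast at h8
    have h9 : ((i : ℝ) + 2) * ℓ ≤ (i + 2) * (7 / 10) := mul_le_mul_of_nonneg_left hl2.le (by linarith)
    linarith
  have hlogm : ∀ m : ℕ, 2 ^ i ≤ m → m ≤ 2 ^ (i + 2) → Real.log m ≤ (i + 2) * ℓ := by
    intro m hm1 hm2
    have hm3 : (0 : ℝ) < m := by exact_mod_cast (by omega : 0 < m)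
    have h8 : Real.log m ≤ Real.log ((2 : ℝ) ^ (i + 2)) := by
      apply Real.log_le_log hm3
      exact_mod_cast hm2
    rw [Real.log_pow] at h8
    push_cast at h8
    exact h8
  -- the value of a block
  set s : ℝ := i * (1 - 2 * δ) / ((i + 2) * ℓ) with hs
  have hΛ : 0 < ((i : ℝ) + 2) * ℓ := by positivity
  have hs0 : 0 ≤ s := by
    rw [hs]
    apply div_nonneg _ hΛ.le
    apply mul_nonneg hi.le
    rw [hδ]; linarith
  have hpow : ((i : ℝ) ^ ε') ^ e ≤ (i : ℝ) ^ (1 / 2 : ℝ) := by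
    rw [← Real.rpow_natCast, ← Real.rpow_mul hi.le]
    apply Real.rpow_le_rpow_of_exponent_le (by linarith)
    rw [hε', div_mul_eq_mul_div, one_mul, div_le_div_iff₀ (by positivity) (by norm_num)]
    linarith
  have hsq : (i : ℝ) ^ (1 / 2 : ℝ) * (i : ℝ) ^ (1 / 2 : ℝ) = i := by
    rw [← Real.rpow_add hi]
    norm_num
  have hhalf0 : 0 < (i : ℝ) ^ (1 / 2 : ℝ) := by positivity
  have hblock : ∀ a, 2 ^ i ≤ a → a + i ≤ 2 ^ (i + 2) → z a = z (a + i) →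
      s ≤ ∑ j ∈ range i, dn z (a + j + 1) := by
    intro a ha1 ha2 ha3
    have h7 := H z a i (z a) (fun m hm1 hm2 => by
      have g1 := hmono hm1.le
      have g2 := hmono hm2
      omega) ((i + 2) * ℓ) hΛ (fun m hm1 hm2 => hlogm m (by omega) (by omega)) (by omega)
    refine le_trans ?_ h7
    rw [hs]
    apply div_le_div_of_nonneg_right _ hΛ.le
    have h8 : ((max (z a) 3 : ℕ) : ℝ) ≤ (i : ℝ) ^ ε' := by
      rw [Nat.cast_max]
      exact max_le (hz2 a ha1 (by omega)) (by exact_mod_cast h1)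
    have h9 : ((max (z a) 3 : ℕ) : ℝ) ^ e ≤ (i : ℝ) ^ (1 / 2 : ℝ) :=
      (pow_le_pow_left₀ (by positivity) h8 e).trans hpow
    have h10 : K ≤ δ * (i : ℝ) ^ (1 / 2 : ℝ) := by
      rw [div_le_iff₀ hδ0] at h2
      linarith
    have h11 : K * ((max (z a) 3 : ℕ) : ℝ) ^ e ≤ δ * i := by
      calc K * ((max (z a) 3 : ℕ) : ℝ) ^ e ≤ (δ * (i : ℝ) ^ (1 / 2 : ℝ)) * (i : ℝ) ^ (1 / 2 : ℝ) :=
            mul_le_mul h10 h9 (by positivity) (by positivity)
        _ = δ * i := by rw [mul_assoc, hsq]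
    have h12 : (i : ℝ) * (1 / 2 : ℝ) ^ b ≤ i * δ := mul_le_mul_of_nonneg_left hbδ hi.le
    linarith
  -- induction over the blocks
  have hind : ∀ q : ℕ, q * i ≤ 2 ^ i →
      ((q : ℝ) - (z (t + q * i) - z t)) * s ≤ ∑ j ∈ range (q * i), dn z (t + j + 1) := by
    intro q
    induction q with
    | zero => intro _; simp
    | succ q ih =>
      intro hq
      have hq' : q * i + i ≤ 2 ^ i := by
        have : (q + 1) * i = q * i + i := by ring
        omega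
      have ih := ih (by omega)
      have e3 : (q + 1) * i = q * i + i := by ring
      rw [e3, sum_range_add]
      have e4 : ∑ x ∈ range i, dn z (t + (q * i + x) + 1) = ∑ x ∈ range i, dn z (t + q * i + x + 1) := by
        refine sum_congr rfl fun x _ => ?_
        congr 1
        ring
      rw [e4, ← add_assoc]
      by_cases h7 : z (t + q * i) = z (t + q * i + i)
      · have h8 := hblock (t + q * i) (by omega) (by omega) h7
        rw [← h7]
        push_cast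
        linarith
      · have h8 : z (t + q * i) + 1 ≤ z (t + q * i + i) := by
          have := hmono (Nat.le_add_right (t + q * i) i)
          omega
        have h9 : (z (t + q * i) : ℝ) + 1 ≤ z (t + q * i + i) := by exact_mod_cast h8
        have h10 : 0 ≤ ∑ x ∈ range i, dn z (t + q * i + x + 1) :=
          sum_nonneg fun x _ => dn_nonneg z _
        have h11 := mul_le_mul_of_nonneg_right h9 hs0
        have h12 : (((q + 1 : ℕ) : ℝ) - (z (t + q * i + i) - z t)) * s =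
            ((q : ℝ) - (z (t + q * i) - z t)) * s + (((z (t + q * i) : ℝ) + 1) * s - z (t + q * i + i) * s) := by
          push_cast
          ring
        rw [h12]
        linarith
  -- conclusion
  set q : ℕ := y / i with hq
  have hqi : q * i ≤ y := Nat.div_mul_le_self y i
  have hqy : (y : ℝ) < (q + 1) * i := by
    have : y < (q + 1) * i := by
      rw [hq, Nat.add_mul, one_mul]
      have := Nat.lt_div_mul_add (a := y) (b := i) (by omega)
      exact this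
    exact_mod_cast this
  have h7 := hind q (by omega)
  have h8 : ∑ j ∈ range (q * i), dn z (t + j + 1) ≤ ∑ j ∈ range y, dn z (t + j + 1) :=
    sum_le_sum_of_subset_of_nonneg (range_mono hqi) fun j _ _ => dn_nonneg z _
  refine le_trans ?_ (h7.trans h8)
  have h9 : (z (t + q * i) : ℝ) ≤ δ * i := by
    refine (hz2 _ (by omega) (by omega)).trans ?_
    have h10 : (i : ℝ) ^ ε' ≤ (i : ℝ) ^ (1 / 2 : ℝ) := by
      apply Real.rpow_le_rpow_of_exponent_le (by linarith)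
      rw [hε', div_le_div_iff₀ (by positivity) (by norm_num)]
      have : (0 : ℝ) ≤ e := Nat.cast_nonneg e
      linarith
    refine h10.trans ?_
    have h11 : 1 ≤ δ * (i : ℝ) ^ (1 / 2 : ℝ) := by
      rw [div_le_iff₀ hδ0] at h3
      linarith
    calc (i : ℝ) ^ (1 / 2 : ℝ) = 1 * (i : ℝ) ^ (1 / 2 : ℝ) := (one_mul _).symm
      _ ≤ (δ * (i : ℝ) ^ (1 / 2 : ℝ)) * (i : ℝ) ^ (1 / 2 : ℝ) :=
          mul_le_mul_of_nonneg_right h11 hhalf0.le
      _ = δ * i := by rw [mul_assoc, hsq]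
  have h10 : (0 : ℝ) ≤ z t := Nat.cast_nonneg _
  -- the number of blocks
  have h11 : (1 + κ) * ℓ ^ 2 * i - 2 ≤ q := by
    have h12 : (1 + κ) * (i * ℓ) ^ 2 < (q + 1) * i + 1 := by linarith
    have h13 : (1 + κ) * ℓ ^ 2 * i * i = (1 + κ) * (i * ℓ) ^ 2 := by ring
    by_contra hcon
    push Not at hcon
    have h15 := mul_lt_mul_of_pos_right (by linarith : (q : ℝ) + 1 < (1 + κ) * ℓ ^ 2 * i - 1) hi
    linarith
  have hℓ2 : 47 / 100 ≤ ℓ ^ 2 :=
    le_trans (by norm_num) (pow_le_pow_left₀ (by norm_num) hl1.le 2)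
  have h12 : (1 + 3 * κ / 4) * ℓ ^ 2 * i ≤ (q : ℝ) - (z (t + q * i) - z t) := by
    have h13 : (1 + κ) * ℓ ^ 2 * i - 2 - δ * i ≤ (q : ℝ) - (z (t + q * i) - z t) := by linarith
    refine le_trans ?_ h13
    have h14 : 47 / 100 * (κ * i) ≤ ℓ ^ 2 * (κ * i) := mul_le_mul_of_nonneg_right hℓ2 (by positivity)
    have e1 : (1 + 3 * κ / 4) * ℓ ^ 2 * i = (1 + κ) * ℓ ^ 2 * i - ℓ ^ 2 * (κ * i) / 4 := by ring
    have e2 : δ * i = κ * i / 32 := by rw [hδ]; ring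
    rw [e1, e2]
    linarith
  refine le_trans ?_ (mul_le_mul_of_nonneg_right h12 hs0)
  rw [hs]
  have h13 : (1 - κ / 8) * ((i + 2) * ℓ) ≤ (i * (1 - 2 * δ)) * ℓ := by
    have : (1 - κ / 8) * ((i : ℝ) + 2) ≤ i * (1 - 2 * δ) := by
      have e1 : (1 - κ / 8) * ((i : ℝ) + 2) = i + 2 - κ * i / 8 - κ / 4 := by ring
      have e2 : (i : ℝ) * (1 - 2 * δ) = i - κ * i / 16 := by rw [hδ]; ring
      rw [e1, e2]
      linarith
    have h14 := mul_le_mul_of_nonneg_right this (by linarith : 0 ≤ ℓ)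
    linarith
  have h14 : (1 - κ / 8) / ℓ ≤ i * (1 - 2 * δ) / ((i + 2) * ℓ) := by
    rw [div_le_div_iff₀ (by positivity) hΛ]
    exact h13
  have h15 : 0 ≤ (1 + 3 * κ / 4) * ℓ ^ 2 * i := by positivity
  refine le_trans ?_ (mul_le_mul_of_nonneg_left h14 h15)
  have h16 : (1 + 3 * κ / 4) * ℓ ^ 2 * i * ((1 - κ / 8) / ℓ) =
      ((1 + 3 * κ / 4) * (1 - κ / 8)) * (i * ℓ) := by
    field_simp
  rw [h16]
  apply mul_le_mul_of_nonneg_right _ (by positivity)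
  have h17 : κ ^ 2 ≤ κ := pow_le_of_le_one hκ.le hκ1 two_ne_zero
  have h18 : (1 + 3 * κ / 4) * (1 - κ / 8) = 1 + 5 * κ / 8 - 3 * κ ^ 2 / 32 := by ring
  rw [h18]
  linarith

end Pool.Agent.D0H60.RMG
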