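import Mathlib
import Pool.Agent.D0H60.RMG.Blk
import Pool.Agent.N610.MS.Stm

set_option autoImplicit false
set_option linter.unusedSectionVars false

/-!
# The average of the expected numbers over windows which start at the multiples of `Q` (project RMG)
-/

open Filter Finset
open scoped Topology

namespace Pool.Agent.D0H60.RMG

open Pool.Agent.N610.MS (V)

lemma fac_pos {P : Finset ℕ} (hP : ∀ p ∈ P, p.Prime) : 0 < ∏ p ∈ P, (1 - 1 / (p : ℝ)) ∧
    ∏ p ∈ P, (1 - 1 / (p : ℝ)) ≤ 1 := by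
  have h : ∀ p ∈ P, 0 < 1 - 1 / (p : ℝ) ∧ 1 - 1 / (p : ℝ) ≤ 1 := by
    intro p hp
    have hp1 : (1 : ℝ) < p := by exact_mod_cast (hP p hp).one_lt
    have h1 : 1 / (p : ℝ) < 1 := by
      rw [div_lt_one (by linarith)]
      exact hp1
    have h2 : 0 < 1 / (p : ℝ) := by positivity
    constructor <;> linarith
  exact ⟨prod_pos fun p hp => (h p hp).1, prod_le_one (fun p hp => (h p hp).1.le) fun p hp => (h p hp).2⟩

/-- the average over the windows -/
theorem win_avg : ∃ C0 : ℕ, ∀ b : ℕ, C0 ≤ b → ∃ K : ℝ, 0 < K ∧ ∃ e : ℕ,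
    ∀ (z : ℕ → ℕ) (P : Finset ℕ), (∀ p ∈ P, p.Prime) → ∀ N M y z₀ : ℕ, (∏ p ∈ P, p) ∣ N →
    (∀ p ∈ P, p ≤ z₀) → (∀ m, N < m → m ≤ N + M * (∏ p ∈ P, p) + y → z m = z₀) →
    ∀ Λ : ℝ, 0 < Λ → (∀ m : ℕ, N < m → Λ ≤ Real.log m) → 2 ≤ N → ∀ θ : ℝ, 0 ≤ θ →
    (V P y : ℝ) ≤ θ * (y * ∏ p ∈ P, (1 - 1 / (p : ℝ))) →
    ∑ j ∈ range M, ∑ a ∈ range y, dn z (N + j * (∏ p ∈ P, p) + a + 1) ≤
      θ * (y / Λ) * (M * (1 + (1 / 2 : ℝ) ^ b) + K * ((max z₀ 3 : ℕ) : ℝ) ^ e) := by
  classical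
  obtain ⟨C0, K0, hC0, hK0, H⟩ := fl_prog
  refine ⟨C0, fun b hb => ?_⟩
  obtain ⟨K, hK, hE⟩ := err_bound C0 K0 b
  refine ⟨K, hK, 4 * C0 * b + 2, ?_⟩
  intro z P hP N M y z₀ hQN hPz hz Λ hΛ hlog hN θ hθ hV
  set Q := ∏ p ∈ P, p with hQ
  have hQle : Q ≤ N := Nat.le_of_dvd (by omega) hQN
  set P' : Finset ℕ := (pm z₀).filter (fun p => p ∉ P) with hP'
  have hPsub : P ⊆ pm z₀ := fun p hp => mem_pm.2 ⟨hP p hp, hPz p hp⟩
  have hP'p : ∀ p ∈ P', p.Prime ∧ p ≤ z₀ ∧ p ∉ P := by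
    intro p hp
    obtain ⟨h1, h2⟩ := mem_filter.1 hp
    obtain ⟨h3, h4⟩ := mem_pm.1 h1
    exact ⟨h3, h4, h2⟩
  have hP'Q : ∀ p ∈ P', ¬ p ∣ Q := by
    intro p hp hd
    obtain ⟨h1, h2, h3⟩ := hP'p p hp
    rw [hQ, Prime.dvd_finsetProd_iff h1.prime] at hd
    obtain ⟨q, hq, hpq⟩ := hd
    have := (Nat.prime_dvd_prime_iff_eq h1 (hP q hq)).1 hpq
    rw [this] at h3
    exact h3 hq
  set Pe : ℝ := ∏ p ∈ P, (1 - 1 / (p : ℝ)) with hPe
  set Pe' : ℝ := ∏ p ∈ P', (1 - 1 / (p : ℝ)) with hPe'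
  obtain ⟨hPe0, hPe1⟩ := fac_pos hP
  obtain ⟨hPe'0, hPe'1⟩ := fac_pos (P := P') fun p hp => (hP'p p hp).1
  rw [← hPe] at hPe0 hPe1
  rw [← hPe'] at hPe'0 hPe'1
  have hPePe : Pe * Pe' = ∏ p ∈ pm z₀, (1 - 1 / (p : ℝ)) := by
    have h1 : (pm z₀).filter (fun p => p ∈ P) = P := by
      ext p
      rw [mem_filter]
      exact ⟨fun h => h.2, fun h => ⟨hPsub h, h⟩⟩
    rw [← prod_filter_mul_prod_filter_not (pm z₀) (fun p => p ∈ P), h1]
  have hW := W_prod z₀
  rw [← hPePe] at hW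
  have hW0 := W_pos z₀
  set E : ℝ := 2 * K0 * ((max z₀ 3 : ℕ) : ℝ) ^ (4 * C0 * b + 1) with hEd
  have hE0 : 0 ≤ E := by positivity
  set U : ℝ := W z₀ / Λ * (M * Pe' * (1 + (1 / 2 : ℝ) ^ b) + E) with hU
  have hU0 : 0 ≤ U := by positivity
  -- exchange the sums
  have h1 : ∀ a ∈ range y, ∑ j ∈ range M, dn z (N + j * Q + a + 1) ≤
      (if ∀ p ∈ P, ¬ p ∣ a + 1 then U else 0) := by
    intro a ha
    have ha := mem_range.1 ha
    have hj : ∀ j ∈ range M, dn z (N + j * Q + a + 1) ≤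
        (if (∀ p ∈ P, ¬ p ∣ a + 1) ∧ ∀ p ∈ P', ¬ p ∣ N + j * Q + a + 1 then W z₀ / Λ else 0) := by
      intro j hj
      have hj := mem_range.1 hj
      have hjQ : j * Q ≤ M * Q := Nat.mul_le_mul_right Q hj.le
      have hzm : z (N + j * Q + a + 1) = z₀ := hz _ (by omega) (by omega)
      split_ifs with h2
      · refine (dn_le z _).trans ?_
        rw [hzm]
        exact div_le_div_of_nonneg_left hW0.le hΛ (hlog _ (by omega))
      · apply le_of_eq
        unfold dn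
        rw [if_neg]
        intro h3
        apply h2
        refine ⟨fun p hp hd => ?_, fun p hp hd => ?_⟩
        · refine h3 p (hP p hp) (by rw [hzm]; exact hPz p hp) ?_
          have hpQ : p ∣ Q := dvd_prod_of_mem _ hp
          have h4 : N + j * Q + a + 1 = (N + j * Q) + (a + 1) := by ring
          rw [h4]
          exact dvd_add (dvd_add (hpQ.trans hQN) (hpQ.mul_left j)) hd
        · obtain ⟨g1, g2, -⟩ := hP'p p hp
          exact h3 p g1 (by rw [hzm]; exact g2) hd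
    refine (sum_le_sum hj).trans ?_
    rw [← sum_filter, sum_const, nsmul_eq_mul]
    by_cases h2 : ∀ p ∈ P, ¬ p ∣ a + 1
    · rw [if_pos h2]
      -- the number of `j`
      have h3 : ((range M).filter (fun j => (∀ p ∈ P, ¬ p ∣ a + 1) ∧ ∀ p ∈ P', ¬ p ∣ N + j * Q + a + 1)).card ≤
          ((Icc 1 M).filter (fun j => ∀ p ∈ P', ¬ p ∣ (N - Q + a + 1) + j * Q)).card := by
        refine card_le_card_of_injOn (fun j => j + 1) ?_ (fun a _ b _ h => Nat.succ_injective h)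
        intro j hj
        obtain ⟨g1, g2⟩ := mem_filter.1 (mem_coe.1 hj)
        have g1 := mem_range.1 g1
        rw [mem_coe, mem_filter, mem_Icc]
        refine ⟨⟨Nat.succ_pos j, g1⟩, fun p hp hd => g2.2 p hp ?_⟩
        simp only at hd
        have e : (N - Q + a + 1) + (j + 1) * Q = N + j * Q + a + 1 := by
          rw [add_mul, one_mul]
          omega
        rwa [e] at hd
      have h4 := H b hb (max z₀ 3) (le_max_right _ _) P' (fun p hp =>
        ⟨(hP'p p hp).1, (hP'p p hp).2.1.trans (le_max_left _ _)⟩) Q hP'Q (N - Q + a + 1) M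
      rw [← hPe', ← hEd] at h4
      have h5 := (abs_le.1 h4).2
      have h6 : (((range M).filter (fun j => (∀ p ∈ P, ¬ p ∣ a + 1) ∧
          ∀ p ∈ P', ¬ p ∣ N + j * Q + a + 1)).card : ℝ) ≤ M * Pe' * (1 + (1 / 2 : ℝ) ^ b) + E := by
        have h7 : (((range M).filter (fun j => (∀ p ∈ P, ¬ p ∣ a + 1) ∧
          ∀ p ∈ P', ¬ p ∣ N + j * Q + a + 1)).card : ℝ) ≤
          (((Icc 1 M).filter (fun j => ∀ p ∈ P', ¬ p ∣ (N - Q + a + 1) + j * Q)).card : ℝ) := by
          exact_mod_cast h3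
        linarith
      have h8 : 0 ≤ W z₀ / Λ := by positivity
      calc _ ≤ (M * Pe' * (1 + (1 / 2 : ℝ) ^ b) + E) * (W z₀ / Λ) := mul_le_mul_of_nonneg_right h6 h8
        _ = U := by rw [hU]; ring
    · rw [if_neg h2]
      apply le_of_eq
      have h3 : (range M).filter (fun j => (∀ p ∈ P, ¬ p ∣ a + 1) ∧ ∀ p ∈ P', ¬ p ∣ N + j * Q + a + 1) = ∅ := by
        apply filter_false_of_mem
        intro j _ h4
        exact h2 h4.1
      rw [h3, card_empty, Nat.cast_zero, zero_mul]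
  rw [sum_comm]
  refine (sum_le_sum h1).trans ?_
  rw [← sum_filter, sum_const, nsmul_eq_mul]
  have h2 : ((range y).filter (fun a => ∀ p ∈ P, ¬ p ∣ a + 1)).card ≤ V P y := by
    unfold V
    refine card_le_card_of_injOn (fun j => j + 1) ?_ (fun a _ b _ h => Nat.succ_injective h)
    intro j hj
    obtain ⟨g1, g2⟩ := mem_filter.1 (mem_coe.1 hj)
    have g1 := mem_range.1 g1
    rw [mem_coe, mem_filter, mem_Icc]
    exact ⟨⟨Nat.succ_pos j, g1⟩, g2⟩
  have h3 : (((range y).filter (fun a => ∀ p ∈ P, ¬ p ∣ a + 1)).card : ℝ) ≤ θ * (y * Pe) := by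
    have : (((range y).filter (fun a => ∀ p ∈ P, ¬ p ∣ a + 1)).card : ℝ) ≤ V P y := by exact_mod_cast h2
    exact this.trans hV
  refine (mul_le_mul_of_nonneg_right h3 hU0).trans ?_
  have h4 := hE z₀
  rw [← hEd] at h4
  have e1 : θ * (y * Pe) * U = θ * (y / Λ) * ((W z₀ * (Pe * Pe')) * (M * (1 + (1 / 2 : ℝ) ^ b)) +
      (W z₀ * E) * Pe) := by
    rw [hU]
    field_simp
  rw [e1, hW, one_mul]
  apply mul_le_mul_of_nonneg_left _ (by positivity)
  have h5 : 0 ≤ W z₀ * E := by positivity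
  have h6 : W z₀ * E * Pe ≤ W z₀ * E * 1 := mul_le_mul_of_nonneg_left hPe1 h5
  linarith

/-- many windows with at most about the average, in one residue class -/
theorem pick (M y : ℕ) (hy : 1 ≤ y) (f : ℕ → ℝ) (hf : ∀ j, 0 ≤ f j) (a κ : ℝ) (ha : 0 < a)
    (hκ : 0 < κ) (hκ1 : κ ≤ 1) (h : ∑ j ∈ range M, f j ≤ M * a) :
    ∃ c < y, ∃ Gd : Finset ℕ, (∀ k ∈ Gd, c + k * y < M) ∧ (∀ k ∈ Gd, f (c + k * y) ≤ (1 + κ) * a) ∧
      M * (κ / 2) ≤ y * Gd.card := by
  classical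
  set G : Finset ℕ := (range M).filter (fun j => f j ≤ (1 + κ) * a) with hG
  have h1 : M * (κ / 2) ≤ (G.card : ℝ) := by
    have h2 : ((range M).filter (fun j => ¬ f j ≤ (1 + κ) * a)).card * ((1 + κ) * a) ≤ M * a := by
      refine le_trans ?_ h
      rw [← nsmul_eq_mul, ← sum_const]
      refine (sum_le_sum fun j hj => ?_).trans
        (sum_le_sum_of_subset_of_nonneg (filter_subset _ (range M)) fun j _ _ => hf j)
      exact (not_le.1 (mem_filter.1 hj).2).le
    have h3 : (G.card : ℝ) + ((range M).filter (fun j => ¬ f j ≤ (1 + κ) * a)).card = M := by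
      have := card_filter_add_card_filter_not (s := range M) (fun j => f j ≤ (1 + κ) * a)
      rw [card_range] at this
      exact_mod_cast this
    set Bc : ℝ := (((range M).filter (fun j => ¬ f j ≤ (1 + κ) * a)).card : ℝ) with hB
    have h4 : Bc * (1 + κ) ≤ M := by
      have : Bc * (1 + κ) * a ≤ M * a := by linarith
      exact le_of_mul_le_mul_right this ha
    have h5 : (0 : ℝ) ≤ M := Nat.cast_nonneg M
    have h6 : (0 : ℝ) ≤ Bc := Nat.cast_nonneg _
    nlinarith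
  -- pigeonhole
  have h2 : ∃ c ∈ range y, (G.card : ℝ) ≤ y * ((G.filter (fun j => j % y = c)).card : ℝ) := by
    by_contra hcon
    push Not at hcon
    have h3 : G.card = ∑ c ∈ range y, (G.filter (fun j => j % y = c)).card :=
      card_eq_sum_card_fiberwise fun j _ => mem_coe.2 (mem_range.2 (Nat.mod_lt j (by omega)))
    have h4 : (y : ℝ) * G.card = ∑ c ∈ range y, y * ((G.filter (fun j => j % y = c)).card : ℝ) := by
      rw [← mul_sum]
      congr 1
      exact_mod_cast h3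
    have h5 : ∑ c ∈ range y, y * ((G.filter (fun j => j % y = c)).card : ℝ) < ∑ c ∈ range y, (G.card : ℝ) :=
      sum_lt_sum_of_nonempty ⟨0, mem_range.2 (by omega)⟩ fun c hc => hcon c hc
    rw [sum_const, card_range, nsmul_eq_mul] at h5
    linarith
  obtain ⟨c, hc, h3⟩ := h2
  have hc := mem_range.1 hc
  refine ⟨c, hc, (G.filter (fun j => j % y = c)).image (fun j => j / y), ?_, ?_, ?_⟩
  · intro k hk
    obtain ⟨j, hj, rfl⟩ := mem_image.1 hk
    obtain ⟨hj1, hj2⟩ := mem_filter.1 hj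
    have hj3 := mem_range.1 (mem_filter.1 hj1).1
    have e : c + j / y * y = j := by
      rw [← hj2]
      exact Nat.mod_add_div' j y
    rw [e]
    exact hj3
  · intro k hk
    obtain ⟨j, hj, rfl⟩ := mem_image.1 hk
    obtain ⟨hj1, hj2⟩ := mem_filter.1 hj
    have hj3 := (mem_filter.1 hj1).2
    have e : c + j / y * y = j := by
      rw [← hj2]
      exact Nat.mod_add_div' j y
    rw [e]
    exact hj3
  · rw [card_image_of_injOn]
    · linarith
    · intro j hj j' hj' h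
      have hj2 := (mem_filter.1 (mem_coe.1 hj)).2
      have hj2' := (mem_filter.1 (mem_coe.1 hj')).2
      simp only at h
      rw [← Nat.mod_add_div' j y, ← Nat.mod_add_div' j' y, hj2, hj2', h]

/-- a long interval on which a monotone sequence is constant -/
theorem const_run (z : ℕ → ℕ) (hz : Monotone z) (X S K : ℕ) (hK : z (X + K * S) < K) :
    ∃ k < K, z (X + k * S) = z (X + (k + 1) * S) := by
  by_contra hcon
  push Not at hcon
  have key : ∀ k ≤ K, k ≤ z (X + k * S) := by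
    intro k
    induction k with
    | zero => intro _; exact Nat.zero_le _
    | succ k ih =>
      intro hk
      have h1 := ih (by omega)
      have h2 := hcon k (by omega)
      have h3 : z (X + k * S) ≤ z (X + (k + 1) * S) := hz (by
        have : k * S ≤ (k + 1) * S := Nat.mul_le_mul_right S (by omega)
        omega)
      omega
  have := key K le_rfl
  omega

end Pool.Agent.D0H60.RMG
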