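import Mathlib
import Pool.Agent.D0H60.RMG.Win

set_option autoImplicit false
set_option linter.unusedSectionVars false

/-!
# Long gaps: the choice of the windows (project RMG)
-/

open Filter Finset
open scoped Topology

namespace Pool.Agent.D0H60.RMG

open Pool.Agent.N610.MS (V)

lemma two_rpow_large (a K : ℝ) (ha : 0 < a) : ∀ᶠ i : ℕ in atTop, K ≤ (2 : ℝ) ^ (a * i) := by
  have h1 : Tendsto (fun i : ℕ => (2 : ℝ) ^ (a * i)) atTop atTop := by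
    have h2 : Tendsto (fun x : ℝ => (2 : ℝ) ^ x) atTop atTop :=
      tendsto_rpow_atTop_of_base_gt_one (2 : ℝ) (by norm_num)
    exact h2.comp (tendsto_natCast_atTop_atTop.const_mul_atTop ha)
  exact h1.eventually_ge_atTop K

lemma poly_small (a s K : ℝ) (ha : 0 < a) : ∀ᶠ i : ℕ in atTop, K * (i : ℝ) ^ s ≤ (2 : ℝ) ^ (a * i) := by
  have h1 : Tendsto (fun x : ℝ => x ^ s * Real.exp (-(a * Real.log 2) * x)) atTop (𝓝 0) :=
    tendsto_rpow_mul_exp_neg_mul_atTop_nhds_zero _ _ (by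
      have := Real.log_pos (by norm_num : (1 : ℝ) < 2)
      positivity)
  have h3 : Tendsto (fun i : ℕ => K * ((i : ℝ) ^ s * Real.exp (-(a * Real.log 2) * i))) atTop (𝓝 0) := by
    have := (h1.comp tendsto_natCast_atTop_atTop).const_mul K
    simpa using this
  have h2 := h3.eventually (ge_mem_nhds one_pos)
  filter_upwards [h2] with i h4
  have e : Real.exp (-(a * Real.log 2) * i) = ((2 : ℝ) ^ (a * i))⁻¹ := by
    rw [neg_mul, Real.exp_neg, Real.rpow_def_of_pos (by norm_num)]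
    congr 2
    ring
  rw [e, ← mul_assoc, ← div_eq_mul_inv, div_le_one (by positivity)] at h4
  exact h4

/-- the data of one stage -/
def Stage (z : ℕ → ℕ) (κ lam : ℝ) (i y N D M : ℕ) (Gd : Finset ℕ) : Prop :=
  i ≤ N ∧ y ≤ D ∧ (∀ j ∈ Gd, j < M) ∧
    (∀ j ∈ Gd, ∑ a ∈ range y, dn z (N + j * D + a + 1) ≤ lam) ∧
    (i : ℝ) ≤ Gd.card * Real.exp (-((1 + κ) * lam)) ∧
    ∀ j ∈ Gd, 2 ^ i ≤ N + j * D ∧ N + j * D + y ≤ 2 ^ (i + 1)

/-- the combinatorial part of the stage lemma -/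
theorem stage_core : ∀ κ : ℝ, 0 < κ → κ ≤ 1 → ∃ K : ℝ, 0 < K ∧ ∃ e : ℕ,
    ∀ (z : ℕ → ℕ), Monotone z → ∀ (i y S Kn : ℕ) (P : Finset ℕ) (θ : ℝ), 1 ≤ i → 1 ≤ y → 0 < θ →
    Kn * S ≤ 2 ^ i → z (2 ^ (i + 1)) < Kn → (∀ p ∈ P, p.Prime ∧ p ≤ z (2 ^ i)) →
    (V P y : ℝ) ≤ θ * (y * ∏ p ∈ P, (1 - 1 / (p : ℝ))) →
    ∀ M : ℕ, M * (∏ p ∈ P, p) + (∏ p ∈ P, p) + y ≤ S →
    K * ((Kn + 3 : ℕ) : ℝ) ^ e ≤ κ / 2 * M →
    ∃ (N : ℕ) (Gd : Finset ℕ), 2 ^ i ≤ N ∧ (∀ j ∈ Gd, j < M) ∧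
      (∀ j ∈ Gd, ∑ a ∈ range y, dn z (N + j * (y * (∏ p ∈ P, p)) + a + 1) ≤
        (1 + κ) ^ 2 * (θ * (y / (i * Real.log 2)))) ∧
      M * (κ / 2) ≤ y * (Gd.card : ℝ) ∧
      ∀ j ∈ Gd, N + j * (y * (∏ p ∈ P, p)) + y ≤ 2 ^ (i + 1) := by
  classical
  obtain ⟨C0, H⟩ := win_avg
  intro κ hκ hκ1
  obtain ⟨b0, hb0⟩ := exists_pow_lt_of_lt_one (show 0 < κ / 2 by positivity) (show (1 / 2 : ℝ) < 1 by norm_num)
  set b : ℕ := max C0 b0 with hb
  have hbκ : (1 / 2 : ℝ) ^ b ≤ κ / 2 :=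
    (pow_le_pow_of_le_one (by norm_num) (by norm_num) (le_max_right _ _)).trans hb0.le
  obtain ⟨K, hK, e, H⟩ := H b (le_max_left _ _)
  refine ⟨K, hK, e, ?_⟩
  intro z hmono i y S Kn P θ hi hy hθ hKS hzK hP hV M hM hKM
  set Q := ∏ p ∈ P, p with hQ
  have hQ1 : 1 ≤ Q := Nat.pos_of_ne_zero (prod_ne_zero_iff.2 fun p hp => (hP p hp).1.ne_zero)
  have e2 : 2 ^ (i + 1) = 2 ^ i + 2 ^ i := by ring
  obtain ⟨k, hk, hkz⟩ := const_run z hmono (2 ^ i) S Kn (lt_of_le_of_lt (hmono (by omega)) hzK)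
  have hkS : (k + 1) * S ≤ Kn * S := Nat.mul_le_mul_right S hk
  have hkS' : (k + 1) * S = k * S + S := by ring
  rw [hkS'] at hkz
  set N' : ℕ := 2 ^ i + k * S with hN'
  have hkz' : z N' = z (N' + S) := by rw [hkz, hN', add_assoc]
  set N : ℕ := (N' / Q + 1) * Q with hN
  have hN1 : N' < N := by
    have := Nat.lt_div_mul_add (a := N') (b := Q) hQ1
    rw [hN, add_mul, one_mul]
    exact this
  have hN2 : N ≤ N' + Q := by
    have := Nat.div_mul_le_self N' Q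
    rw [hN, add_mul, one_mul]
    omega
  have hi2 : 2 ≤ 2 ^ i := by
    calc 2 = 2 ^ 1 := by norm_num
      _ ≤ 2 ^ i := Nat.pow_le_pow_right (by norm_num) hi
  have hzc : ∀ m, N < m → m ≤ N + M * Q + y → z m = z N' := by
    intro m hm1 hm2
    have g1 := hmono (show N' ≤ m by omega)
    have g2 := hmono (show m ≤ N' + S by omega)
    omega
  have hlog2 : 0 < Real.log 2 := Real.log_pos (by norm_num)
  have hΛ : 0 < (i : ℝ) * Real.log 2 := by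
    have : (0 : ℝ) < i := by exact_mod_cast hi
    positivity
  have hT := H z P (fun p hp => (hP p hp).1) N M y (z N') (dvd_mul_left Q _)
    (fun p hp => (hP p hp).2.trans (hmono (by omega))) hzc (i * Real.log 2) hΛ (by
      intro m hm
      rw [← Real.log_pow]
      apply Real.log_le_log (by positivity)
      exact_mod_cast (by omega : 2 ^ i ≤ m)) (by omega) θ hθ.le hV
  rw [← hQ] at hT
  have hE : K * ((max (z N') 3 : ℕ) : ℝ) ^ e ≤ κ / 2 * M := by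
    refine le_trans ?_ hKM
    apply mul_le_mul_of_nonneg_left _ hK.le
    apply pow_le_pow_left₀ (by positivity)
    have h1 : z N' ≤ z (2 ^ (i + 1)) := hmono (by omega)
    exact_mod_cast (by omega : max (z N') 3 ≤ Kn + 3)
  set a : ℝ := (1 + κ) * (θ * (y / (i * Real.log 2))) with ha
  have hy0 : (0 : ℝ) < y := by exact_mod_cast hy
  have ha0 : 0 < a := by positivity
  have hM0 : (0 : ℝ) ≤ M := Nat.cast_nonneg M
  obtain ⟨c, hc, Gd, hG1, hG2, hG3⟩ := pick M y hy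
    (fun j => ∑ a ∈ range y, dn z (N + j * Q + a + 1))
    (fun j => sum_nonneg fun a _ => dn_nonneg z _) a κ ha0 hκ hκ1 (by
      refine hT.trans ?_
      have h1 : (M : ℝ) * (1 + (1 / 2 : ℝ) ^ b) + K * ((max (z N') 3 : ℕ) : ℝ) ^ e ≤ M * (1 + κ) := by
        have := mul_le_mul_of_nonneg_left hbκ hM0
        linarith
      have h2 : 0 ≤ θ * (y / (i * Real.log 2)) := by positivity
      calc _ ≤ θ * (y / (i * Real.log 2)) * (M * (1 + κ)) := mul_le_mul_of_nonneg_left h1 h2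
        _ = M * a := by rw [ha]; ring)
  refine ⟨N + c * Q, Gd, ?_, ?_, ?_, hG3, ?_⟩
  · have : 0 ≤ c * Q := Nat.zero_le _
    omega
  · intro j hj
    have h1 := hG1 j hj
    have h2 : j ≤ j * y := Nat.le_mul_of_pos_right j hy
    omega
  · intro j hj
    have h1 := hG2 j hj
    have e1 : ∀ a, N + c * Q + j * (y * Q) + a + 1 = N + (c + j * y) * Q + a + 1 := by
      intro a; ring
    simp only [e1]
    refine h1.trans (le_of_eq ?_)
    rw [ha]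
    ring
  · intro j hj
    have h1 := hG1 j hj
    have e1 : N + c * Q + j * (y * Q) + y = N + (c + j * y) * Q + y := by ring
    rw [e1]
    have h2 : (c + j * y) * Q ≤ M * Q := Nat.mul_le_mul_right Q h1.le
    omega

/-- the windows of one stage, asymptotically -/
theorem stage (z : ℕ → ℕ) (hmono : Monotone z)
    (hz : ∀ ε : ℝ, 0 < ε → ∀ᶠ n : ℕ in atTop, (z n : ℝ) ≤ (n : ℝ) ^ ε) (θ β : ℝ) (hθ : 0 < θ)
    (hβ : -1 < β) (hθβ : θ * (1 + β) < 1) (I : Set ℕ)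
    (hP : ∀ ε : ℝ, 0 < ε → ∀ᶠ i : ℕ in atTop, i ∈ I → ∃ P : Finset ℕ,
      (∀ p ∈ P, p.Prime ∧ p ≤ z (2 ^ i)) ∧
      ((∏ p ∈ P, p : ℕ) : ℝ) ≤ Real.exp (ε * (i * Real.log 2)) ∧
      (V P ⌊(1 + β) * (i * Real.log 2) ^ 2⌋₊ : ℝ) ≤
        θ * (⌊(1 + β) * (i * Real.log 2) ^ 2⌋₊ * ∏ p ∈ P, (1 - 1 / (p : ℝ)))) :
    ∃ κ : ℝ, 0 < κ ∧ ∀ᶠ i : ℕ in atTop, i ∈ I → ∃ (lam : ℝ) (N D M : ℕ) (Gd : Finset ℕ), 0 ≤ lam ∧
      Stage z κ lam i ⌊(1 + β) * (i * Real.log 2) ^ 2⌋₊ N D M Gd := by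
  classical
  set l0 : ℝ := θ * (1 + β) with hl0
  have hlz : 0 < l0 := mul_pos hθ (by linarith)
  set ε : ℝ := (1 - l0) / 16 with hε
  have hε0 : 0 < ε := by rw [hε]; linarith
  have hε1 : ε ≤ 1 / 16 := by rw [hε]; linarith
  set κ : ℝ := (1 - l0) / 14 with hκ
  have hκ0 : 0 < κ := by rw [hκ]; linarith
  have hκ1 : κ ≤ 1 := by rw [hκ]; linarith
  obtain ⟨K, hK, e, H⟩ := stage_core κ hκ0 hκ1
  refine ⟨κ, hκ0, ?_⟩
  have hcube : (1 + κ) ^ 3 * l0 ≤ 1 - 8 * ε := by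
    have h1 : (1 + κ) ^ 3 ≤ 1 + 7 * κ := by
      have g1 : κ ^ 2 ≤ κ := pow_le_of_le_one hκ0.le hκ1 two_ne_zero
      have g2 : κ ^ 3 ≤ κ := pow_le_of_le_one hκ0.le hκ1 three_ne_zero
      have g3 : (1 + κ) ^ 3 = 1 + 3 * κ + 3 * κ ^ 2 + κ ^ 3 := by ring
      linarith
    have h2 : (1 + κ) ^ 3 * l0 ≤ (1 + 7 * κ) * l0 := mul_le_mul_of_nonneg_right h1 hlz.le
    have h3 : 7 * κ * l0 ≤ 7 * κ * 1 := mul_le_mul_of_nonneg_left hθβ.le (by positivity)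
    have h4 : 7 * κ = 8 * ε := by rw [hκ, hε]; ring
    have h5 : l0 = 1 - 16 * ε := by rw [hε]; ring
    have h6 : (1 + 7 * κ) * l0 = l0 + 7 * κ * l0 := by ring
    linarith
  set ε₁ : ℝ := min ε (1 / (4 * ((e : ℝ) + 1))) with hε₁
  have hε₁0 : 0 < ε₁ := by positivity
  have hε₁ε : ε₁ ≤ ε := min_le_left _ _
  have hε₁e : e * ε₁ ≤ 1 / 4 := by
    have h1 : ε₁ ≤ 1 / (4 * ((e : ℝ) + 1)) := min_le_right _ _
    have h2 : (0 : ℝ) ≤ e := Nat.cast_nonneg e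
    have h3 := mul_le_mul_of_nonneg_left h1 h2
    have h4 : (e : ℝ) * (1 / (4 * ((e : ℝ) + 1))) ≤ 1 / 4 := by
      rw [mul_one_div, div_le_div_iff₀ (by positivity) (by norm_num)]
      linarith
    linarith
  obtain ⟨n0, hn0⟩ := eventually_atTop.1 (hz (ε₁ / 4) (by positivity))
  have hlog2 : 0 < Real.log 2 := Real.log_pos (by norm_num)
  have hlog2' : Real.log 2 < 1 := by
    have := Real.log_two_lt_d9
    linarith
  have hβ0 : 0 < 1 + β := by linarith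
  have hexp : ∀ (a : ℝ) (i : ℕ), Real.exp (a * (i * Real.log 2)) = (2 : ℝ) ^ (a * i) := by
    intro a i
    rw [Real.rpow_def_of_pos (by norm_num)]
    congr 1
    ring
  have E1 := two_rpow_large (ε₁ / 2) 4 (by positivity)
  have E2 := two_rpow_large ε 4 hε0
  have E3 := poly_small (1 / 2) 2 (1 + (1 + β)) (by norm_num)
  have E4 := two_rpow_large (1 / 4) (K * 2 ^ e * (2 / κ)) (by norm_num)
  have E5 := poly_small (5 * ε) 3 (2 * (1 + β) / κ) (by positivity)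
  have E6 := pow_large 2 (1 / ((1 + β) * Real.log 2 ^ 2)) (by norm_num)
  have E7 := poly_small (1 / 2) 2 ((1 + β) + 3) (by norm_num)
  filter_upwards [E1, E2, E3, E4, E5, E6, E7, hP ε hε0, eventually_ge_atTop (max n0 1)] with i
    h1 h2 h3 h4 h5 h6 h7 h8 h9 hI
  obtain ⟨P, hP1, hP2, hP3⟩ := h8 hI
  have hi1 : 1 ≤ i := (le_max_right _ _).trans h9
  have hin : n0 ≤ i := (le_max_left _ _).trans h9
  have hi : (1 : ℝ) ≤ i := by exact_mod_cast hi1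
  have hi0 : (0 : ℝ) < i := by linarith
  have hL : 0 < (i : ℝ) * Real.log 2 := by positivity
  set Yr : ℝ := (1 + β) * (i * Real.log 2) ^ 2 with hYr
  have hYr0 : 0 < Yr := by positivity
  set y : ℕ := ⌊Yr⌋₊ with hy
  have hyY : (y : ℝ) ≤ Yr := Nat.floor_le hYr0.le
  have hY1 : 1 ≤ Yr := by
    have e1 : Yr = ((1 + β) * Real.log 2 ^ 2) * (i : ℝ) ^ (2 : ℝ) := by
      rw [hYr, Real.rpow_two]; ring
    rw [e1]
    rw [div_le_iff₀ (by positivity)] at h6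
    linarith
  have hy1 : 1 ≤ y := Nat.le_floor (by simpa using hY1)
  have hYi : Yr ≤ (1 + β) * (i : ℝ) ^ (2 : ℝ) := by
    rw [hYr, Real.rpow_two]
    apply mul_le_mul_of_nonneg_left _ hβ0.le
    apply pow_le_pow_left₀ hL.le
    exact mul_le_of_le_one_right hi0.le hlog2'.le
  rw [hexp] at hP2
  set Q := ∏ p ∈ P, p with hQ
  have hQ1 : 1 ≤ Q := Nat.pos_of_ne_zero (prod_ne_zero_iff.2 fun p hp => (hP1 p hp).1.ne_zero)
  -- powers of two
  have hpow : ∀ a b : ℝ, (2 : ℝ) ^ (a * i) * (2 : ℝ) ^ (b * i) = (2 : ℝ) ^ ((a + b) * i) := by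
    intro a b
    rw [← Real.rpow_add (by norm_num)]
    congr 1
    ring
  have hmonoR : ∀ a b : ℝ, a ≤ b → (2 : ℝ) ^ (a * i) ≤ (2 : ℝ) ^ (b * i) := by
    intro a b hab
    exact Real.rpow_le_rpow_of_exponent_le (by norm_num) (mul_le_mul_of_nonneg_right hab hi0.le)
  have h2i : (2 : ℝ) ^ ((1 : ℝ) * i) = 2 ^ i := by rw [one_mul, Real.rpow_natCast]
  set Kr : ℝ := (2 : ℝ) ^ (ε₁ * i) with hKr
  have hKr0 : 0 < Kr := by positivity
  set Kn : ℕ := ⌊Kr⌋₊ with hKn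
  have hKnK : (Kn : ℝ) ≤ Kr := Nat.floor_le hKr0.le
  have hKr16 : 16 ≤ Kr := by
    have : Kr = (2 : ℝ) ^ (ε₁ / 2 * i) * (2 : ℝ) ^ (ε₁ / 2 * i) := by
      rw [hpow, hKr]; congr 1; ring
    rw [this]
    calc (16 : ℝ) = 4 * 4 := by norm_num
      _ ≤ (2 : ℝ) ^ (ε₁ / 2 * i) * (2 : ℝ) ^ (ε₁ / 2 * i) :=
        mul_le_mul h1 h1 (by norm_num) (by positivity)
  have hKn1 : 1 ≤ Kn := Nat.le_floor (by push_cast; linarith)
  have hKn0 : (0 : ℝ) < Kn := by exact_mod_cast hKn1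
  -- the sieve
  have hzK : z (2 ^ (i + 1)) < Kn := by
    have g0 : i < 2 ^ i := Nat.lt_two_pow_self
    have g1 := hn0 (2 ^ (i + 1)) (by
      have : 2 ^ (i + 1) = 2 * 2 ^ i := by ring
      omega)
    have g2 : (((2 ^ (i + 1) : ℕ) : ℝ)) ^ (ε₁ / 4) ≤ (2 : ℝ) ^ (ε₁ / 2 * i) := by
      push_cast
      rw [← Real.rpow_natCast, ← Real.rpow_mul (by norm_num)]
      apply Real.rpow_le_rpow_of_exponent_le (by norm_num)
      push_cast
      have g6 := mul_le_mul_of_nonneg_right (by linarith : (i : ℝ) + 1 ≤ 2 * i)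
        (by positivity : 0 ≤ ε₁ / 4)
      linarith
    have g3 : (2 : ℝ) ^ (ε₁ / 2 * i) * 4 ≤ Kr := by
      have : Kr = (2 : ℝ) ^ (ε₁ / 2 * i) * (2 : ℝ) ^ (ε₁ / 2 * i) := by
        rw [hpow, hKr]; congr 1; ring
      rw [this]
      exact mul_le_mul_of_nonneg_left h1 (by positivity)
    have g4 : Kr < Kn + 1 := Nat.lt_floor_add_one Kr
    have g5 : (z (2 ^ (i + 1)) : ℝ) < Kn := by linarith
    exact_mod_cast g5
  set S : ℕ := 2 ^ i / Kn with hS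
  have hKS : Kn * S ≤ 2 ^ i := Nat.mul_div_le (2 ^ i) Kn
  have hSlow : (2 : ℝ) ^ ((1 - ε) * i) - 1 ≤ S := by
    have g1 : 2 ^ i < 2 ^ i / Kn * Kn + Kn := Nat.lt_div_mul_add hKn1
    have g2 : (2 : ℝ) ^ i < (S + 1) * Kn := by
      have : ((2 ^ i : ℕ) : ℝ) < ((2 ^ i / Kn * Kn + Kn : ℕ) : ℝ) := by exact_mod_cast g1
      push_cast at this
      rw [hS]
      push_cast
      linarith
    have g3 : (2 : ℝ) ^ i < (S + 1) * Kr := g2.trans_le (mul_le_mul_of_nonneg_left hKnK (by positivity))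
    have g4 : Kr ≤ (2 : ℝ) ^ (ε * i) := hmonoR _ _ hε₁ε
    have g5 : (2 : ℝ) ^ i < (S + 1) * (2 : ℝ) ^ (ε * i) :=
      g3.trans_le (mul_le_mul_of_nonneg_left g4 (by positivity))
    rw [← h2i, show (1 : ℝ) = (1 - ε) + ε by ring, ← hpow] at g5
    have g6 := lt_of_mul_lt_mul_right g5 (by positivity)
    linarith
  -- the number of windows
  have hQle : (Q : ℝ) ≤ (2 : ℝ) ^ (ε * i) := hP2
  set A : ℝ := (2 : ℝ) ^ ((1 - 3 * ε) * i) with hA
  have hA0 : 0 < A := by positivity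
  set A2 : ℝ := (2 : ℝ) ^ ((1 - 2 * ε) * i) with hA2
  have hAA2 : A * (2 : ℝ) ^ (ε * i) = A2 := by
    rw [hA, hA2, hpow]; congr 1; ring
  have hA21 : A2 * 4 ≤ (2 : ℝ) ^ ((1 - ε) * i) := by
    have : (2 : ℝ) ^ ((1 - ε) * i) = A2 * (2 : ℝ) ^ (ε * i) := by
      rw [hA2, hpow]; congr 1; ring
    rw [this]
    exact mul_le_mul_of_nonneg_left h2 (by positivity)
  have hhalf : (2 : ℝ) ^ (1 / 2 * (i : ℝ)) ≤ A2 := hmonoR _ _ (by linarith)
  have hεhalf : (2 : ℝ) ^ (ε * i) * 2 ≤ A2 := by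
    have g1 : (2 : ℝ) ^ (ε * i) * (2 : ℝ) ^ (ε * i) ≤ A2 := by
      rw [hpow]
      exact hmonoR _ _ (by linarith)
    refine le_trans ?_ g1
    exact mul_le_mul_of_nonneg_left (by linarith) (by positivity)
  have hi2 : (1 : ℝ) ≤ (i : ℝ) ^ (2 : ℝ) := Real.one_le_rpow hi (by norm_num)
  have hyA : (y : ℝ) + 1 ≤ A2 := by
    have g1 : ((1 + β) + 3) * (i : ℝ) ^ (2 : ℝ) = (1 + β) * (i : ℝ) ^ (2 : ℝ) + 3 * (i : ℝ) ^ (2 : ℝ) := by
      ring
    rw [g1] at h7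
    linarith
  have hQy : Q + y ≤ S := by
    have : (Q : ℝ) + y ≤ S := by
      have : (0 : ℝ) < A2 := by positivity
      linarith
    exact_mod_cast this
  set M : ℕ := (S - Q - y) / Q with hM
  have hMQ : M * Q + Q + y ≤ S := by
    have := Nat.div_mul_le_self (S - Q - y) Q
    rw [← hM] at this
    omega
  have hMA : A ≤ M := by
    by_contra hcon
    push Not at hcon
    have g1 : S - Q - y < (S - Q - y) / Q * Q + Q := Nat.lt_div_mul_add hQ1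
    rw [← hM] at g1
    have g2 : S < (M + 2) * Q + y := by
      have : (M + 2) * Q = M * Q + Q + Q := by ring
      omega
    have g3 : (S : ℝ) < (M + 2) * Q + y := by exact_mod_cast g2
    have g4 : ((M : ℝ) + 2) * Q ≤ (A + 2) * (2 : ℝ) ^ (ε * i) :=
      mul_le_mul (by linarith) hQle (by positivity) (by positivity)
    have g5 : (A + 2) * (2 : ℝ) ^ (ε * i) = A2 + 2 * (2 : ℝ) ^ (ε * i) := by
      rw [add_mul, hAA2]
    linarith
  have hKM : K * ((Kn + 3 : ℕ) : ℝ) ^ e ≤ κ / 2 * M := by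
    have g1 : ((Kn + 3 : ℕ) : ℝ) ≤ 2 * Kr := by push_cast; linarith
    have g2 : ((Kn + 3 : ℕ) : ℝ) ^ e ≤ 2 ^ e * (2 : ℝ) ^ (1 / 4 * (i : ℝ)) := by
      calc ((Kn + 3 : ℕ) : ℝ) ^ e ≤ (2 * Kr) ^ e := pow_le_pow_left₀ (by positivity) g1 e
        _ = 2 ^ e * Kr ^ e := mul_pow _ _ _
        _ ≤ 2 ^ e * (2 : ℝ) ^ (1 / 4 * (i : ℝ)) := by
            apply mul_le_mul_of_nonneg_left _ (by positivity)
            rw [hKr, ← Real.rpow_natCast, ← Real.rpow_mul (by norm_num)]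
            apply Real.rpow_le_rpow_of_exponent_le (by norm_num)
            have g6 := mul_le_mul_of_nonneg_right hε₁e hi0.le
            linarith
    have g3 : (2 : ℝ) ^ (1 / 4 * (i : ℝ)) * (2 : ℝ) ^ (1 / 4 * (i : ℝ)) ≤ A := by
      rw [hpow]
      exact hmonoR _ _ (by linarith)
    have g4 : K * 2 ^ e ≤ κ / 2 * (2 : ℝ) ^ (1 / 4 * (i : ℝ)) := by
      have : K * 2 ^ e * (2 / κ) * (κ / 2) = K * 2 ^ e := by field_simp
      have g5 := mul_le_mul_of_nonneg_right h4 (by positivity : 0 ≤ κ / 2)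
      linarith
    calc K * ((Kn + 3 : ℕ) : ℝ) ^ e ≤ K * (2 ^ e * (2 : ℝ) ^ (1 / 4 * (i : ℝ))) :=
          mul_le_mul_of_nonneg_left g2 hK.le
      _ = (K * 2 ^ e) * (2 : ℝ) ^ (1 / 4 * (i : ℝ)) := by ring
      _ ≤ (κ / 2 * (2 : ℝ) ^ (1 / 4 * (i : ℝ))) * (2 : ℝ) ^ (1 / 4 * (i : ℝ)) :=
          mul_le_mul_of_nonneg_right g4 (by positivity)
      _ = κ / 2 * ((2 : ℝ) ^ (1 / 4 * (i : ℝ)) * (2 : ℝ) ^ (1 / 4 * (i : ℝ))) := by ring
      _ ≤ κ / 2 * A := mul_le_mul_of_nonneg_left g3 (by positivity)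
      _ ≤ κ / 2 * M := mul_le_mul_of_nonneg_left hMA (by positivity)
  obtain ⟨N, Gd, k1, k2, k3, k4, k5⟩ := H z hmono i y S Kn P θ hi1 hy1 hθ hKS hzK hP1 hP3 M hMQ hKM
  refine ⟨(1 + κ) ^ 2 * (l0 * (i * Real.log 2)), N, y * Q, M, Gd, by positivity, ?_⟩
  have hlt : i < 2 ^ i := Nat.lt_two_pow_self
  refine ⟨by omega, Nat.le_mul_of_pos_right y hQ1, k2, ?_, ?_, ?_⟩
  · intro j hj
    refine (k3 j hj).trans ?_
    apply mul_le_mul_of_nonneg_left _ (by positivity)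
    have g1 : (y : ℝ) / (i * Real.log 2) ≤ (1 + β) * (i * Real.log 2) := by
      rw [div_le_iff₀ hL]
      refine hyY.trans (le_of_eq ?_)
      rw [hYr]; ring
    calc θ * (y / (i * Real.log 2)) ≤ θ * ((1 + β) * (i * Real.log 2)) :=
          mul_le_mul_of_nonneg_left g1 hθ.le
      _ = l0 * (i * Real.log 2) := by rw [hl0]; ring
  · have g1 : Real.exp (-((1 - 8 * ε) * (i * Real.log 2))) ≤
        Real.exp (-((1 + κ) * ((1 + κ) ^ 2 * (l0 * (i * Real.log 2))))) := by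
      apply Real.exp_le_exp.2
      have := mul_le_mul_of_nonneg_right hcube hL.le
      linarith
    have g2 : Real.exp (-((1 - 8 * ε) * (i * Real.log 2))) * (2 : ℝ) ^ ((1 - 3 * ε) * i) =
        (2 : ℝ) ^ (5 * ε * i) := by
      rw [← neg_mul, hexp, hpow]
      congr 1
      ring
    have hy0 : (0 : ℝ) < y := by exact_mod_cast hy1
    have g3 : A * (κ / 2) / y ≤ (Gd.card : ℝ) := by
      rw [div_le_iff₀ hy0]
      have := mul_le_mul_of_nonneg_right hMA (by positivity : 0 ≤ κ / 2)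
      linarith
    have g4 : (i : ℝ) ≤ A * (κ / 2) / y * Real.exp (-((1 - 8 * ε) * (i * Real.log 2))) := by
      have e1 : A * (κ / 2) / y * Real.exp (-((1 - 8 * ε) * (i * Real.log 2))) =
          (Real.exp (-((1 - 8 * ε) * (i * Real.log 2))) * A) * (κ / 2) / y := by ring
      rw [e1, hA, g2, le_div_iff₀ hy0]
      have g5 : (i : ℝ) * y ≤ (1 + β) * (i : ℝ) ^ (3 : ℝ) := by
        have e2 : (i : ℝ) ^ (3 : ℝ) = i * (i : ℝ) ^ (2 : ℝ) := by
          rw [show (3 : ℝ) = 1 + 2 by norm_num, Real.rpow_add hi0, Real.rpow_one]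
        rw [e2]
        have := mul_le_mul_of_nonneg_left (hyY.trans hYi) hi0.le
        linarith
      refine g5.trans ?_
      have g6 := mul_le_mul_of_nonneg_right h5 (by positivity : 0 ≤ κ / 2)
      have e3 : 2 * (1 + β) / κ * (i : ℝ) ^ (3 : ℝ) * (κ / 2) = (1 + β) * (i : ℝ) ^ (3 : ℝ) := by
        field_simp
      rw [e3] at g6
      exact g6
    refine g4.trans ?_
    exact mul_le_mul g3 g1 (Real.exp_pos _).le (Nat.cast_nonneg _)
  · intro j hj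
    exact ⟨by
      have : 0 ≤ j * (y * Q) := Nat.zero_le _
      omega, k5 j hj⟩

end Pool.Agent.D0H60.RMG
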