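import Mathlib
import Pool.Agent.D0H60.RMG.Low
import Pool.Agent.D0H60.RMG.Mai

set_option autoImplicit false
set_option linter.unusedSectionVars false

/-!
# From windows to gaps (project RMG)
-/

open MeasureTheory Filter
open scoped ENNReal Topology

namespace Pool.Agent.D0H60.RMG

open Pool.Agent.R528.RM

/-- `g` is the gap of `S` which follows the element `s` -/
def IsGap (S : Set ℕ) (s g : ℕ) : Prop := s ∈ S ∧ 0 < g ∧ s + g ∈ S ∧ ∀ j, 0 < j → j < g → s + j ∉ S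

/-- the largest gap of `S` which follows an element not exceeding `x` -/
noncomputable def G (S : Set ℕ) (x : ℝ) : ℕ := sSup {g | ∃ s : ℕ, (s : ℝ) ≤ x ∧ IsGap S s g}

lemma IsGap.unique {S : Set ℕ} {s g g' : ℕ} (h : IsGap S s g) (h' : IsGap S s g') : g = g' := by
  obtain ⟨-, h1, h2, h3⟩ := h
  obtain ⟨-, h1', h2', h3'⟩ := h'
  rcases lt_trichotomy g g' with h4 | h4 | h4
  · exact absurd h2 (h3' g h1 h4)
  · exact h4
  · exact absurd h2' (h3 g' h1' h4)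

lemma gap_bdd (S : Set ℕ) (n : ℕ) : ∃ C : ℕ, ∀ s g : ℕ, s ≤ n → IsGap S s g → g ≤ C := by
  have h1 : {g | ∃ s ∈ Finset.Iic n, IsGap S s g}.Finite := by
    have h2 : {g | ∃ s ∈ Finset.Iic n, IsGap S s g} = ⋃ s ∈ Finset.Iic n, {g | IsGap S s g} := by
      ext g
      simp
    rw [h2]
    refine Set.Finite.biUnion (Finset.finite_toSet _) fun s _ => ?_
    exact Set.Subsingleton.finite fun g hg g' hg' => hg.unique hg'
  obtain ⟨C, hC⟩ := h1.bddAbove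
  exact ⟨C, fun s g hs hg => hC ⟨s, Finset.mem_Iic.2 hs, hg⟩⟩

lemma G_bdd (S : Set ℕ) (x : ℝ) : BddAbove {g | ∃ s : ℕ, (s : ℝ) ≤ x ∧ IsGap S s g} := by
  obtain ⟨C, hC⟩ := gap_bdd S ⌊x⌋₊
  refine ⟨C, ?_⟩
  rintro g ⟨s, hs, hg⟩
  exact hC s g (Nat.le_floor hs) hg

lemma le_G {S : Set ℕ} {x : ℝ} {s g : ℕ} (hs : (s : ℝ) ≤ x) (hg : IsGap S s g) : g ≤ G S x :=
  le_csSup (G_bdd S x) ⟨s, hs, hg⟩

lemma G_le {S : Set ℕ} {x : ℝ} {B : ℕ} (h : ∀ s g : ℕ, (s : ℝ) ≤ x → IsGap S s g → g ≤ B) :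
    G S x ≤ B := by
  apply csSup_le'
  rintro g ⟨s, hs, hg⟩
  exact h s g hs hg

/-- upper bound for the largest gap -/
lemma G_upper {S : Set ℕ} (y : ℕ → ℕ) (f : ℝ → ℝ) (hf : ∀ᶠ i : ℕ in atTop, ∀ x : ℝ, 2 ^ i ≤ x → (y i : ℝ) ≤ f x)
    (hf2 : Tendsto f atTop atTop)
    (h : ∀ᶠ i : ℕ in atTop, ∀ t, 2 ^ i ≤ t → t < 2 ^ (i + 1) → ∃ j < y i, t + j + 1 ∈ S) :
    ∀ᶠ x : ℝ in atTop, (G S x : ℝ) ≤ f x := by
  obtain ⟨i₁, hi₁⟩ := eventually_atTop.1 (hf.and h)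
  obtain ⟨C, hC⟩ := gap_bdd S (2 ^ i₁)
  filter_upwards [hf2.eventually_ge_atTop (C : ℝ)] with x hx
  have hf0 : 0 ≤ f x := (Nat.cast_nonneg C).trans hx
  have h1 : G S x ≤ ⌊f x⌋₊ := by
    refine G_le fun s g hs hg => Nat.le_floor ?_
    rcases le_total s (2 ^ i₁) with h2 | h2
    · have := hC s g h2 hg
      exact le_trans (by exact_mod_cast this) hx
    · have hs0 : s ≠ 0 := by
        have : 0 < 2 ^ i₁ := by positivity
        omega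
      set i := Nat.log 2 s with hi
      have h3 : 2 ^ i ≤ s := Nat.pow_log_le_self 2 hs0
      have h4 : s < 2 ^ (i + 1) := Nat.lt_pow_succ_log_self (by norm_num) s
      have h5 : i₁ ≤ i := by
        rw [hi]
        exact Nat.le_log_of_pow_le (by norm_num) h2
      obtain ⟨g1, g2⟩ := hi₁ i h5
      obtain ⟨j, hj, hjS⟩ := g2 s h3 h4
      have h6 : g ≤ j + 1 := by
        by_contra hcon
        push Not at hcon
        exact hg.2.2.2 (j + 1) (by omega) hcon (by rwa [← add_assoc])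
      have h7 : (g : ℝ) ≤ y i := by exact_mod_cast (by omega : g ≤ y i)
      refine h7.trans (g1 x ?_)
      refine le_trans ?_ hs
      exact_mod_cast h3
  exact le_trans (by exact_mod_cast h1) (Nat.floor_le hf0)

/-- lower bound for the largest gap -/
lemma G_lower {S : Set ℕ} (hS : S.Infinite) {t y : ℕ} (hs : ∃ s ∈ S, s ≤ t)
    (hem : ∀ j < y, t + j + 1 ∉ S) {x : ℝ} (hx : (t : ℝ) ≤ x) : y < G S x := by
  classical
  have h1 : ∃ m, t < m ∧ m ∈ S := by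
    obtain ⟨m, hm, hmt⟩ := hS.exists_gt t
    exact ⟨m, hmt, hm⟩
  set s' := Nat.find h1 with hs'
  obtain ⟨h2, h3⟩ := Nat.find_spec h1
  rw [← hs'] at h2 h3
  set s := Nat.findGreatest (fun n => n ∈ S) t with hsd
  obtain ⟨s0, hs0, hs0t⟩ := hs
  have h4 : s ∈ S := Nat.findGreatest_spec (P := fun n => n ∈ S) hs0t hs0
  have h5 : s ≤ t := Nat.findGreatest_le t
  have h6 : IsGap S s (s' - s) := by
    refine ⟨h4, by omega, by rwa [show s + (s' - s) = s' by omega], fun j hj1 hj2 hjS => ?_⟩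
    rcases le_or_gt (s + j) t with h7 | h7
    · have := Nat.le_findGreatest (P := fun n => n ∈ S) h7 hjS
      omega
    · have := Nat.find_min' h1 ⟨h7, hjS⟩
      omega
  have h7 : t + y < s' := by
    by_contra hcon
    push Not at hcon
    refine hem (s' - t - 1) (by omega) ?_
    rwa [show t + (s' - t - 1) + 1 = s' by omega]
  have h8 := le_G (x := x) (by
    have : (s : ℝ) ≤ t := by exact_mod_cast h5
    linarith) h6
  omega

section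

variable {Ω : Type} {m0 : MeasurableSpace Ω} {μ : Measure Ω} [IsProbabilityMeasure μ]
  {ℱ : Filtration ℕ m0} {A : ℕ → Set Ω}

/-- from stages to empty windows -/
theorem stage_io (hA : ∀ n, MeasurableSet[ℱ n] (A n)) (z : ℕ → ℕ)
    (hρ0 : Tendsto (dn z) atTop (𝓝 0))
    (hprof : ∀ᵐ ω ∂μ, ∀ ε : ℝ, 0 < ε → ∀ᶠ n : ℕ in atTop,
      |dens μ ℱ A n ω - dn z (n + 1)| ≤ ε * dn z (n + 1))
    (I : Set ℕ) (y : ℕ → ℕ) (κ : ℝ) (hκ : 0 < κ)
    (hst : ∀ᶠ i : ℕ in atTop, i ∈ I → ∃ (lam : ℝ) (N D M : ℕ) (Gd : Finset ℕ), 0 ≤ lam ∧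
      Stage z κ lam i (y i) N D M Gd) :
    ∀ᵐ ω ∂μ, ∀ᶠ i in atTop, i ∈ I → ∃ t, 2 ^ i ≤ t ∧ t + y i ≤ 2 ^ (i + 1) ∧ ω ∈ Em A t (y i) := by
  classical
  obtain ⟨i₀, hi₀⟩ := eventually_atTop.1 hst
  have h1 : ∀ i : ℕ, ∃ (lam : ℝ) (N D M : ℕ) (Gd : Finset ℕ), i₀ ≤ i → i ∈ I → 0 ≤ lam ∧
      Stage z κ lam i (y i) N D M Gd := by
    intro i
    by_cases h : i₀ ≤ i ∧ i ∈ I
    · obtain ⟨lam, N, D, M, Gd, g⟩ := hi₀ i h.1 h.2
      exact ⟨lam, N, D, M, Gd, fun _ _ => g⟩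
    · exact ⟨0, 0, 0, 0, ∅, fun g1 g2 => absurd ⟨g1, g2⟩ h⟩
  choose lam N D M Gd hdat using h1
  have h2 := win_io (μ := μ) (ℱ := ℱ) (A := A) hA (dn z) (dn_nonneg z) hρ0 hprof I N D y M Gd lam κ hκ (by
    filter_upwards [eventually_ge_atTop i₀] with i hi hI
    obtain ⟨g0, g1, g2, g3, g4, g5, -⟩ := hdat i hi hI
    exact ⟨g1, g2, g3, g4, g0, g5⟩)
  filter_upwards [h2] with ω hω
  filter_upwards [hω, eventually_ge_atTop i₀] with i h3 h4 hI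
  obtain ⟨j, hj, hE⟩ := h3 hI
  obtain ⟨-, -, -, -, -, -, g6⟩ := hdat i h4 hI
  exact ⟨_, (g6 j hj).1, (g6 j hj).2, hE⟩

end

lemma dyadic (P : ℕ → ℝ → Prop) (h : ∀ᶠ i : ℕ in atTop, ∀ x : ℝ, 2 ^ (i + 1) ≤ x → x < 2 ^ (i + 2) → P i x) :
    ∀ᶠ x : ℝ in atTop, ∃ i : ℕ, P i x := by
  obtain ⟨i₁, hi₁⟩ := eventually_atTop.1 h
  filter_upwards [eventually_ge_atTop ((2 : ℝ) ^ (i₁ + 1))] with x hx
  have hx1 : (1 : ℝ) ≤ 2 ^ (i₁ + 1) := one_le_pow₀ (by norm_num)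
  have hx0 : 0 ≤ x := by linarith
  set n := ⌊x⌋₊ with hn
  have hn1 : 2 ^ (i₁ + 1) ≤ n := Nat.le_floor (by push_cast; exact hx)
  have hn0 : n ≠ 0 := by
    have : 0 < 2 ^ (i₁ + 1) := by positivity
    omega
  have h1 : 2 ^ (Nat.log 2 n) ≤ n := Nat.pow_log_le_self 2 hn0
  have h2 : n < 2 ^ (Nat.log 2 n + 1) := Nat.lt_pow_succ_log_self (by norm_num) n
  have h3 : i₁ + 1 ≤ Nat.log 2 n := Nat.le_log_of_pow_le (by norm_num) hn1
  refine ⟨Nat.log 2 n - 1, hi₁ _ (by omega) x ?_ ?_⟩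
  · rw [show Nat.log 2 n - 1 + 1 = Nat.log 2 n by omega]
    calc (2 : ℝ) ^ Nat.log 2 n ≤ (n : ℝ) := by exact_mod_cast h1
      _ ≤ x := Nat.floor_le hx0
  · rw [show Nat.log 2 n - 1 + 2 = Nat.log 2 n + 1 by omega]
    have h4 : n + 1 ≤ 2 ^ (Nat.log 2 n + 1) := h2
    calc x < n + 1 := Nat.lt_floor_add_one x
      _ ≤ (2 : ℝ) ^ (Nat.log 2 n + 1) := by exact_mod_cast h4

end Pool.Agent.D0H60.RMG
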