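import Mathlib
import Pool.Agent.D0H60.RMG.Gap

set_option autoImplicit false
set_option linter.unusedSectionVars false

/-!
# The largest gap when the sieve goes up to a power (project RMG)
-/

open MeasureTheory Filter
open scoped ENNReal Topology

namespace Pool.Agent.D0H60.RMG

open Pool.Agent.R528.RM

/-- windows of length `2 ^ ((2 b + ε) i)` have large expected numbers if `z(n) ≤ n ^ (b + o(1))` -/
theorem low_pow (z : ℕ → ℕ) (b : ℝ) (hb : 0 ≤ b)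
    (hz : ∀ ε : ℝ, 0 < ε → ∀ᶠ n : ℕ in atTop, (z n : ℝ) ≤ (n : ℝ) ^ (b + ε))
    (ε : ℝ) (hε : 0 < ε) (hε1 : 2 * b + ε ≤ 1) : ∀ᶠ i : ℕ in atTop, ∀ t, 2 ^ i ≤ t → t < 2 ^ (i + 1) →
      (1 + 1) * (i * Real.log 2) ≤ ∑ j ∈ Finset.range ⌊(2 : ℝ) ^ ((2 * b + ε) * i)⌋₊, dn z (t + j + 1) := by
  set γ : ℝ := 2 * b + ε with hγ
  have hγ0 : 0 < γ := by rw [hγ]; linarith
  set ζ : ℝ := (b + ε / 4) / γ with hζ
  have hζ1 : 1 / 4 ≤ ζ := by
    rw [hζ, le_div_iff₀ hγ0, hγ]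
    linarith
  have hζ2 : ζ < 1 / 2 := by
    rw [hζ, div_lt_iff₀ hγ0, hγ]
    linarith
  have hζ0 : 0 < ζ := by linarith
  obtain ⟨c, hc, Y0, H⟩ := sum_low ζ hζ1 hζ2
  obtain ⟨n0, hn0⟩ := eventually_atTop.1 (hz (ε / 8) (by positivity))
  have hlog2 : Real.log 2 < 7 / 10 := by
    have := Real.log_two_lt_d9
    linarith
  have hlog20 : 0 < Real.log 2 := Real.log_pos (by norm_num)
  have e1 := two_rpow_large γ (2 * Y0 + 4) hγ0
  have e2 := two_rpow_large (ε / 8) (2 * 2 ^ (2 * (b + ε / 8)) + 1) (by positivity)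
  have e3 := poly_small γ 3 (4 / c) hγ0
  filter_upwards [e1, e2, e3, eventually_ge_atTop (n0 + 10)] with i h1 h2 h3 h4 t ht1 ht2
  have hi10 : (10 : ℝ) ≤ i := by exact_mod_cast (by omega : 10 ≤ i)
  have hi : (0 : ℝ) < i := by linarith
  set X : ℝ := (2 : ℝ) ^ (γ * i) with hX
  set Y : ℕ := ⌊X⌋₊ with hY
  have hX0 : 0 < X := by positivity
  have hYX : (Y : ℝ) ≤ X := Nat.floor_le hX0.le
  have hY0' : (0 : ℝ) ≤ Y0 := Nat.cast_nonneg _
  have hYX2 : X / 2 ≤ Y := by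
    have := Nat.lt_floor_add_one X
    rw [← hY] at this
    linarith
  have hYY0 : Y0 ≤ Y := by
    have : (Y0 : ℝ) ≤ Y := by linarith
    exact_mod_cast this
  have hY1 : (1 : ℝ) < Y := by linarith
  have hXi : X ≤ 2 ^ i := by
    rw [hX, ← Real.rpow_natCast]
    apply Real.rpow_le_rpow_of_exponent_le (by norm_num)
    calc γ * i ≤ 1 * i := mul_le_mul_of_nonneg_right hε1 hi.le
      _ = i := one_mul _
  have hYi : Y ≤ 2 ^ i := by
    have : (Y : ℝ) ≤ ((2 ^ i : ℕ) : ℝ) := by push_cast; linarith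
    exact_mod_cast this
  have hmi : ∀ m : ℕ, t < m → m ≤ t + Y → m ≤ 2 ^ (i + 2) := by
    intro m hm1 hm2
    have e : 2 ^ (i + 2) = 2 ^ (i + 1) + 2 ^ (i + 1) := by ring
    have e' : 2 ^ (i + 1) = 2 ^ i + 2 ^ i := by ring
    omega
  have hlogm : ∀ m : ℕ, t < m → m ≤ t + Y → Real.log m ≤ i := by
    intro m hm1 hm2
    have hm3 := hmi m hm1 hm2
    have hm0 : (0 : ℝ) < m := by exact_mod_cast (by omega : 0 < m)
    have h7 : Real.log m ≤ Real.log ((2 : ℝ) ^ (i + 2)) := by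
      apply Real.log_le_log hm0
      exact_mod_cast hm3
    rw [Real.log_pow] at h7
    push_cast at h7
    have h9 : ((i : ℝ) + 2) * Real.log 2 ≤ (i + 2) * (7 / 10) :=
      mul_le_mul_of_nonneg_left hlog2.le (by linarith)
    linarith
  have hzm : ∀ m, t < m → m ≤ t + Y → (z m : ℝ) < (Y : ℝ) ^ ζ := by
    intro m hm1 hm2
    have hp : i < 2 ^ i := Nat.lt_two_pow_self
    have h7 := hn0 m (by omega)
    have hm3 := hmi m hm1 hm2
    have h9 : (m : ℝ) ^ (b + ε / 8) ≤ (2 : ℝ) ^ ((b + ε / 8) * i) * 2 ^ (2 * (b + ε / 8)) := by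
      have h10 : (m : ℝ) ≤ (2 : ℝ) ^ ((i : ℝ) + 2) := by
        rw [show (i : ℝ) + 2 = ((i + 2 : ℕ) : ℝ) by push_cast; ring, Real.rpow_natCast]
        exact_mod_cast hm3
      calc (m : ℝ) ^ (b + ε / 8) ≤ ((2 : ℝ) ^ ((i : ℝ) + 2)) ^ (b + ε / 8) :=
            Real.rpow_le_rpow (Nat.cast_nonneg m) h10 (by positivity)
        _ = (2 : ℝ) ^ ((b + ε / 8) * i) * 2 ^ (2 * (b + ε / 8)) := by
            rw [← Real.rpow_mul (by norm_num), ← Real.rpow_add (by norm_num)]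
            congr 1
            ring
    have h10 : (X / 2) ^ ζ ≤ (Y : ℝ) ^ ζ := Real.rpow_le_rpow (by positivity) hYX2 hζ0.le
    have h11 : (X / 2) ^ ζ = (2 : ℝ) ^ ((b + ε / 4) * i) / 2 ^ ζ := by
      rw [Real.div_rpow hX0.le (by norm_num), hX, ← Real.rpow_mul (by norm_num)]
      congr 2
      rw [hζ]
      field_simp
    have h12 : (2 : ℝ) ^ ζ ≤ 2 := by
      calc (2 : ℝ) ^ ζ ≤ 2 ^ (1 : ℝ) := Real.rpow_le_rpow_of_exponent_le (by norm_num) (by linarith)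
        _ = 2 := by norm_num
    have h13 : (2 : ℝ) ^ ((b + ε / 4) * i) = (2 : ℝ) ^ ((b + ε / 8) * i) * (2 : ℝ) ^ (ε / 8 * i) := by
      rw [← Real.rpow_add (by norm_num)]
      congr 1
      ring
    have h14 : 0 < (2 : ℝ) ^ ((b + ε / 8) * i) := by positivity
    have h15 : (2 : ℝ) ^ ((b + ε / 8) * i) * 2 ^ (2 * (b + ε / 8)) < (2 : ℝ) ^ ((b + ε / 4) * i) / 2 ^ ζ := by
      rw [lt_div_iff₀ (by positivity), h13, mul_assoc]
      apply mul_lt_mul_of_pos_left _ h14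
      have h16 : (0 : ℝ) < 2 ^ (2 * (b + ε / 8)) := by positivity
      have h17 : (2 : ℝ) ^ (2 * (b + ε / 8)) * 2 ^ ζ ≤ 2 ^ (2 * (b + ε / 8)) * 2 :=
        mul_le_mul_of_nonneg_left h12 h16.le
      linarith
    linarith
  have h7 := H z Y hYY0 t i hi hzm hlogm (le_trans Nat.one_le_two_pow ht1)
  refine le_trans ?_ h7
  have hlY : 0 < Real.log Y := Real.log_pos hY1
  have h8 : Real.log Y ≤ i := by
    have h9 : Real.log Y ≤ Real.log ((2 : ℝ) ^ i) := Real.log_le_log (by linarith) (hYX.trans hXi)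
    rw [Real.log_pow] at h9
    have h10 : (i : ℝ) * Real.log 2 ≤ i * 1 := mul_le_mul_of_nonneg_left (by linarith) hi.le
    linarith
  have h10 : (X / 2) / i ≤ Y / Real.log Y := div_le_div₀ (by positivity) hYX2 hlY h8
  have h11 : c * ((X / 2) / i) / i ≤ c * (Y / Real.log Y) / i := by gcongr
  refine le_trans ?_ h11
  have h12 : 4 / c * (i : ℝ) ^ (3 : ℝ) * (c / 2) = 2 * (i * (i * i)) := by
    rw [show (3 : ℝ) = ((3 : ℕ) : ℝ) by norm_num, Real.rpow_natCast]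
    field_simp
    norm_num
  have h13 := mul_le_mul_of_nonneg_right h3 (by positivity : 0 ≤ c / 2)
  rw [h12] at h13
  have h14 : c * ((X / 2) / i) / i = (X * (c / 2)) / (i * i) := by
    field_simp
  rw [h14, le_div_iff₀ (by positivity)]
  have h15 : (1 + 1) * ((i : ℝ) * Real.log 2) * (i * i) ≤ 2 * (i * (i * i)) := by
    have h16 : (i : ℝ) * Real.log 2 ≤ i * 1 := mul_le_mul_of_nonneg_left (by linarith) hi.le
    have h17 := mul_le_mul_of_nonneg_right h16 (by positivity : (0 : ℝ) ≤ 2 * (i * i))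
    linarith
  linarith

section

variable {Ω : Type} {m0 : MeasurableSpace Ω} {μ : Measure Ω} [IsProbabilityMeasure μ]
  {ℱ : Filtration ℕ m0} {A : ℕ → Set Ω}

/-- the largest gap when the sieve goes up to a power -/
theorem law_pow (hA : ∀ n, MeasurableSet[ℱ n] (A n)) (z : ℕ → ℕ) (b : ℝ) (hb : 0 ≤ b) (hb2 : b < 1 / 2)
    (hz : ∀ ε : ℝ, 0 < ε → ∀ᶠ n : ℕ in atTop, (z n : ℝ) ≤ (n : ℝ) ^ (b + ε))
    (hprof : ∀ᵐ ω ∂μ, ∀ ε : ℝ, 0 < ε → ∀ᶠ n : ℕ in atTop,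
      |dens μ ℱ A n ω - dn z (n + 1)| ≤ ε * dn z (n + 1)) :
    ∀ᵐ ω ∂μ, ∀ ε : ℝ, 0 < ε → ∀ᶠ i : ℕ in atTop, ∀ t, 2 ^ i ≤ t → t < 2 ^ (i + 1) →
      ∃ j < ⌊(2 : ℝ) ^ ((2 * b + ε) * i)⌋₊, t + j + 1 ∈ {n | ω ∈ A n} := by
  have h1 : ∀ k : ℕ, ∀ᵐ ω ∂μ, ∀ᶠ i : ℕ in atTop, ∀ t, 2 ^ i ≤ t → t < 2 ^ (i + 1) →
      ω ∉ Em A t ⌊(2 : ℝ) ^ ((2 * b + (1 - 2 * b) / ((k : ℝ) + 1)) * i)⌋₊ := by
    intro k
    have hk : (0 : ℝ) < (k : ℝ) + 1 := by positivity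
    have h2b : 0 < 1 - 2 * b := by linarith
    refine win_fin (μ := μ) (ℱ := ℱ) (A := A) hA (dn z) hprof
      (fun i => ⌊(2 : ℝ) ^ ((2 * b + (1 - 2 * b) / ((k : ℝ) + 1)) * i)⌋₊) 1 one_pos
      (low_pow z b hb hz _ (by positivity) ?_)
    have : (1 - 2 * b) / ((k : ℝ) + 1) ≤ 1 - 2 * b := by
      apply div_le_self h2b.le
      have : (0 : ℝ) ≤ k := Nat.cast_nonneg k
      linarith
    linarith
  filter_upwards [ae_all_iff.2 h1] with ω hω ε hε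
  obtain ⟨k, hk⟩ := exists_nat_gt (1 / ε)
  have hk0 : (0 : ℝ) < (k : ℝ) + 1 := by positivity
  have hkε : (1 - 2 * b) / ((k : ℝ) + 1) ≤ ε := by
    rw [div_lt_iff₀ hε] at hk
    rw [div_le_iff₀ hk0]
    nlinarith
  filter_upwards [hω k] with i h2 t ht1 ht2
  have h3 := h2 t ht1 ht2
  unfold Em at h3
  simp only [Set.mem_ofPred_eq, not_forall, not_not] at h3
  obtain ⟨j, hj, hjA⟩ := h3
  refine ⟨j, lt_of_lt_of_le hj ?_, hjA⟩
  apply Nat.floor_le_floor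
  apply Real.rpow_le_rpow_of_exponent_le (by norm_num)
  exact mul_le_mul_of_nonneg_right (by linarith) (Nat.cast_nonneg i)

end

end Pool.Agent.D0H60.RMG
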