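import Mathlib
import Pool.Agent.D0H60.RMG.Gap

set_option autoImplicit false
set_option linter.unusedSectionVars false

/-!
# The laws for the largest gap (project RMG)
-/

open MeasureTheory Filter
open scoped ENNReal Topology

namespace Pool.Agent.D0H60.RMG

open Pool.Agent.R528.RM
open Pool.Agent.N610.MS (V)

section det

/-- a set which meets every window is infinite -/
lemma inf_of_win {S : Set ℕ} (y : ℕ → ℕ)
    (h : ∀ᶠ i : ℕ in atTop, ∀ t, 2 ^ i ≤ t → t < 2 ^ (i + 1) → ∃ j < y i, t + j + 1 ∈ S) : S.Infinite := by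
  obtain ⟨i₁, hi₁⟩ := eventually_atTop.1 h
  rw [Set.infinite_iff_exists_gt]
  intro n
  have h1 := hi₁ (max i₁ n) (le_max_left _ _) (2 ^ (max i₁ n)) le_rfl
    (Nat.pow_lt_pow_right (by norm_num) (by omega))
  obtain ⟨j, -, hj⟩ := h1
  refine ⟨_, hj, ?_⟩
  have h2 : n ≤ max i₁ n := le_max_right _ _
  have h3 : max i₁ n < 2 ^ (max i₁ n) := Nat.lt_two_pow_self
  omega

/-- long gaps from empty windows -/
lemma gaps_of_win {S : Set ℕ} (hS : S.Infinite) (I : Set ℕ) (y : ℕ → ℕ)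
    (h : ∀ᶠ i : ℕ in atTop, i ∈ I → ∃ t, 2 ^ i ≤ t ∧ t + y i ≤ 2 ^ (i + 1) ∧ ∀ j < y i, t + j + 1 ∉ S) :
    ∀ᶠ i : ℕ in atTop, i ∈ I → ∀ x : ℝ, 2 ^ (i + 1) ≤ x → (y i : ℝ) < G S x := by
  obtain ⟨s0, hs0⟩ := hS.nonempty
  filter_upwards [h, eventually_ge_atTop s0] with i h1 h2 hI x hx
  obtain ⟨t, ht1, ht2, ht3⟩ := h1 hI
  have h3 : i < 2 ^ i := Nat.lt_two_pow_self
  have h4 := G_lower (x := x) hS ⟨s0, hs0, by omega⟩ ht3 (by
    have h5 : t ≤ 2 ^ (i + 1) := by omega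
    have h6 : (t : ℝ) ≤ 2 ^ (i + 1) := by exact_mod_cast h5
    linarith)
  exact_mod_cast h4

/-- comparison for the exponents, from above -/
lemma cmp_up (b ε : ℝ) (hb : 0 < b) (hε : 0 < ε) : ∀ᶠ i : ℕ in atTop, ∀ x : ℝ, 2 ^ i ≤ x →
    (⌊(i : ℝ) ^ (b + ε)⌋₊ : ℝ) ≤ Real.log x ^ (b + 2 * ε) := by
  filter_upwards [pow_large ε ((2 : ℝ) ^ (b + 2 * ε)) hε, eventually_ge_atTop 1] with i h1 h2 x hx
  have hi : (1 : ℝ) ≤ i := by exact_mod_cast h2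
  have hi0 : (0 : ℝ) < i := by linarith
  have h3 : (i : ℝ) / 2 ≤ Real.log x := by
    have h4 : Real.log ((2 : ℝ) ^ i) ≤ Real.log x := Real.log_le_log (by positivity) hx
    rw [Real.log_pow] at h4
    have := Real.log_two_gt_d9
    have h5 : (i : ℝ) * (1 / 2) ≤ i * Real.log 2 := mul_le_mul_of_nonneg_left (by linarith) hi0.le
    linarith
  have h4 : ((i : ℝ) / 2) ^ (b + 2 * ε) ≤ Real.log x ^ (b + 2 * ε) :=
    Real.rpow_le_rpow (by positivity) h3 (by positivity)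
  refine le_trans ?_ h4
  refine (Nat.floor_le (by positivity)).trans ?_
  rw [Real.div_rpow hi0.le (by norm_num), le_div_iff₀ (by positivity)]
  have h5 : (i : ℝ) ^ (b + 2 * ε) = (i : ℝ) ^ (b + ε) * (i : ℝ) ^ ε := by
    rw [← Real.rpow_add hi0]
    congr 1
    ring
  rw [h5]
  exact mul_le_mul_of_nonneg_left h1 (by positivity)

/-- comparison for the exponents, from below -/
lemma cmp_low (ε : ℝ) (hε : 0 < ε) (hε1 : ε ≤ 1) : ∀ᶠ i : ℕ in atTop, ∀ x : ℝ, 2 ^ (i + 1) ≤ x →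
    x < 2 ^ (i + 2) → Real.log x ^ (2 - 2 * ε) ≤ ⌊(i : ℝ) ^ (2 - ε)⌋₊ := by
  filter_upwards [pow_large ε 2 hε, eventually_ge_atTop 10] with i h1 h2 x hx1 hx
  have hi : (10 : ℝ) ≤ i := by exact_mod_cast h2
  have hi0 : (0 : ℝ) < i := by linarith
  have hx2 : (1 : ℝ) ≤ x := (one_le_pow₀ (by norm_num)).trans hx1
  have hx0 : 0 < x := by linarith
  have h3 : Real.log x ≤ i := by
    have h4 : Real.log x ≤ Real.log ((2 : ℝ) ^ (i + 2)) := Real.log_le_log hx0 hx.le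
    rw [Real.log_pow] at h4
    push_cast at h4
    have := Real.log_two_lt_d9
    have h5 : ((i : ℝ) + 2) * Real.log 2 ≤ (i + 2) * (7 / 10) :=
      mul_le_mul_of_nonneg_left (by linarith) (by linarith)
    linarith
  have h4 : Real.log x ^ (2 - 2 * ε) ≤ (i : ℝ) ^ (2 - 2 * ε) :=
    Real.rpow_le_rpow (Real.log_nonneg hx2) h3 (by linarith)
  refine h4.trans ?_
  have h5 : (i : ℝ) ^ (2 - ε) = (i : ℝ) ^ (2 - 2 * ε) * (i : ℝ) ^ ε := by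
    rw [← Real.rpow_add hi0]
    congr 1
    ring
  have h6 : 1 ≤ (i : ℝ) ^ (2 - 2 * ε) := Real.one_le_rpow (by linarith) (by linarith)
  have h7 : (i : ℝ) ^ (2 - 2 * ε) * 2 ≤ (i : ℝ) ^ (2 - ε) := by
    rw [h5]
    exact mul_le_mul_of_nonneg_left h1 (by linarith)
  have h8 := Nat.lt_floor_add_one ((i : ℝ) ^ (2 - ε))
  linarith

/-- sharp comparison, from below -/
lemma cmp_sharp (β β' : ℝ) (hβ : β' < β) (hβ' : -1 < β') : ∀ᶠ i : ℕ in atTop, ∀ x : ℝ, 2 ^ (i + 1) ≤ x →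
    x < 2 ^ (i + 2) → (1 + β') * Real.log x ^ 2 ≤ ⌊(1 + β) * (i * Real.log 2) ^ 2⌋₊ := by
  have hℓ : 0 < Real.log 2 := Real.log_pos (by norm_num)
  have h1 : Tendsto (fun i : ℕ => (1 + β') * (1 + 2 / (i : ℝ)) ^ 2 + 1 / ((i : ℝ) * Real.log 2) ^ 2) atTop
      (𝓝 ((1 + β') * (1 + 0) ^ 2 + 0)) := by
    refine Tendsto.add (Tendsto.const_mul _ (Tendsto.pow (Tendsto.const_add _ ?_) 2)) ?_
    · exact tendsto_const_div_atTop_nhds_zero_nat 2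
    · have h2 : Tendsto (fun i : ℕ => ((i : ℝ) * Real.log 2) ^ 2) atTop atTop :=
        (tendsto_pow_atTop two_ne_zero).comp (tendsto_natCast_atTop_atTop.atTop_mul_const hℓ)
      exact h2.const_div_atTop 1
  have h2 : ((1 + β') * (1 + 0) ^ 2 + 0) < 1 + β := by linarith
  filter_upwards [h1.eventually (gt_mem_nhds h2), eventually_ge_atTop 1] with i h3 h4 x hx1 hx
  have hi : (1 : ℝ) ≤ i := by exact_mod_cast h4
  have hi0 : (0 : ℝ) < i := by linarith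
  have hx2 : (1 : ℝ) ≤ x := (one_le_pow₀ (by norm_num)).trans hx1
  have hx0 : 0 < x := by linarith
  have h5 : Real.log x ≤ (i + 2) * Real.log 2 := by
    have h4 : Real.log x ≤ Real.log ((2 : ℝ) ^ (i + 2)) := Real.log_le_log hx0 hx.le
    rw [Real.log_pow] at h4
    push_cast at h4
    exact h4
  have h6 : (1 + β') * Real.log x ^ 2 ≤ (1 + β') * ((i + 2) * Real.log 2) ^ 2 :=
    mul_le_mul_of_nonneg_left (pow_le_pow_left₀ (Real.log_nonneg hx2) h5 2) (by linarith)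
  refine h6.trans ?_
  have h7 := Nat.lt_floor_add_one ((1 + β) * (i * Real.log 2) ^ 2)
  have h8 : 0 < (i * Real.log 2) ^ 2 := by positivity
  have h9 := mul_lt_mul_of_pos_right h3 h8
  have h10 : ((1 + β') * (1 + 2 / (i : ℝ)) ^ 2 + 1 / ((i : ℝ) * Real.log 2) ^ 2) * (i * Real.log 2) ^ 2 =
      (1 + β') * ((i + 2) * Real.log 2) ^ 2 + 1 := by
    field_simp
  rw [h10] at h9
  linarith

/-- sharp comparison, from above -/
lemma cmp_sharp_up (κ : ℝ) (hκ : 0 < κ) : ∀ᶠ i : ℕ in atTop, ∀ x : ℝ, 2 ^ i ≤ x →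
    (⌊(1 + κ) * (i * Real.log 2) ^ 2⌋₊ : ℝ) ≤ (1 + κ) * Real.log x ^ 2 := by
  have hℓ : 0 < Real.log 2 := Real.log_pos (by norm_num)
  filter_upwards with i x hx
  refine (Nat.floor_le (by positivity)).trans ?_
  apply mul_le_mul_of_nonneg_left _ (by linarith)
  have h4 : Real.log ((2 : ℝ) ^ i) ≤ Real.log x := Real.log_le_log (by positivity) hx
  rw [Real.log_pow] at h4
  exact pow_le_pow_left₀ (by positivity) h4 2

end det

section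

variable {Ω : Type} {m0 : MeasurableSpace Ω} {μ : Measure Ω} [IsProbabilityMeasure μ]
  {ℱ : Filtration ℕ m0} {A : ℕ → Set Ω}

lemma em_iff {ω : Ω} {t y : ℕ} : ω ∉ Em A t y ↔ ∃ j < y, t + j + 1 ∈ {n | ω ∈ A n} := by
  unfold Em
  simp

/-- windows for the upper exponent -/
theorem up_windows (hA : ∀ n, MeasurableSet[ℱ n] (A n)) (z : ℕ → ℕ) (a : ℝ) (ha : 1 ≤ a)
    (hz : ∀ ε : ℝ, 0 < ε → ∀ᶠ n : ℕ in atTop, (z n : ℝ) ≤ Real.log n ^ (a + ε))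
    (hprof : ∀ᵐ ω ∂μ, ∀ ε : ℝ, 0 < ε → ∀ᶠ n : ℕ in atTop,
      |dens μ ℱ A n ω - dn z (n + 1)| ≤ ε * dn z (n + 1)) (ε : ℝ) (hε : 0 < ε) (hε1 : ε ≤ 1) :
    ∀ᵐ ω ∂μ, ∀ᶠ i : ℕ in atTop, ∀ t, 2 ^ i ≤ t → t < 2 ^ (i + 1) →
      ∃ j < ⌊(i : ℝ) ^ (2 * a + ε)⌋₊, t + j + 1 ∈ {n | ω ∈ A n} := by
  have h1 := win_fin (μ := μ) (ℱ := ℱ) (A := A) hA (dn z) hprof
    (fun i => ⌊(i : ℝ) ^ (2 * a + ε)⌋₊) 1 one_pos (low_exp z a ha hz ε hε hε1)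
  filter_upwards [h1] with ω hω
  filter_upwards [hω] with i h2 t ht1 ht2
  exact em_iff.1 (h2 t ht1 ht2)

/-- the upper exponent -/
theorem law_up (hA : ∀ n, MeasurableSet[ℱ n] (A n)) (z : ℕ → ℕ) (a : ℝ) (ha : 1 ≤ a)
    (hz : ∀ ε : ℝ, 0 < ε → ∀ᶠ n : ℕ in atTop, (z n : ℝ) ≤ Real.log n ^ (a + ε))
    (hprof : ∀ᵐ ω ∂μ, ∀ ε : ℝ, 0 < ε → ∀ᶠ n : ℕ in atTop,
      |dens μ ℱ A n ω - dn z (n + 1)| ≤ ε * dn z (n + 1)) :
    ∀ᵐ ω ∂μ, ({n | ω ∈ A n} : Set ℕ).Infinite ∧ ∀ ε : ℝ, 0 < ε → ∀ᶠ x : ℝ in atTop,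
      (G {n | ω ∈ A n} x : ℝ) ≤ Real.log x ^ (2 * a + ε) := by
  have h1 : ∀ k : ℕ, ∀ᵐ ω ∂μ, ∀ᶠ i : ℕ in atTop, ∀ t, 2 ^ i ≤ t → t < 2 ^ (i + 1) →
      ∃ j < ⌊(i : ℝ) ^ (2 * a + 1 / ((k : ℝ) + 1))⌋₊, t + j + 1 ∈ {n | ω ∈ A n} := by
    intro k
    refine up_windows hA z a ha hz hprof _ (by positivity) ?_
    rw [div_le_one (by positivity)]
    have : (0 : ℝ) ≤ k := Nat.cast_nonneg k
    linarith
  filter_upwards [ae_all_iff.2 h1] with ω hω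
  refine ⟨inf_of_win _ (hω 0), fun ε hε => ?_⟩
  obtain ⟨k, hk⟩ := exists_nat_gt (2 / ε)
  have hk0 : (0 : ℝ) < (k : ℝ) + 1 := by positivity
  have hkε : 2 * (1 / ((k : ℝ) + 1)) ≤ ε := by
    rw [div_lt_iff₀ hε] at hk
    rw [mul_one_div, div_le_iff₀ hk0]
    linarith
  have h2 := G_upper (S := {n | ω ∈ A n}) _ (fun x => Real.log x ^ (2 * a + 2 * (1 / ((k : ℝ) + 1))))
    (cmp_up (2 * a) (1 / ((k : ℝ) + 1)) (by linarith) (by positivity))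
    ((tendsto_rpow_atTop (by positivity)).comp Real.tendsto_log_atTop) (hω k)
  filter_upwards [h2, Real.tendsto_log_atTop.eventually_ge_atTop 1] with x h3 h4
  exact h3.trans (Real.rpow_le_rpow_of_exponent_le h4 (by linarith))

/-- the lower exponent -/
theorem law_low (hA : ∀ n, MeasurableSet[ℱ n] (A n)) (z : ℕ → ℕ) (K : ℝ) (hK : 0 < K)
    (hz : ∀ᶠ n : ℕ in atTop, (z n : ℝ) ≤ Real.log n ^ K)
    (hprof : ∀ᵐ ω ∂μ, ∀ ε : ℝ, 0 < ε → ∀ᶠ n : ℕ in atTop,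
      |dens μ ℱ A n ω - dn z (n + 1)| ≤ ε * dn z (n + 1))
    (hinf : ∀ᵐ ω ∂μ, ({n | ω ∈ A n} : Set ℕ).Infinite) :
    ∀ᵐ ω ∂μ, ∀ ε : ℝ, 0 < ε → ∀ᶠ x : ℝ in atTop, Real.log x ^ (2 - ε) ≤ G {n | ω ∈ A n} x := by
  have hρ0 := dn_tendsto z (ratio_of_log hz)
  have h1 : ∀ k : ℕ, ∀ᵐ ω ∂μ, ∀ᶠ i in atTop, i ∈ (Set.univ : Set ℕ) → ∃ t, 2 ^ i ≤ t ∧
      t + ⌊(i : ℝ) ^ (2 - 1 / ((k : ℝ) + 1))⌋₊ ≤ 2 ^ (i + 1) ∧
      ω ∈ Em A t ⌊(i : ℝ) ^ (2 - 1 / ((k : ℝ) + 1))⌋₊ := by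
    intro k
    set ε : ℝ := 1 / ((k : ℝ) + 1) with hε
    have hε0 : 0 < ε := by positivity
    have hε1 : ε ≤ 1 := by
      rw [hε, div_le_one (by positivity)]
      have : (0 : ℝ) ≤ k := Nat.cast_nonneg k
      linarith
    refine stage_io (μ := μ) (ℱ := ℱ) (A := A) hA z hρ0 hprof Set.univ
      (fun i => ⌊(i : ℝ) ^ (2 - ε)⌋₊) 1 one_pos ?_
    have e4 : ∀ᶠ i : ℕ in atTop, 2 * (i : ℝ) ^ (1 - ε / 2) ≤ i * Real.log 2 / 2 := by
      have h2 := pow_large (ε / 2) 8 (by positivity)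
      filter_upwards [h2, eventually_ge_atTop 1] with i h3 h4
      have hi : (1 : ℝ) ≤ i := by exact_mod_cast h4
      have hi0 : (0 : ℝ) < i := by linarith
      have h5 : (i : ℝ) = (i : ℝ) ^ (1 - ε / 2) * (i : ℝ) ^ (ε / 2) := by
        rw [← Real.rpow_add hi0]
        norm_num
      have h6 : (i : ℝ) ^ (1 - ε / 2) * 8 ≤ i := by
        nth_rewrite 2 [h5]
        exact mul_le_mul_of_nonneg_left h3 (by positivity)
      have h7 := Real.log_two_gt_d9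
      have h8 : (i : ℝ) * (1 / 2) ≤ i * Real.log 2 := mul_le_mul_of_nonneg_left (by linarith) hi0.le
      linarith
    filter_upwards [up_exp z K hK hz ε hε0, e4, poly_small (1 / 4) 2 2 (by norm_num),
      poly_small (1 / 4) 1 2 (by norm_num), eventually_ge_atTop 2] with i h2 h3 h4 h5 h6 _
    have hi : (2 : ℝ) ≤ i := by exact_mod_cast h6
    have hi0 : (0 : ℝ) < i := by linarith
    set y : ℕ := ⌊(i : ℝ) ^ (2 - ε)⌋₊ with hy
    have hyle : (y : ℝ) ≤ (i : ℝ) ^ (2 - ε) := Nat.floor_le (by positivity)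
    have hy1 : 1 ≤ y := Nat.le_floor (by
      push_cast
      exact Real.one_le_rpow (by linarith) (by linarith))
    have hy0 : (0 : ℝ) < y := by exact_mod_cast hy1
    set M : ℕ := 2 ^ i / y with hM
    have hMy : M * y ≤ 2 ^ i := Nat.div_mul_le_self _ _
    have e2 : 2 ^ (i + 1) = 2 ^ i + 2 ^ i := by ring
    have hpos : ∀ j ∈ Finset.range M, 2 ^ i ≤ 2 ^ i + j * y ∧ 2 ^ i + j * y + y ≤ 2 ^ (i + 1) := by
      intro j hj
      have hj := Finset.mem_range.1 hj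
      have h7 : (j + 1) * y ≤ M * y := Nat.mul_le_mul_right y hj
      have h8 : (j + 1) * y = j * y + y := by ring
      exact ⟨by omega, by omega⟩
    refine ⟨(i : ℝ) ^ (1 - ε / 2), 2 ^ i, y, M, Finset.range M, by positivity, Nat.lt_two_pow_self.le,
      le_rfl, fun j hj => Finset.mem_range.1 hj, ?_, ?_, hpos⟩
    · intro j hj
      exact h2 (2 ^ i + j * y) (hpos j hj).1 y (hpos j hj).2 hyle
    · rw [Finset.card_range]
      have hyi : (y : ℝ) ≤ (2 : ℝ) ^ (1 / 4 * (i : ℝ)) / 2 := by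
        have h7 : (i : ℝ) ^ (2 - ε) ≤ (i : ℝ) ^ (2 : ℝ) :=
          Real.rpow_le_rpow_of_exponent_le (by linarith) (by linarith)
        linarith
      have h7 : (2 : ℝ) ^ (3 / 4 * (i : ℝ)) ≤ M := by
        have g1 : 2 ^ i < 2 ^ i / y * y + y := Nat.lt_div_mul_add hy1
        have g2 : (2 : ℝ) ^ i < (M + 1) * y := by
          have : ((2 ^ i : ℕ) : ℝ) < ((2 ^ i / y * y + y : ℕ) : ℝ) := by exact_mod_cast g1
          push_cast at this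
          rw [hM]
          push_cast
          linarith
        have g3 : (2 : ℝ) ^ i < (M + 1) * ((2 : ℝ) ^ (1 / 4 * (i : ℝ)) / 2) :=
          g2.trans_le (mul_le_mul_of_nonneg_left hyi (by positivity))
        have g4 : (2 : ℝ) ^ i = (2 : ℝ) ^ (3 / 4 * (i : ℝ)) * (2 : ℝ) ^ (1 / 4 * (i : ℝ)) := by
          rw [← Real.rpow_add (by norm_num), ← Real.rpow_natCast]
          congr 1
          ring
        have g5 : (2 : ℝ) ^ (3 / 4 * (i : ℝ)) * 2 * ((2 : ℝ) ^ (1 / 4 * (i : ℝ)) / 2) <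
            (M + 1) * ((2 : ℝ) ^ (1 / 4 * (i : ℝ)) / 2) := by
          rw [g4] at g3
          linarith
        have g6 := lt_of_mul_lt_mul_right g5 (by positivity)
        have g7 : (1 : ℝ) ≤ (2 : ℝ) ^ (3 / 4 * (i : ℝ)) := Real.one_le_rpow (by norm_num) (by positivity)
        linarith
      have h8 : (2 : ℝ) ^ (-(1 / 2) * (i : ℝ)) ≤ Real.exp (-((1 + 1) * (i : ℝ) ^ (1 - ε / 2))) := by
        rw [Real.rpow_def_of_pos (by norm_num)]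
        apply Real.exp_le_exp.2
        linarith
      have h9 : (i : ℝ) ≤ (2 : ℝ) ^ (3 / 4 * (i : ℝ)) * (2 : ℝ) ^ (-(1 / 2) * (i : ℝ)) := by
        rw [← Real.rpow_add (by norm_num)]
        have e : 3 / 4 * (i : ℝ) + -(1 / 2) * i = 1 / 4 * i := by ring
        rw [e]
        rw [Real.rpow_one] at h5
        linarith
      exact h9.trans (mul_le_mul h7 h8 (by positivity) (by positivity))
  filter_upwards [ae_all_iff.2 h1, hinf] with ω hω hS ε hε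
  obtain ⟨k, hk⟩ := exists_nat_gt (2 / ε)
  have hk0 : (0 : ℝ) < (k : ℝ) + 1 := by positivity
  have hkε : 2 * (1 / ((k : ℝ) + 1)) ≤ ε := by
    rw [div_lt_iff₀ hε] at hk
    rw [mul_one_div, div_le_iff₀ hk0]
    linarith
  have h2 := gaps_of_win hS Set.univ _ (hω k)
  have h3 := dyadic (fun _ x => Real.log x ^ (2 - 2 * (1 / ((k : ℝ) + 1))) ≤ G {n | ω ∈ A n} x) (by
    filter_upwards [h2, cmp_low (1 / ((k : ℝ) + 1)) (by positivity) (by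
      rw [div_le_one (by positivity)]
      have : (0 : ℝ) ≤ k := Nat.cast_nonneg k
      linarith)] with i g1 g2 x hx1 hx2
    exact (g2 x hx1 hx2).trans (g1 (Set.mem_univ _) x hx1).le)
  filter_upwards [h3, Real.tendsto_log_atTop.eventually_ge_atTop 1] with x h4 h5
  obtain ⟨_, h6⟩ := h4
  exact le_trans (Real.rpow_le_rpow_of_exponent_le h5 (by linarith)) h6

/-- general lower bound with the constant -/
theorem law_gen (hA : ∀ n, MeasurableSet[ℱ n] (A n)) (z : ℕ → ℕ) (hmono : Monotone z)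
    (hz : ∀ ε : ℝ, 0 < ε → ∀ᶠ n : ℕ in atTop, (z n : ℝ) ≤ (n : ℝ) ^ ε)
    (hρ0 : Tendsto (dn z) atTop (𝓝 0))
    (hprof : ∀ᵐ ω ∂μ, ∀ ε : ℝ, 0 < ε → ∀ᶠ n : ℕ in atTop,
      |dens μ ℱ A n ω - dn z (n + 1)| ≤ ε * dn z (n + 1))
    (hinf : ∀ᵐ ω ∂μ, ({n | ω ∈ A n} : Set ℕ).Infinite) (θ β β' : ℝ) (hθ : 0 < θ)
    (hβ : β' < β) (hβ' : -1 < β') (hθβ : θ * (1 + β) < 1) (I : Set ℕ)
    (hP : ∀ ε : ℝ, 0 < ε → ∀ᶠ i : ℕ in atTop, i ∈ I → ∃ P : Finset ℕ,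
      (∀ p ∈ P, p.Prime ∧ p ≤ z (2 ^ i)) ∧
      ((∏ p ∈ P, p : ℕ) : ℝ) ≤ Real.exp (ε * (i * Real.log 2)) ∧
      (V P ⌊(1 + β) * (i * Real.log 2) ^ 2⌋₊ : ℝ) ≤
        θ * (⌊(1 + β) * (i * Real.log 2) ^ 2⌋₊ * ∏ p ∈ P, (1 - 1 / (p : ℝ)))) :
    ∀ᵐ ω ∂μ, ∀ᶠ i : ℕ in atTop, i ∈ I → ∀ x : ℝ, 2 ^ (i + 1) ≤ x → x < 2 ^ (i + 2) →
      (1 + β') * Real.log x ^ 2 ≤ G {n | ω ∈ A n} x := by
  obtain ⟨κ, hκ, hst⟩ := stage z hmono hz θ β hθ (by linarith) hθβ I hP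
  have h1 := stage_io (μ := μ) (ℱ := ℱ) (A := A) hA z hρ0 hprof I
    (fun i => ⌊(1 + β) * (i * Real.log 2) ^ 2⌋₊) κ hκ hst
  filter_upwards [h1, hinf] with ω hω hS
  have h2 := gaps_of_win hS I _ hω
  filter_upwards [h2, cmp_sharp β β' hβ hβ'] with i g1 g2 hI x hx1 hx2
  exact (g2 x hx1 hx2).trans (g1 hI x hx1).le

/-- the constant is at least one -/
theorem law_one (hA : ∀ n, MeasurableSet[ℱ n] (A n)) (z : ℕ → ℕ) (hmono : Monotone z)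
    (hz : ∀ ε : ℝ, 0 < ε → ∀ᶠ n : ℕ in atTop, (z n : ℝ) ≤ (n : ℝ) ^ ε)
    (hρ0 : Tendsto (dn z) atTop (𝓝 0))
    (hprof : ∀ᵐ ω ∂μ, ∀ ε : ℝ, 0 < ε → ∀ᶠ n : ℕ in atTop,
      |dens μ ℱ A n ω - dn z (n + 1)| ≤ ε * dn z (n + 1))
    (hinf : ∀ᵐ ω ∂μ, ({n | ω ∈ A n} : Set ℕ).Infinite) :
    ∀ᵐ ω ∂μ, ∀ ε : ℝ, 0 < ε → ∀ᶠ x : ℝ in atTop, (1 - ε) * Real.log x ^ 2 ≤ G {n | ω ∈ A n} x := by
  have h1 : ∀ k : ℕ, ∀ᵐ ω ∂μ, ∀ᶠ i : ℕ in atTop, i ∈ (Set.univ : Set ℕ) → ∀ x : ℝ, 2 ^ (i + 1) ≤ x →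
      x < 2 ^ (i + 2) → (1 + (-(1 / ((k : ℝ) + 2)))) * Real.log x ^ 2 ≤ G {n | ω ∈ A n} x := by
    intro k
    have hk : (0 : ℝ) < (k : ℝ) + 2 := by positivity
    have h2 : 0 < 1 / ((k : ℝ) + 2) := by positivity
    have h3 : 1 / ((k : ℝ) + 2) < 1 := by
      rw [div_lt_one hk]
      have : (0 : ℝ) ≤ k := Nat.cast_nonneg k
      linarith
    refine law_gen (μ := μ) (ℱ := ℱ) (A := A) hA z hmono hz hρ0 hprof hinf 1
      (-(1 / ((k : ℝ) + 2)) / 2) _ one_pos (by linarith) (by linarith) (by linarith) Set.univ ?_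
    intro ε hε
    filter_upwards with i _
    refine ⟨∅, by simp, ?_, ?_⟩
    · rw [Finset.prod_empty, Nat.cast_one]
      apply Real.one_le_exp
      have := Real.log_nonneg (by norm_num : (1 : ℝ) ≤ 2)
      positivity
    · rw [Finset.prod_empty, mul_one, one_mul]
      unfold V
      have : ((Finset.Icc 1 ⌊(1 + -(1 / ((k : ℝ) + 2)) / 2) * (i * Real.log 2) ^ 2⌋₊).filter
          (fun h => ∀ p ∈ (∅ : Finset ℕ), ¬ p ∣ h)).card ≤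
          ⌊(1 + -(1 / ((k : ℝ) + 2)) / 2) * (i * Real.log 2) ^ 2⌋₊ := by
        refine (Finset.card_filter_le _ _).trans ?_
        rw [Nat.card_Icc]
        omega
      exact_mod_cast this
  filter_upwards [ae_all_iff.2 h1] with ω hω ε hε
  obtain ⟨k, hk⟩ := exists_nat_gt (1 / ε)
  have hk0 : (0 : ℝ) < (k : ℝ) + 2 := by positivity
  have hkε : 1 / ((k : ℝ) + 2) ≤ ε := by
    rw [div_lt_iff₀ hε] at hk
    rw [div_le_iff₀ hk0]
    nlinarith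
  have h3 := dyadic (fun _ x => (1 + (-(1 / ((k : ℝ) + 2)))) * Real.log x ^ 2 ≤ G {n | ω ∈ A n} x) (by
    filter_upwards [hω k] with i g1 x hx1 hx2
    exact g1 (Set.mem_univ _) x hx1 hx2)
  filter_upwards [h3] with x h4
  obtain ⟨_, h6⟩ := h4
  refine le_trans ?_ h6
  exact mul_le_mul_of_nonneg_right (by linarith) (by positivity)

/-- the constant is larger than one at the stages where the sieve is large -/
theorem law_large (c : ℝ) (hc : 0 < c) : ∃ δ : ℝ, 0 < δ ∧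
    ∀ {Ω : Type} {m0 : MeasurableSpace Ω} {μ : Measure Ω} [IsProbabilityMeasure μ]
    {ℱ : Filtration ℕ m0} {A : ℕ → Set Ω} (_ : ∀ n, MeasurableSet[ℱ n] (A n)) (z : ℕ → ℕ)
    (_ : Monotone z) (_ : ∀ ε : ℝ, 0 < ε → ∀ᶠ n : ℕ in atTop, (z n : ℝ) ≤ (n : ℝ) ^ ε)
    (_ : Tendsto (dn z) atTop (𝓝 0))
    (_ : ∀ᵐ ω ∂μ, ∀ ε : ℝ, 0 < ε → ∀ᶠ n : ℕ in atTop,
      |dens μ ℱ A n ω - dn z (n + 1)| ≤ ε * dn z (n + 1))
    (_ : ∀ᵐ ω ∂μ, ({n | ω ∈ A n} : Set ℕ).Infinite),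
    ∀ᵐ ω ∂μ, ∀ᶠ i : ℕ in atTop, i ∈ {i : ℕ | (i * Real.log 2) ^ c ≤ z (2 ^ i)} →
      ∀ x : ℝ, 2 ^ (i + 1) ≤ x → x < 2 ^ (i + 2) →
      (1 + δ) * Real.log x ^ 2 ≤ G {n | ω ∈ A n} x := by
  obtain ⟨δ, κ, hδ, hδ4, hκ, H⟩ := mai c hc
  refine ⟨δ / 4, by positivity, ?_⟩
  intro Ω m0 μ hμ ℱ A hA z hmono hz hρ0 hprof hinf
  have hℓ : 0 < Real.log 2 := Real.log_pos (by norm_num)
  refine law_gen (μ := μ) (ℱ := ℱ) (A := A) hA z hmono hz hρ0 hprof hinf (1 - δ) (δ / 2) (δ / 4)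
    (by linarith) (by linarith) (by linarith) (by nlinarith) _ ?_
  intro ε hε
  have hT : Tendsto (fun i : ℕ => (i : ℝ) * Real.log 2) atTop atTop :=
    tendsto_natCast_atTop_atTop.atTop_mul_const hℓ
  have e1 : ∀ᶠ L : ℝ in atTop, (1 + δ / 2) ≤ L ^ κ := (tendsto_rpow_atTop hκ).eventually_ge_atTop _
  have e2 : ∀ᶠ L : ℝ in atTop, 2 / δ ≤ L ^ (2 : ℝ) :=
    (tendsto_rpow_atTop (by norm_num)).eventually_ge_atTop _
  filter_upwards [hT.eventually (H ε hε), hT.eventually e1, hT.eventually e2,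
    hT.eventually_gt_atTop 0] with i h1 h2 h3 h4 hI
  obtain ⟨P, hP1, hP2, hP3⟩ := h1
  set L : ℝ := i * Real.log 2 with hL
  have hI' : L ^ c ≤ z (2 ^ i) := hI
  refine ⟨P, fun p hp => ⟨(hP1 p hp).1, ?_⟩, hP2, ?_⟩
  · have := (hP1 p hp).2.trans hI'
    exact_mod_cast this
  · have hL2 : L ^ (2 : ℝ) = L ^ 2 := Real.rpow_two L
    have hL20 : 0 < L ^ 2 := by positivity
    have h5 := hP3 ((1 + δ / 2) * L ^ 2) (by
      rw [hL2]
      nlinarith) (by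
      rw [Real.rpow_add h4, hL2, mul_comm]
      exact mul_le_mul_of_nonneg_left h2 hL20.le)
    refine h5.trans ?_
    set Pr : ℝ := ∏ p ∈ P, (1 - 1 / (p : ℝ)) with hPr
    have hPr0 : 0 ≤ Pr := (fac_pos fun p hp => (hP1 p hp).1).1.le
    have h6 := Nat.lt_floor_add_one ((1 + δ / 2) * L ^ 2)
    set y : ℝ := (⌊(1 + δ / 2) * L ^ 2⌋₊ : ℝ) with hy
    have h7 : (1 - 2 * δ) * ((1 + δ / 2) * L ^ 2) ≤ (1 - δ) * y := by
      rw [hL2, div_le_iff₀ hδ] at h3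
      have h8 : (1 - δ) * ((1 + δ / 2) * L ^ 2 - 1) ≤ (1 - δ) * y :=
        mul_le_mul_of_nonneg_left (by linarith) (by linarith)
      have h9 : 0 ≤ δ * (δ / 2) * L ^ 2 := by positivity
      have h10 : (1 - δ) * ((1 + δ / 2) * L ^ 2 - 1) - (1 - 2 * δ) * ((1 + δ / 2) * L ^ 2) =
          L ^ 2 * δ + δ * (δ / 2) * L ^ 2 - (1 - δ) := by ring
      linarith
    calc (1 - 2 * δ) * ((1 + δ / 2) * L ^ 2 * Pr) = ((1 - 2 * δ) * ((1 + δ / 2) * L ^ 2)) * Pr := by ring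
      _ ≤ ((1 - δ) * y) * Pr := mul_le_mul_of_nonneg_right h7 hPr0
      _ = (1 - δ) * (y * Pr) := by ring

/-- the constant is at most one if the sieve is at most `(log n) ^ o(1)` -/
theorem law_small (hA : ∀ n, MeasurableSet[ℱ n] (A n)) (z : ℕ → ℕ) (hmono : Monotone z)
    (hz : ∀ ε : ℝ, 0 < ε → ∀ᶠ n : ℕ in atTop, (z n : ℝ) ≤ Real.log n ^ ε)
    (hprof : ∀ᵐ ω ∂μ, ∀ ε : ℝ, 0 < ε → ∀ᶠ n : ℕ in atTop,
      |dens μ ℱ A n ω - dn z (n + 1)| ≤ ε * dn z (n + 1)) :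
    ∀ᵐ ω ∂μ, ∀ ε : ℝ, 0 < ε → ∀ᶠ x : ℝ in atTop, (G {n | ω ∈ A n} x : ℝ) ≤ (1 + ε) * Real.log x ^ 2 := by
  have h1 : ∀ k : ℕ, ∀ᵐ ω ∂μ, ∀ᶠ i : ℕ in atTop, ∀ t, 2 ^ i ≤ t → t < 2 ^ (i + 1) →
      ω ∉ Em A t ⌊(1 + 1 / ((k : ℝ) + 1)) * (i * Real.log 2) ^ 2⌋₊ := by
    intro k
    have hk : (0 : ℝ) < (k : ℝ) + 1 := by positivity
    have h2 : 0 < 1 / ((k : ℝ) + 1) := by positivity
    have h3 : 1 / ((k : ℝ) + 1) ≤ 1 := by
      rw [div_le_one hk]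
      have : (0 : ℝ) ≤ k := Nat.cast_nonneg k
      linarith
    exact win_fin (μ := μ) (ℱ := ℱ) (A := A) hA (dn z) hprof _ (1 / ((k : ℝ) + 1) / 4) (by positivity)
      (low_sharp z hmono hz _ h2 h3)
  filter_upwards [ae_all_iff.2 h1] with ω hω ε hε
  obtain ⟨k, hk⟩ := exists_nat_gt (1 / ε)
  have hk0 : (0 : ℝ) < (k : ℝ) + 1 := by positivity
  have hkε : 1 / ((k : ℝ) + 1) ≤ ε := by
    rw [div_lt_iff₀ hε] at hk
    rw [div_le_iff₀ hk0]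
    nlinarith
  have h2 := G_upper (S := {n | ω ∈ A n}) (fun i => ⌊(1 + 1 / ((k : ℝ) + 1)) * (i * Real.log 2) ^ 2⌋₊)
    (fun x => (1 + 1 / ((k : ℝ) + 1)) * Real.log x ^ 2)
    (cmp_sharp_up (1 / ((k : ℝ) + 1)) (by positivity))
    (((tendsto_pow_atTop two_ne_zero).comp Real.tendsto_log_atTop).const_mul_atTop (by positivity)) (by
      filter_upwards [hω k] with i g1 t ht1 ht2
      exact em_iff.1 (g1 t ht1 ht2))
  filter_upwards [h2] with x h3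
  refine h3.trans ?_
  exact mul_le_mul_of_nonneg_right (by linarith) (by positivity)

end

end Pool.Agent.D0H60.RMG
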